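import Pool.Agent.CYL.P.Nc

set_option autoImplicit false

/-!
# CYL/N: planarity of the transfer matrix for any number of legs (generic)

Generic labels `κ`, sites `S`, positions `pos`, points at infinity `O` with an order `ord`. The blocks are the arcs and the
set of all through-sites (`Rl`); `Ncp`: the partition into blocks is non-crossing; `Cyo`: the labels of the through-sites
are in cyclic order. Both are preserved by the moves of neighbours.
-/

namespace Pool.Agent.CYL.Pg

open Pool.Agent.BEX Pool.Agent.BEX.Far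
open Pool.Agent.CYL.Pn (Sx Ox psx Sx_not_Ox psx_inj sw_fix2 sw_joined sw_sw')

section Rel

variable {κ : Type*}

/-- the partition into the classes of `R` is non-crossing -/
def Ncp (S : κ → Prop) (pos : κ → ℤ) (R : κ → κ → Prop) : Prop :=
  ∀ a b c d, S a → S b → S c → S d → pos a < pos b → pos b < pos c → pos c < pos d → R a c → R b d → R a b

/-- Merging the blocks of two neighbours `p`, `q`, which are removed. -/
theorem Ncp.cap {S : κ → Prop} {pos : κ → ℤ} {R R' : κ → κ → Prop} {p q : κ} (h : Ncp S pos R)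
    (hsym : ∀ x y, R x y → R y x) (htr : ∀ x y z, S x → S y → S z → R x y → R y z → R x z) (hp : S p) (hq : S q)
    (hinj : ∀ x y, S x → S y → pos x = pos y → x = y)
    (hadj : ∀ x, S x → x ≠ p → x ≠ q → (pos x < pos p ↔ pos x < pos q))
    (hne : ∀ x y, S x → S y → R' x y → x ≠ y → x ≠ p ∧ x ≠ q ∧ y ≠ p ∧ y ≠ q)
    (hR : ∀ x y, S x → S y → x ≠ p → x ≠ q → y ≠ p → y ≠ q →
      (R' x y ↔ R x y ∨ (R x p ∧ R q y) ∨ (R x q ∧ R p y))) : Ncp S pos R' := by
  intro a b c d ha hb hc hd h1 h2 h3 e1 e2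
  obtain ⟨a1, a2, c1, c2⟩ := hne a c ha hc e1 (by rintro rfl; omega)
  obtain ⟨b1, b2, d1, d2⟩ := hne b d hb hd e2 (by rintro rfl; omega)
  rw [hR a c ha hc a1 a2 c1 c2] at e1
  rw [hR b d hb hd b1 b2 d1 d2] at e2
  rw [hR a b ha hb a1 a2 b1 b2]
  have A := hadj a ha a1 a2
  have B := hadj b hb b1 b2
  have C := hadj c hc c1 c2
  have D := hadj d hd d1 d2
  have pa : pos p ≠ pos a := fun e => a1 (hinj _ _ hp ha e).symm
  have pb : pos p ≠ pos b := fun e => b1 (hinj _ _ hp hb e).symm
  have pc : pos p ≠ pos c := fun e => c1 (hinj _ _ hp hc e).symm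
  have pd : pos p ≠ pos d := fun e => d1 (hinj _ _ hp hd e).symm
  have qa : pos q ≠ pos a := fun e => a2 (hinj _ _ hq ha e).symm
  have qb : pos q ≠ pos b := fun e => b2 (hinj _ _ hq hb e).symm
  have qc : pos q ≠ pos c := fun e => c2 (hinj _ _ hq hc e).symm
  have qd : pos q ≠ pos d := fun e => d2 (hinj _ _ hq hd e).symm
  -- one old link, one new link
  have k1 : ∀ p' q', S p' → S q' → (pos a < pos p' ↔ pos a < pos q') → (pos c < pos p' ↔ pos c < pos q') →
      pos p' ≠ pos a → pos p' ≠ pos c → pos q' ≠ pos a → pos q' ≠ pos c → R a c → R b p' → R q' d →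
      R a b ∨ (R a q' ∧ R b p') := by
    intro p' q' sp sq A C pa pc qa qc r1 r2 r3
    by_cases t1 : pos a < pos p'
    · by_cases t2 : pos p' < pos c
      · right
        exact ⟨h a q' c d ha sq hc hd (by omega) (by omega) h3 r1 r3, r2⟩
      · left
        exact h a b c p' ha hb hc sp h1 h2 (by omega) r1 r2
    · left
      have r4 := h p' a b c sp ha hb hc (by omega) h1 h2 (hsym _ _ r2) r1
      exact htr a p' b ha sp hb (hsym _ _ r4) (hsym _ _ r2)
  have k2 : ∀ p' q', S p' → S q' → (pos b < pos p' ↔ pos b < pos q') → (pos d < pos p' ↔ pos d < pos q') →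
      pos p' ≠ pos b → pos p' ≠ pos d → pos q' ≠ pos b → pos q' ≠ pos d → R b d → R a p' → R q' c →
      R a b ∨ (R a p' ∧ R q' b) := by
    intro p' q' sp sq B D pb pd qb qd r1 r2 r3
    by_cases t1 : pos b < pos p'
    · by_cases t2 : pos p' < pos d
      · left
        exact h a b p' d ha hb sp hd h1 t1 t2 r2 r1
      · right
        have r4 := h b c d q' hb hc hd sq h2 h3 (by omega) r1 (hsym _ _ r3)
        exact ⟨r2, hsym _ _ (htr b c q' hb hc sq r4 (hsym _ _ r3))⟩
    · right
      exact ⟨r2, h q' b c d sq hb hc hd (by omega) h2 h3 r3 r1⟩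
  rcases e1 with e1 | ⟨e1, e1'⟩ | ⟨e1, e1'⟩
  · rcases e2 with e2 | ⟨e2, e2'⟩ | ⟨e2, e2'⟩
    · left
      exact h a b c d ha hb hc hd h1 h2 h3 e1 e2
    · rcases k1 p q hp hq (by omega) (by omega) pa pc qa qc e1 e2 e2' with g | ⟨g, g'⟩
      · exact Or.inl g
      · exact Or.inr (Or.inr ⟨g, hsym _ _ g'⟩)
    · rcases k1 q p hq hp (by omega) (by omega) qa qc pa pc e1 e2 e2' with g | ⟨g, g'⟩
      · exact Or.inl g
      · exact Or.inr (Or.inl ⟨g, hsym _ _ g'⟩)
  · rcases e2 with e2 | ⟨e2, e2'⟩ | ⟨e2, e2'⟩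
    · rcases k2 p q hp hq (by omega) (by omega) pb pd qb qd e2 e1 e1' with g | g
      · exact Or.inl g
      · exact Or.inr (Or.inl g)
    · left
      exact htr a p b ha hp hb e1 (hsym _ _ e2)
    · right
      left
      exact ⟨e1, hsym _ _ e2⟩
  · rcases e2 with e2 | ⟨e2, e2'⟩ | ⟨e2, e2'⟩
    · rcases k2 q p hq hp (by omega) (by omega) qb qd pb pd e2 e1 e1' with g | g
      · exact Or.inl g
      · exact Or.inr (Or.inr g)
    · right
      right
      exact ⟨e1, hsym _ _ e2⟩
    · left
      exact htr a q b ha hq hb e1 (hsym _ _ e2)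

/-- The block of two neighbours is added. -/
theorem Ncp.cup {S : κ → Prop} {pos : κ → ℤ} {R R' : κ → κ → Prop} {p q : κ} (h : Ncp S pos R)
    (hinj : ∀ x y, S x → S y → pos x = pos y → x = y) (hp : S p) (hq : S q)
    (hadj : ∀ x, S x → x ≠ p → x ≠ q → (pos x < pos p ↔ pos x < pos q))
    (hR : ∀ x y, S x → S y → x ≠ y → (R' x y → R x y ∨ (x = p ∧ y = q) ∨ (x = q ∧ y = p)))
    (hR' : ∀ x y, S x → S y → R x y → R' x y) : Ncp S pos R' := by
  intro a b c d ha hb hc hd h1 h2 h3 e1 e2
  have pq : ∀ x, S x → pos p < pos x → pos x < pos q → False := by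
    intro x hx g1 g2
    have n1 : x ≠ p := by rintro rfl; omega
    have n2 : x ≠ q := by rintro rfl; omega
    have := hadj x hx n1 n2
    omega
  have qp : ∀ x, S x → pos q < pos x → pos x < pos p → False := by
    intro x hx g1 g2
    have n1 : x ≠ p := by rintro rfl; omega
    have n2 : x ≠ q := by rintro rfl; omega
    have := hadj x hx n1 n2
    omega
  rcases hR _ _ ha hc (by rintro rfl; omega) e1 with e1 | ⟨rfl, rfl⟩ | ⟨rfl, rfl⟩
  · rcases hR _ _ hb hd (by rintro rfl; omega) e2 with e2 | ⟨rfl, rfl⟩ | ⟨rfl, rfl⟩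
    · exact hR' _ _ ha hb (h a b c d ha hb hc hd h1 h2 h3 e1 e2)
    · exact absurd (pq c hc h2 h3) id
    · exact absurd (qp c hc h2 h3) id
  · exact absurd (pq b hb h1 h2) id
  · exact absurd (qp b hb h1 h2) id

/-- Relabelling. -/
theorem Ncp.map {κ' : Type*} {S : κ → Prop} {S' : κ' → Prop} {pos : κ → ℤ} {pos' : κ' → ℤ} {R : κ → κ → Prop}
    {R' : κ' → κ' → Prop} (s : κ' → κ) (h : Ncp S pos R) (hS : ∀ x, S' x → S (s x))
    (hpos : ∀ x y, S' x → S' y → pos' x < pos' y → pos (s x) < pos (s y))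
    (hR : ∀ x y, S' x → S' y → (R' x y ↔ R (s x) (s y))) : Ncp S' pos' R' := by
  intro a b c d ha hb hc hd h1 h2 h3 e1 e2
  rw [hR _ _ ha hb]
  exact h (s a) (s b) (s c) (s d) (hS a ha) (hS b hb) (hS c hc) (hS d hd) (hpos a b ha hb h1)
    (hpos b c hb hc h2) (hpos c d hc hd h3) ((hR _ _ ha hc).1 e1) ((hR _ _ hb hd).1 e2)

/-- Positions after a hop. -/
theorem hop_mono {S : κ → Prop} {pos : κ → ℤ} {p q : κ} [DecidableEq κ]
    (hinj : ∀ x y, S x → S y → pos x = pos y → x = y) (hq : S q)
    (hadj : ∀ x, S x → x ≠ p → x ≠ q → (pos x < pos p ↔ pos x < pos q)) (x y : κ) (hx : S x) (hy : S y)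
    (nx : x ≠ q) (ny : y ≠ q) (hxy : pos x < pos y) :
    pos (if x = p then q else x) < pos (if y = p then q else y) := by
  by_cases x1 : x = p
  · subst x1
    by_cases y1 : y = x
    · subst y1
      omega
    · rw [if_pos rfl, if_neg y1]
      have h1 := hadj y hy y1 ny
      have h2 : pos y ≠ pos q := fun e => ny (hinj _ _ hy hq e)
      omega
  · by_cases y1 : y = p
    · subst y1
      rw [if_neg x1, if_pos rfl]
      have h1 := hadj x hx x1 nx
      omega
    · rw [if_neg x1, if_neg y1]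
      exact hxy

/-- The leg at `q` hops to the empty neighbour `p`. -/
theorem Ncp.hop {S : κ → Prop} {pos : κ → ℤ} {R R' : κ → κ → Prop} {p q : κ} [DecidableEq κ] (h : Ncp S pos R)
    (hinj : ∀ x y, S x → S y → pos x = pos y → x = y) (hq : S q)
    (hadj : ∀ x, S x → x ≠ p → x ≠ q → (pos x < pos p ↔ pos x < pos q))
    (hne : ∀ x y, S x → S y → R' x y → x ≠ y → x ≠ q ∧ y ≠ q)
    (hR : ∀ x y, S x → S y → x ≠ q → y ≠ q →
      (R' x y ↔ R (if x = p then q else x) (if y = p then q else y))) : Ncp S pos R' := by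
  have hS : ∀ x, S x → S (if x = p then q else x) := by
    intro x hx
    split_ifs
    · exact hq
    · exact hx
  intro a b c d ha hb hc hd h1 h2 h3 e1 e2
  obtain ⟨n1, n2⟩ := hne _ _ ha hc e1 (by rintro rfl; omega)
  obtain ⟨n3, n4⟩ := hne _ _ hb hd e2 (by rintro rfl; omega)
  rw [hR _ _ ha hb n1 n3]
  exact h _ _ _ _ (hS a ha) (hS b hb) (hS c hc) (hS d hd) (hop_mono hinj hq hadj a b ha hb n1 n3 h1)
    (hop_mono hinj hq hadj b c hb hc n3 n2 h2) (hop_mono hinj hq hadj c d hc hd n2 n4 h3)
    ((hR _ _ ha hc n1 n2).1 e1) ((hR _ _ hb hd n3 n4).1 e2)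

/-- Rotation: the last site `z` becomes the first one. -/
theorem Ncp.rot {S : κ → Prop} {pos pos' : κ → ℤ} {R : κ → κ → Prop} {z : κ} (h : Ncp S pos R)
    (hsym : ∀ x y, R x y → R y x) (htr : ∀ x y z, S x → S y → S z → R x y → R y z → R x z)
    (hz : ∀ x, S x → x ≠ z → pos x < pos z ∧ pos' z < pos' x)
    (ho : ∀ x y, S x → S y → x ≠ z → y ≠ z → pos' x < pos' y → pos x < pos y) : Ncp S pos' R := by
  intro a b c d ha hb hc hd h1 h2 h3 e1 e2
  have nb : b ≠ z := by rintro rfl; by_cases e : a = b; (subst e; omega); have := (hz a ha e).2; omega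
  have nc : c ≠ z := by rintro rfl; by_cases e : b = c; (subst e; omega); have := (hz b hb e).2; omega
  have nd : d ≠ z := by rintro rfl; by_cases e : c = d; (subst e; omega); have := (hz c hc e).2; omega
  have g2 := ho b c hb hc nb nc h2
  have g3 := ho c d hc hd nc nd h3
  by_cases e : a = z
  · subst e
    have r := h b c d a hb hc hd ha g2 g3 (hz d hd nd).1 e2 (hsym _ _ e1)
    exact htr _ _ _ ha hc hb e1 (hsym _ _ r)
  · exact h a b c d ha hb hc hd (ho a b ha hb e nb h1) g2 g3 e1 e2

/-- Two different blocks do not separate each other. -/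
theorem Ncp.sep {S : κ → Prop} {pos : κ → ℤ} {R : κ → κ → Prop} {p x q v : κ} (h : Ncp S pos R)
    (hsym : ∀ x y, R x y → R y x) (htr : ∀ x y z, S x → S y → S z → R x y → R y z → R x z)
    (sp : S p) (sx : S x) (sq : S q) (sv : S v) (h1 : R p x) (h2 : R q v) (h3 : ¬ R p q)
    (n1 : pos p ≠ pos q) (n2 : pos p ≠ pos v) (n3 : pos x ≠ pos q) (n4 : pos x ≠ pos v) :
    ((pos q < pos x ∧ pos x < pos v) ∨ (pos v < pos x ∧ pos x < pos q)) ↔
      ((pos q < pos p ∧ pos p < pos v) ∨ (pos v < pos p ∧ pos p < pos q)) := by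
  have m1 : ¬ R x q := fun e => h3 (htr _ _ _ sp sx sq h1 e)
  have m2 : ¬ R p v := fun e => h3 (htr _ _ _ sp sv sq e (hsym _ _ h2))
  have m3 : ¬ R x v := fun e => m2 (htr _ _ _ sp sx sv h1 e)
  have c1 : ¬ (pos p < pos q ∧ pos q < pos x ∧ pos x < pos v) := fun g =>
    h3 (h p q x v sp sq sx sv g.1 g.2.1 g.2.2 h1 h2)
  have c2 : ¬ (pos p < pos v ∧ pos v < pos x ∧ pos x < pos q) := fun g =>
    m2 (h p v x q sp sv sx sq g.1 g.2.1 g.2.2 h1 (hsym _ _ h2))
  have c3 : ¬ (pos x < pos q ∧ pos q < pos p ∧ pos p < pos v) := fun g =>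
    m1 (h x q p v sx sq sp sv g.1 g.2.1 g.2.2 (hsym _ _ h1) h2)
  have c4 : ¬ (pos x < pos v ∧ pos v < pos p ∧ pos p < pos q) := fun g =>
    m3 (h x v p q sx sv sp sq g.1 g.2.1 g.2.2 (hsym _ _ h1) (hsym _ _ h2))
  have c5 : ¬ (pos q < pos p ∧ pos p < pos v ∧ pos v < pos x) := fun g =>
    h3 (hsym _ _ (h q p v x sq sp sv sx g.1 g.2.1 g.2.2 h2 h1))
  have c6 : ¬ (pos q < pos x ∧ pos x < pos v ∧ pos v < pos p) := fun g =>
    m1 (hsym _ _ (h q x v p sq sx sv sp g.1 g.2.1 g.2.2 h2 (hsym _ _ h1)))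
  have c7 : ¬ (pos v < pos p ∧ pos p < pos q ∧ pos q < pos x) := fun g =>
    m2 (hsym _ _ (h v p q x sv sp sq sx g.1 g.2.1 g.2.2 (hsym _ _ h2) h1))
  have c8 : ¬ (pos v < pos x ∧ pos x < pos q ∧ pos q < pos p) := fun g =>
    m3 (hsym _ _ (h v x q p sv sx sq sp g.1 g.2.1 g.2.2 (hsym _ _ h2) (hsym _ _ h1)))
  omega

end Rel

section Links

variable {κ : Type*} [DecidableEq κ]

/-- same block: equal, joined, or both through-sites -/
def Rl (O : κ → Prop) (m : St κ) (x y : κ) : Prop := x = y ∨ m x = y ∨ (O (m x) ∧ O (m y))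

/-- cyclic order -/
def Cyc (u v w : ℤ) : Prop := (u < v ∧ v < w) ∨ (v < w ∧ w < u) ∨ (w < u ∧ u < v)

/-- the through-sites are in cyclic order -/
def Cyo (S : κ → Prop) (pos : κ → ℤ) (O : κ → Prop) (ord : κ → ℤ) (m : St κ) : Prop :=
  ∀ x y z, S x → S y → S z → O (m x) → O (m y) → O (m z) → pos x < pos y → pos y < pos z →
    Cyc (ord (m x)) (ord (m y)) (ord (m z))

/-- the good states -/
structure Gd (S : κ → Prop) (pos : κ → ℤ) (O : κ → Prop) (ord : κ → ℤ) (m : St κ) : Prop where
  nc : Ncp S pos (Rl O m)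
  cy : Cyo S pos O ord m

omit [DecidableEq κ] in
theorem Rl.symm {O : κ → Prop} {m : St κ} {x y : κ} (h : Rl O m x y) : Rl O m y x := by
  rcases h with h | h | h
  · exact Or.inl h.symm
  · right
    left
    rw [← h, m.inv]
  · exact Or.inr (Or.inr ⟨h.2, h.1⟩)

omit [DecidableEq κ] in
theorem Rl.trans {O S : κ → Prop} (hS : ∀ x, S x → ¬ O x) {m : St κ} {x y z : κ} (hx : S x) (_ : S y) (hz : S z)
    (h1 : Rl O m x y) (h2 : Rl O m y z) : Rl O m x z := by
  rcases h1 with rfl | h1 | h1
  · exact h2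
  · rcases h2 with rfl | h2 | h2
    · exact Or.inr (Or.inl h1)
    · left
      rw [← h2, ← h1, m.inv]
    · exfalso
      have : m y = x := by rw [← h1, m.inv]
      exact hS x hx (this ▸ h2.1)
  · rcases h2 with rfl | h2 | h2
    · exact Or.inr (Or.inr h1)
    · exfalso
      exact hS z hz (h2 ▸ h1.2)
    · exact Or.inr (Or.inr ⟨h1.1, h2.2⟩)

variable {O S : κ → Prop} {m : St κ} {p q x y : κ}

theorem Rl.cp_ne (hp : m p ≠ p) (hq : m q ≠ q) (hO : ∀ x, S x → ¬ O x) (sp : S p) (sq : S q) (sx : S x) (sy : S y)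
    (h : Rl O (m.cp p q) x y) (hxy : x ≠ y) : x ≠ p ∧ x ≠ q ∧ y ≠ p ∧ y ≠ q := by
  have op := hO p sp
  have oq := hO q sq
  have ox := hO x sx
  have oy := hO y sy
  have i1 := m.inv p
  have i2 := m.inv q
  have i3 := m.inv x
  have i4 := m.inv y
  unfold Rl at h
  rw [cp_ap hp hq, cp_ap hp hq] at h
  grind (splits := 60)

theorem Rl.cp_iff (hp : m p ≠ p) (hq : m q ≠ q) (hO : ∀ x, S x → ¬ O x) (sp : S p) (sq : S q) (sx : S x) (sy : S y)
    (hpq : p ≠ q) (h1 : x ≠ p) (h2 : x ≠ q) (h3 : y ≠ p) (h4 : y ≠ q) :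
    Rl O (m.cp p q) x y ↔ Rl O m x y ∨ (Rl O m x p ∧ Rl O m q y) ∨ (Rl O m x q ∧ Rl O m p y) := by
  have op := hO p sp
  have oq := hO q sq
  have ox := hO x sx
  have oy := hO y sy
  have i1 := m.inv p
  have i2 := m.inv q
  have i3 := m.inv x
  have i4 := m.inv y
  unfold Rl
  rw [cp_ap hp hq, cp_ap hp hq]
  grind (splits := 100)

theorem Rl.jn_imp (hp : m p = p) (hq : m q = q) (hO : ∀ x, S x → ¬ O x) (sp : S p) (sq : S q)
    (hxy : x ≠ y) (h : Rl O (m.jn p q) x y) : Rl O m x y ∨ (x = p ∧ y = q) ∨ (x = q ∧ y = p) := by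
  have op := hO p sp
  have oq := hO q sq
  unfold Rl at h ⊢
  rw [jn_ap hp hq, jn_ap hp hq] at h
  grind (splits := 60)

theorem Rl.jn_of (hp : m p = p) (hq : m q = q) (hO : ∀ x, S x → ¬ O x) (sp : S p) (sq : S q)
    (h : Rl O m x y) : Rl O (m.jn p q) x y := by
  have op := hO p sp
  have oq := hO q sq
  have i3 := m.inv x
  have i4 := m.inv y
  unfold Rl at h ⊢
  rw [jn_ap hp hq, jn_ap hp hq]
  grind (splits := 60)

theorem Rl.sw_ne (hp : m p = p) (hO : ∀ x, S x → ¬ O x) (sp : S p) (sq : S q) (hpq : p ≠ q)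
    (hxy : x ≠ y) (h : Rl O (m.sw p q) x y) : x ≠ q ∧ y ≠ q := by
  have op := hO p sp
  have oq := hO q sq
  have i1 := m.inv p
  have i2 := m.inv q
  have i3 := m.inv x
  have i4 := m.inv y
  unfold Rl at h
  rw [sw_ap', sw_ap'] at h
  grind (splits := 60)

theorem Rl.sw_iff (hp : m p = p) (hO : ∀ x, S x → ¬ O x) (sp : S p) (sq : S q) (sx : S x) (sy : S y) (hpq : p ≠ q)
    (h1 : x ≠ q) (h2 : y ≠ q) :
    Rl O (m.sw p q) x y ↔ Rl O m (if x = p then q else x) (if y = p then q else y) := by
  have op := hO p sp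
  have oq := hO q sq
  have ox := hO x sx
  have oy := hO y sy
  have i1 := m.inv p
  have i2 := m.inv q
  have i3 := m.inv x
  have i4 := m.inv y
  unfold Rl
  rw [sw_ap', sw_ap']
  grind (splits := 100)

/-- `m (swap x)` for a state with exchanged labels, at infinity -/
theorem sw_O (hO : ∀ x, S x → ¬ O x) (sp : S p) (sq : S q) (x : κ) (h : O ((m.sw p q) x)) :
    (m.sw p q) x = m (Equiv.swap p q x) := by
  rw [sw_ap] at h ⊢
  rw [Equiv.swap_apply_def p q (m (Equiv.swap p q x))] at h ⊢
  split_ifs at h ⊢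
  · exact absurd h (hO q sq)
  · exact absurd h (hO p sp)
  · rfl

theorem sw_O' (hO : ∀ x, S x → ¬ O x) (sp : S p) (sq : S q) (x : κ) (h : O (m (Equiv.swap p q x))) :
    (m.sw p q) x = m (Equiv.swap p q x) := by
  rw [sw_ap]
  refine Equiv.swap_apply_of_ne_of_ne ?_ ?_
  · intro e
    exact hO p sp (e ▸ h)
  · intro e
    exact hO q sq (e ▸ h)

theorem Rl.sw' (hO : ∀ x, S x → ¬ O x) (sp : S p) (sq : S q) :
    Rl O (m.sw p q) x y ↔ Rl O m (Equiv.swap p q x) (Equiv.swap p q y) := by
  unfold Rl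
  have e1 : (m.sw p q) x = y ↔ m (Equiv.swap p q x) = Equiv.swap p q y := by
    rw [sw_ap]
    constructor
    · intro h
      rw [← h]
      simp
    · intro h
      rw [h]
      simp
  have e2 : ∀ z, O ((m.sw p q) z) ↔ O (m (Equiv.swap p q z)) := by
    intro z
    constructor
    · intro h
      rw [sw_O hO sp sq z h] at h
      exact h
    · intro h
      rw [sw_O' hO sp sq z h]
      exact h
  rw [e1, e2, e2, (Equiv.swap p q).injective.eq_iff]

end Links

section Moves

variable {κ : Type*} [DecidableEq κ] {O S : κ → Prop} {pos : κ → ℤ} {ord : κ → ℤ} {m : St κ} {p q : κ}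

/-- exchange of two labels together with their positions -/
theorem Gd.relab {pos' : κ → ℤ} (h : Gd S pos O ord m) (hO : ∀ x, S x → ¬ O x) (sp : S p) (sq : S q)
    (hpos : ∀ x y, S x → S y → pos' x < pos' y → pos (Equiv.swap p q x) < pos (Equiv.swap p q y)) :
    Gd S pos' O ord (m.sw p q) := by
  have hSs : ∀ x, S x → S (Equiv.swap p q x) := by
    intro x hx
    rw [Equiv.swap_apply_def]
    split_ifs
    · exact sq
    · exact sp
    · exact hx
  refine ⟨h.nc.map (Equiv.swap p q) hSs hpos fun x y _ _ => Rl.sw' hO sp sq, ?_⟩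
  intro x y z hx hy hz ox oy oz h1 h2
  have ex := sw_O hO sp sq x ox
  have ey := sw_O hO sp sq y oy
  have ez := sw_O hO sp sq z oz
  rw [ex] at ox ⊢
  rw [ey] at oy ⊢
  rw [ez] at oz ⊢
  exact h.cy _ _ _ (hSs x hx) (hSs y hy) (hSs z hz) ox oy oz (hpos x y hx hy h1) (hpos y z hy hz h2)

theorem Gd.jn (h : Gd S pos O ord m) (hO : ∀ x, S x → ¬ O x) (sp : S p) (sq : S q) (hp : m p = p) (hq : m q = q)
    (hinj : ∀ x y, S x → S y → pos x = pos y → x = y)
    (hadj : ∀ x, S x → x ≠ p → x ≠ q → (pos x < pos p ↔ pos x < pos q)) : Gd S pos O ord (m.jn p q) := by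
  refine ⟨h.nc.cup hinj sp sq hadj (fun x y _ _ hxy e => Rl.jn_imp hp hq hO sp sq hxy e)
    fun x y _ _ e => Rl.jn_of hp hq hO sp sq e, ?_⟩
  have key : ∀ x, O ((m.jn p q) x) → (m.jn p q) x = m x := by
    intro x h
    rw [jn_ap hp hq] at h ⊢
    split_ifs at h ⊢
    · exact absurd h (hO q sq)
    · exact absurd h (hO p sp)
    · rfl
  intro x y z hx hy hz ox oy oz h1 h2
  have ex := key x ox
  have ey := key y oy
  have ez := key z oz
  rw [ex] at ox ⊢
  rw [ey] at oy ⊢
  rw [ez] at oz ⊢
  exact h.cy x y z hx hy hz ox oy oz h1 h2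

theorem Gd.hop (h : Gd S pos O ord m) (hO : ∀ x, S x → ¬ O x) (sp : S p) (sq : S q) (hpq : p ≠ q) (hp : m p = p)
    (hinj : ∀ x y, S x → S y → pos x = pos y → x = y)
    (hadj : ∀ x, S x → x ≠ p → x ≠ q → (pos x < pos p ↔ pos x < pos q)) : Gd S pos O ord (m.sw p q) := by
  refine ⟨h.nc.hop hinj sq hadj (fun x y _ _ e hxy => Rl.sw_ne hp hO sp sq hpq hxy e)
    fun x y hx hy h1 h2 => Rl.sw_iff hp hO sp sq hx hy hpq h1 h2, ?_⟩
  have key : ∀ x, O ((m.sw p q) x) → x ≠ q ∧ (m.sw p q) x = m (if x = p then q else x) := by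
    intro x h
    have e := sw_O hO sp sq x h
    have nq : x ≠ q := by
      rintro rfl
      rw [e, Equiv.swap_apply_right, hp] at h
      exact hO p sp h
    refine ⟨nq, ?_⟩
    rw [e, Equiv.swap_apply_def]
    by_cases h1 : x = p
    · rw [if_pos h1, if_pos h1]
    · rw [if_neg h1, if_neg nq, if_neg h1]
  have hS : ∀ x, S x → S (if x = p then q else x) := by
    intro x hx
    split_ifs
    · exact sq
    · exact hx
  intro x y z hx hy hz ox oy oz h1 h2
  obtain ⟨nx, ex⟩ := key x ox
  obtain ⟨ny, ey⟩ := key y oy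
  obtain ⟨nz, ez⟩ := key z oz
  rw [ex] at ox ⊢
  rw [ey] at oy ⊢
  rw [ez] at oz ⊢
  exact h.cy _ _ _ (hS x hx) (hS y hy) (hS z hz) ox oy oz (hop_mono hinj sq hadj x y hx hy nx ny h1)
    (hop_mono hinj sq hadj y z hy hz ny nz h2)

/-- cyclic order after a cap of a through-leg `p` with an arc `q - v` -/
theorem Cyo.cap (h : Gd S pos O ord m) (hO : ∀ x, S x → ¬ O x) (sp : S p) (sq : S q) (hpq : p ≠ q)
    (op : O (m p)) (hq : m q ≠ q) (oq : ¬ O (m q))
    (hinj : ∀ x y, S x → S y → pos x = pos y → x = y)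
    (hadj : ∀ x, S x → x ≠ p → x ≠ q → (pos x < pos p ↔ pos x < pos q)) : Cyo S pos O ord (m.cp p q) := by
  have hp : m p ≠ p := fun e => hO p sp (e ▸ op)
  have hsym : ∀ x y, Rl O m x y → Rl O m y x := fun _ _ e => e.symm
  have htr : ∀ x y z, S x → S y → S z → Rl O m x y → Rl O m y z → Rl O m x z :=
    fun _ _ _ hx hy hz e1 e2 => Rl.trans hO hx hy hz e1 e2
  have nr : ¬ Rl O m p q := by
    rintro (e | e | e)
    · exact hpq e
    · exact hO q sq (e ▸ op)
    · exact oq e.2
  -- the through-sites of the new state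
  have key : ∀ x, S x → O ((m.cp p q) x) → x ≠ p ∧ x ≠ q ∧
      ((x ≠ m q ∧ O (m x) ∧ (m.cp p q) x = m x) ∨ (x = m q ∧ (m.cp p q) x = m p)) := by
    intro x hx h
    have ox := hO x hx
    have o1 := hO p sp
    have o2 := hO q sq
    have i1 := m.inv p
    have i2 := m.inv q
    have i3 := m.inv x
    rw [cp_ap hp hq] at h ⊢
    grind (splits := 60)
  -- old through-sites are not separated from `p` by the arc
  have sepx : ∀ x, S x → S (m q) → x ≠ p → x ≠ q → x ≠ m q → O (m x) →
      (((pos q < pos x ∧ pos x < pos (m q)) ∨ (pos (m q) < pos x ∧ pos x < pos q)) ↔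
      ((pos q < pos p ∧ pos p < pos (m q)) ∨ (pos (m q) < pos p ∧ pos p < pos q))) := by
    intro x hx sv n1 n2 n3 ox
    have hpv : p ≠ m q := by
      intro e
      have : m p = q := by rw [e, m.inv]
      exact hO q sq (this ▸ op)
    exact h.nc.sep hsym htr sp hx sq sv (Or.inr (Or.inr ⟨op, ox⟩)) (Or.inr (Or.inl rfl)) nr
      (fun e => hpq (hinj _ _ sp sq e)) (fun e => hpv (hinj _ _ sp sv e)) (fun e => n2 (hinj _ _ hx sq e))
      (fun e => n3 (hinj _ _ hx sv e))
  intro x y z hx hy hz ox oy oz h1 h2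
  obtain ⟨x1, x2, kx⟩ := key x hx ox
  obtain ⟨y1, y2, ky⟩ := key y hy oy
  obtain ⟨z1, z2, kz⟩ := key z hz oz
  have ax := hadj x hx x1 x2
  have ay := hadj y hy y1 y2
  have az := hadj z hz z1 z2
  have px : pos p ≠ pos x := fun e => x1 (hinj _ _ sp hx e).symm
  have py : pos p ≠ pos y := fun e => y1 (hinj _ _ sp hy e).symm
  have pz : pos p ≠ pos z := fun e => z1 (hinj _ _ sp hz e).symm
  have qx : pos q ≠ pos x := fun e => x2 (hinj _ _ sq hx e).symm
  have qy : pos q ≠ pos y := fun e => y2 (hinj _ _ sq hy e).symm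
  have qz : pos q ≠ pos z := fun e => z2 (hinj _ _ sq hz e).symm
  rcases kx with ⟨vx, ox', ex⟩ | ⟨vx, ex⟩
  · rcases ky with ⟨vy, oy', ey⟩ | ⟨vy, ey⟩
    · rcases kz with ⟨vz, oz', ez⟩ | ⟨vz, ez⟩
      · rw [ex, ey, ez]
        exact h.cy x y z hx hy hz ox' oy' oz' h1 h2
      · -- z = v
        have sv : S (m q) := vz ▸ hz
        have fx := sepx x hx sv x1 x2 vx ox'
        have fy := sepx y hy sv y1 y2 vy oy'
        rw [← vz] at fx fy
        rw [ex, ey, ez]
        by_cases t : pos y < pos p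
        · exact h.cy x y p hx hy sp ox' oy' op h1 t
        · have t' : pos p < pos x := by omega
          have c := h.cy p x y sp hx hy op ox' oy' t' h1
          unfold Cyc at c ⊢
          omega
    · -- y = v
      rcases kz with ⟨vz, oz', ez⟩ | ⟨vz, ez⟩
      · have sv : S (m q) := vy ▸ hy
        have fx := sepx x hx sv x1 x2 vx ox'
        have fz := sepx z hz sv z1 z2 vz oz'
        rw [← vy] at fx fz
        rw [ex, ey, ez]
        exact h.cy x p z hx sp hz ox' op oz' (by omega) (by omega)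
      · exfalso
        have e : y = z := vy.trans vz.symm
        rw [e] at h2
        exact lt_irrefl _ h2
  · -- x = v
    rcases ky with ⟨vy, oy', ey⟩ | ⟨vy, ey⟩
    · rcases kz with ⟨vz, oz', ez⟩ | ⟨vz, ez⟩
      · have sv : S (m q) := vx ▸ hx
        have fy := sepx y hy sv y1 y2 vy oy'
        have fz := sepx z hz sv z1 z2 vz oz'
        rw [← vx] at fy fz
        rw [ex, ey, ez]
        by_cases t : pos p < pos y
        · exact h.cy p y z sp hy hz op oy' oz' t h2
        · have t' : pos z < pos p := by omega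
          have c := h.cy y z p hy hz sp oy' oz' op h2 t'
          unfold Cyc at c ⊢
          omega
      · exfalso
        have e : x = z := vx.trans vz.symm
        rw [e] at h1
        omega
    · exfalso
      have e : x = y := vx.trans vy.symm
      rw [e] at h1
      exact lt_irrefl _ h1

theorem Gd.cp (h : Gd S pos O ord m) (hO : ∀ x, S x → ¬ O x) (sp : S p) (sq : S q) (hpq : p ≠ q)
    (hp : m p ≠ p) (hq : m q ≠ q) (hinj : ∀ x y, S x → S y → pos x = pos y → x = y)
    (hadj : ∀ x, S x → x ≠ p → x ≠ q → (pos x < pos p ↔ pos x < pos q)) : Gd S pos O ord (m.cp p q) := by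
  refine ⟨h.nc.cap (fun _ _ e => e.symm) (fun _ _ _ hx hy hz e1 e2 => Rl.trans hO hx hy hz e1 e2) sp sq hinj hadj
    (fun x y hx hy e hxy => Rl.cp_ne hp hq hO sp sq hx hy e hxy)
    fun x y hx hy h1 h2 h3 h4 => Rl.cp_iff hp hq hO sp sq hx hy hpq h1 h2 h3 h4, ?_⟩
  by_cases op : O (m p)
  · by_cases oq : O (m q)
    · have key : ∀ x, S x → O ((m.cp p q) x) → (m.cp p q) x = m x := by
        intro x hx h
        have ox := hO x hx
        have o1 := hO p sp
        have o2 := hO q sq
        rw [cp_ap hp hq] at h ⊢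
        grind (splits := 60)
      intro x y z hx hy hz ox oy oz h1 h2
      have ex := key x hx ox
      have ey := key y hy oy
      have ez := key z hz oz
      rw [ex] at ox ⊢
      rw [ey] at oy ⊢
      rw [ez] at oz ⊢
      exact h.cy x y z hx hy hz ox oy oz h1 h2
    · exact Cyo.cap h hO sp sq hpq op hq oq hinj hadj
  · by_cases oq : O (m q)
    · have e : m.cp p q = m.cp q p := cp_comm' hp hq
      rw [e]
      exact Cyo.cap h hO sq sp hpq.symm oq hp op hinj fun x hx h1 h2 => (hadj x hx h2 h1).symm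
    · have key : ∀ x, O ((m.cp p q) x) → (m.cp p q) x = m x := by
        intro x h
        have o1 := hO p sp
        have o2 := hO q sq
        rw [cp_ap hp hq] at h ⊢
        grind (splits := 60)
      intro x y z hx hy hz ox oy oz h1 h2
      have ex := key x ox
      have ey := key y oy
      have ez := key z oz
      rw [ex] at ox ⊢
      rw [ey] at oy ⊢
      rw [ez] at oz ⊢
      exact h.cy x y z hx hy hz ox oy oz h1 h2

/-- The R-operator of two neighbouring lines `p`, `q` (which exchanges them). -/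
theorem Rt_gd {pos' : κ → ℤ} (hO : ∀ x, S x → ¬ O x) (hpq : p ≠ q) (sp : S p) (sq : S q)
    (hinj : ∀ x y, S x → S y → pos x = pos y → x = y)
    (hadj : ∀ x, S x → x ≠ p → x ≠ q → (pos x < pos p ↔ pos x < pos q))
    (hpos : ∀ x y, S x → S y → pos' x < pos' y → pos (Equiv.swap p q x) < pos (Equiv.swap p q y))
    (w : ℂ) (G : St κ → ℂ) (hG : ∀ M, Gd S pos' O ord M → G M = 0) (M : St κ)
    (hM : Gd S pos O ord M) : Rt p q w G M = 0 := by
  have relab : ∀ N : St κ, Gd S pos O ord N → G (N.sw p q) = 0 := fun N hN =>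
    hG _ (hN.relab hO sp sq hpos)
  have relab' : ∀ N : St κ, N.sw p q = N → Gd S pos O ord N → G N = 0 := by
    intro N e hN
    rw [← e]
    exact relab N hN
  have hadj' : ∀ x, S x → x ≠ q → x ≠ p → (pos x < pos q ↔ pos x < pos p) := fun x hx h1 h2 =>
    (hadj x hx h2 h1).symm
  have hop : (M p = p ∨ M q = q) → G M = 0 := by
    intro h
    have h1 : Gd S pos O ord (M.sw p q) := by
      rcases h with h | h
      · exact hM.hop hO sp sq hpq h hinj hadj
      · rw [sw_comm']
        exact hM.hop hO sq sp hpq.symm h hinj hadj'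
    have h2 := relab _ h1
    rwa [sw_sw'] at h2
  by_cases hp : M p = p
  · by_cases hq : M q = q
    · rw [AY.Rt_ee hp hq rfl, hop (Or.inl hp), relab' (M.jn p q)
        (sw_joined (by rw [jn_ap hp hq]; simp)) (hM.jn hO sp sq hp hq hinj hadj)]
      ring
    · rw [AY.Rt_eo hp hq rfl, hop (Or.inl hp), relab M hM]
      ring
  · by_cases hq : M q = q
    · rw [AY.Rt_oe hp hq rfl, hop (Or.inr hq), relab M hM]
      ring
    · by_cases h : M p = q
      · rw [AY.Rt_jj hp hq h, relab' M (sw_joined h) hM]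
        ring
      · have c1 : (M.cp p q) p = p := cp_p hp hq
        have c2 : (M.cp p q) q = q := cp_q hp hq
        have hc : Gd S pos O ord (M.cp p q) := hM.cp hO sp sq hpq hp hq hinj hadj
        rw [AY.Rt_oo hp hq h rfl rfl rfl, relab M hM, relab' _ (sw_fix2 c1 c2) hc,
          relab' ((M.cp p q).jn p q) (sw_joined (by rw [jn_ap c1 c2]; simp))
            (hc.jn hO sp sq c1 c2 hinj hadj)]
        ring

/-- Rotation. -/
theorem Gd.rot {pos' : κ → ℤ} {z : κ} (h : Gd S pos O ord m) (hO : ∀ x, S x → ¬ O x)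
    (hz : ∀ x, S x → x ≠ z → pos x < pos z ∧ pos' z < pos' x)
    (ho : ∀ x y, S x → S y → x ≠ z → y ≠ z → pos' x < pos' y → pos x < pos y) : Gd S pos' O ord m := by
  refine ⟨h.nc.rot (fun _ _ e => e.symm) (fun _ _ _ hx hy hz e1 e2 => Rl.trans hO hx hy hz e1 e2) hz ho, ?_⟩
  intro a b c ha hb hc oa ob oc h1 h2
  have nb : b ≠ z := by rintro rfl; by_cases e : a = b; (subst e; omega); have := (hz a ha e).2; omega
  have nc : c ≠ z := by rintro rfl; by_cases e : b = c; (subst e; omega); have := (hz b hb e).2; omega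
  have g2 := ho b c hb hc nb nc h2
  by_cases e : a = z
  · subst e
    have c' := h.cy b c a hb hc ha ob oc oa g2 (hz c hc nc).1
    unfold Cyc at c' ⊢
    omega
  · exact h.cy a b c ha hb hc oa ob oc (ho a b ha hb e nb h1) g2

end Moves

section Trans

variable {ι : Type*} [DecidableEq ι] {O S : ι → Prop} {ps : ι → ℤ} {ord : ι → ℤ}

/-- The auxiliary line passes the lines of the list `l`. -/
theorem Fo_gd (hS : ∀ x, S x → ¬ O x) (hinj : ∀ x y, S x → S y → ps x = ps y → x = y)
    (hev : ∀ x, S x → ps x % 2 = 0) (hnn : ∀ x, S x → 0 ≤ ps x) (v : ℂ) (U : ι → ℂ)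
    (G : St (Option (Option ι)) → ℂ) (ord' : Option (Option ι) → ℤ) (l : List ι) (z : ℤ)
    (hz0 : -1 ≤ z) (hz : z % 2 = 1) (hl : ∀ (j : ℕ) (h : j < l.length), S l[j] ∧ ps l[j] = z + 1 + 2 * j)
    (hG : ∀ M, Gd (Sx S) (psx ps (z + 2 * l.length) (-2)) (Ox O) ord' M → G M = 0)
    (M : St (Option (Option ι))) (hM : Gd (Sx S) (psx ps z (-2)) (Ox O) ord' M) : Fo l v U G M = 0 := by
  induction l generalizing z M with
  | nil =>
    refine hG M ?_
    simpa using hM
  | cons i l ih =>
    rw [Fo_cons]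
    have hi := hl 0 (by simp)
    simp only [List.getElem_cons_zero] at hi
    obtain ⟨si, pi⟩ := hi
    have ih' := ih (z + 2) (by omega) (by omega) (by
      intro j hj
      have h1 := hl (j + 1) (by simpa using hj)
      simp only [List.getElem_cons_succ] at h1
      refine ⟨h1.1, ?_⟩
      rw [h1.2]
      push_cast
      ring) (by
      intro N hN
      refine hG N ?_
      have e : z + 2 * ((i :: l).length : ℤ) = z + 2 + 2 * (l.length : ℤ) := by
        rw [List.length_cons]
        push_cast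
        ring
      rw [e]
      exact hN)
    have hpi : ps i = z + 1 := by rw [pi]; simp
    refine Rt_gd (S := Sx S) (O := Ox O) (pos := psx ps z (-2)) (pos' := psx ps (z + 2) (-2))
      (Sx_not_Ox hS) (ax_ne i) trivial si ?_ ?_ ?_ _ _ ih' M hM
    · rintro (_ | _ | x) (_ | _ | y) hx hy h
      · rfl
      · have h' : z = -2 := h
        omega
      · have := hev y hy
        have h' : z = ps y := h
        omega
      · have h' : -2 = z := h
        omega
      · rfl
      · have := hnn y hy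
        have h' : -2 = ps y := h
        omega
      · have := hev x hx
        have h' : ps x = z := h
        omega
      · have := hnn x hx
        have h' : ps x = -2 := h
        omega
      · rw [hinj x y hx hy h]
    · rintro (_ | _ | x) hx h1 h2
      · exact absurd rfl h1
      · show (-2 : ℤ) < z ↔ (-2 : ℤ) < ps i
        omega
      · show ps x < z ↔ ps x < ps i
        have := hev x hx
        omega
    · have hsw : ∀ x, Sx S x → psx ps z (-2) (Equiv.swap ax (lb i) x) =
          (if x = ax then z + 1 else if x = lb i then z else psx ps z (-2) x) := by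
        intro x hx
        rw [Equiv.swap_apply_def]
        by_cases h1 : x = ax
        · rw [if_pos h1, if_pos h1]
          exact hpi
        · rw [if_neg h1, if_neg h1]
          by_cases h2 : x = lb i
          · rw [if_pos h2, if_pos h2]
            rfl
          · rw [if_neg h2, if_neg h2]
      have hval : ∀ x, Sx S x → psx ps (z + 2) (-2) x =
          (if x = ax then z + 2 else if x = lb i then z + 1 else psx ps z (-2) x) := by
        intro x hx
        by_cases h1 : x = ax
        · rw [if_pos h1]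
          subst h1
          rfl
        · rw [if_neg h1]
          by_cases h2 : x = lb i
          · rw [if_pos h2]
            subst h2
            exact hpi
          · rw [if_neg h2]
            rcases x with _ | _ | x
            · exact absurd rfl h1
            · rfl
            · rfl
      have hoth : ∀ x, Sx S x → x ≠ ax → x ≠ lb i → psx ps z (-2) x % 2 = 0 ∧ psx ps z (-2) x ≠ z + 1 := by
        rintro (_ | _ | x) hx h1 h2
        · exact absurd rfl h1
        · constructor
          · rfl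
          · show (-2 : ℤ) ≠ z + 1
            omega
        · refine ⟨hev x hx, ?_⟩
          intro e
          apply h2
          have : x = i := hinj x i hx si ((e : ps x = z + 1).trans hpi.symm)
          rw [this]
          rfl
      intro x y hx hy h
      rw [hsw x hx, hsw y hy]
      rw [hval x hx, hval y hy] at h
      have ox := hoth x hx
      have oy := hoth y hy
      by_cases x1 : x = ax
      · rw [if_pos x1] at h ⊢
        by_cases y1 : y = ax
        · rw [if_pos y1] at h
          omega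
        · rw [if_neg y1] at h ⊢
          by_cases y2 : y = lb i
          · rw [if_pos y2] at h
            omega
          · rw [if_neg y2] at h ⊢
            have := oy y1 y2
            omega
      · rw [if_neg x1] at h ⊢
        by_cases x2 : x = lb i
        · rw [if_pos x2] at h ⊢
          by_cases y1 : y = ax
          · rw [if_pos y1]
            omega
          · rw [if_neg y1] at h ⊢
            by_cases y2 : y = lb i
            · rw [if_pos y2] at h
              omega
            · rw [if_neg y2] at h ⊢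
              have := oy y1 y2
              omega
        · rw [if_neg x2] at h ⊢
          have := ox x1 x2
          by_cases y1 : y = ax
          · rw [if_pos y1] at h ⊢
            omega
          · rw [if_neg y1] at h ⊢
            by_cases y2 : y = lb i
            · rw [if_pos y2] at h ⊢
              omega
            · rw [if_neg y2] at h ⊢
              exact h

/-- order of the points at infinity on the extended labels -/
def ordx (ord : ι → ℤ) : Option (Option ι) → ℤ
  | none => 0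
  | some none => 0
  | some (some i) => ord i

omit [DecidableEq ι] in
theorem Rl_ext0 {m : St ι} {i j : ι} : Rl (Ox O) (ext0 m) (lb i) (lb j) ↔ Rl O m i j := by
  unfold Rl
  have e1 : (lb i : Option (Option ι)) = lb j ↔ i = j := ⟨fun e => lb_inj e, fun e => by rw [e]⟩
  have e2 : ∀ k, (ext0 m) (lb k) = lb (m k) := fun k => rfl
  have e3 : ∀ k, Ox O (lb k) ↔ O k := fun k => Iff.rfl
  have e4 : (lb (m i) : Option (Option ι)) = lb j ↔ m i = j := ⟨fun e => lb_inj e, fun e => by rw [e]⟩
  rw [e1, e2, e2, e3, e3, e4]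

omit [DecidableEq ι] in
theorem ext0_Rl {m : St ι} {x y : Option (Option ι)} (h : Rl (Ox O) (ext0 m) x y) (hxy : x ≠ y) :
    ∃ i j, x = lb i ∧ y = lb j := by
  rcases h with h | h | h
  · exact absurd h hxy
  · rcases x with _ | _ | i
    · exact absurd h hxy
    · exact absurd h hxy
    · exact ⟨i, m i, rfl, h.symm⟩
  · rcases x with _ | _ | i
    · exact absurd h.1 id
    · exact absurd h.1 id
    · rcases y with _ | _ | j
      · exact absurd h.2 id
      · exact absurd h.2 id
      · exact ⟨i, j, rfl, rfl⟩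

omit [DecidableEq ι] in
theorem ext0_gd {m : St ι} (z z' : ℤ) (h : Gd S ps O ord m) :
    Gd (Sx S) (psx ps z z') (Ox O) (ordx ord) (ext0 m) := by
  constructor
  · intro a b c d ha hb hc hd h1 h2 h3 e1 e2
    obtain ⟨a, c, rfl, rfl⟩ := ext0_Rl e1 (by rintro rfl; omega)
    obtain ⟨b, d, rfl, rfl⟩ := ext0_Rl e2 (by rintro rfl; omega)
    rw [Rl_ext0] at e1 e2 ⊢
    exact h.nc a b c d ha hb hc hd h1 h2 h3 e1 e2
  · rintro (_ | _ | x) (_ | _ | y) (_ | _ | t) hx hy hz ox oy oz h1 h2
    all_goals first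
      | exact absurd ox id
      | exact absurd oy id
      | exact absurd oz id
      | exact h.cy x y t hx hy hz ox oy oz h1 h2

omit [DecidableEq ι] in
theorem gd_ext0 {m : St ι} {z z' : ℤ} (h : Gd (Sx S) (psx ps z z') (Ox O) (ordx ord) (ext0 m)) :
    Gd S ps O ord m := by
  constructor
  · exact h.nc.map lb (fun _ hx => hx) (fun _ _ _ _ h => h) fun _ _ _ _ => Rl_ext0.symm
  · intro x y t hx hy hz ox oy oz h1 h2
    exact h.cy (lb x) (lb y) (lb t) hx hy hz ox oy oz h1 h2

/-- **Planarity of the transfer matrix, any number of legs.** -/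
theorem Tt_gd [Fintype ι] (hS : ∀ x, S x → ¬ O x) (hinj : ∀ x y, S x → S y → ps x = ps y → x = y)
    (hev : ∀ x, S x → ps x % 2 = 0) (hnn : ∀ x, S x → 0 ≤ ps x) (l : List ι)
    (hb : ∀ x, S x → ps x < 2 * l.length) (hl : ∀ (j : ℕ) (h : j < l.length), S l[j] ∧ ps l[j] = 2 * j)
    (v : ℂ) (U : ι → ℂ) (F : St ι → ℂ) (hF : ∀ m, Gd S ps O ord m → F m = 0) (m : St ι)
    (hm : Gd S ps O ord m) : Tt l v U F m = 0 := by
  have hne : (ax : Option (Option ι)) ≠ ax' := ax_ne_ax'
  have hcap : ∀ M, Gd (Sx S) (psx ps (-1 + 2 * l.length) (-2)) (Ox O) (ordx ord) M → capF F M = 0 := by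
    intro M hM
    unfold capF
    by_cases h1 : M ax = ax
    · rw [if_pos h1]
      by_cases h2 : M ax' = ax'
      · rw [if_pos h2]
        refine hF _ ?_
        refine gd_ext0 (z := -1 + 2 * l.length) (z' := -2) ?_
        rw [ext0_res M h1 h2]
        exact hM
      · rw [if_neg h2]
    · rw [if_neg h1]
      by_cases h2 : M ax' = ax'
      · rw [if_pos h2]
      · rw [if_neg h2]
        by_cases h3 : M ax = ax'
        · rw [if_pos h3]
        · rw [if_neg h3]
          have r1 : Gd (Sx S) (psx ps (-3) (-2)) (Ox O) (ordx ord) M := by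
            refine hM.rot (z := ax) (Sx_not_Ox hS) ?_ ?_
            · rintro (_ | _ | x) hx hxa
              · exact absurd rfl hxa
              · constructor
                · show (-2 : ℤ) < -1 + 2 * (l.length : ℤ)
                  omega
                · show (-3 : ℤ) < -2
                  omega
              · have g1 := hb x hx
                have g2 := hnn x hx
                have g3 := hev x hx
                constructor
                · show ps x < -1 + 2 * (l.length : ℤ)
                  omega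
                · show (-3 : ℤ) < ps x
                  omega
            · rintro (_ | _ | x) (_ | _ | y) hx hy hxa hya h
              all_goals first
                | exact absurd rfl hxa
                | exact absurd rfl hya
                | exact h
          have r2 : Gd (Sx S) (psx ps (-3) (-2)) (Ox O) (ordx ord) (M.cp ax ax') := by
            refine r1.cp (p := ax) (q := ax') (Sx_not_Ox hS) trivial trivial hne h1 h2
              (psx_inj hinj (by omega) (fun x hx => by have := hnn x hx; omega)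
                fun x hx => by have := hnn x hx; omega) ?_
            rintro (_ | _ | x) hx g1 g2
            · exact absurd rfl g1
            · exact absurd rfl g2
            · show ps x < -3 ↔ ps x < -2
              have := hnn x hx
              omega
          refine hF _ ?_
          refine gd_ext0 (z := -3) (z' := -2) ?_
          rw [ext0_res (M.cp ax ax') (cp_p h1 h2) (cp_q h1 h2)]
          exact r2
  have hFo : ∀ M, Gd (Sx S) (psx ps (-1) (-2)) (Ox O) (ordx ord) M → Fo l v U (capF F) M = 0 := by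
    intro M hM
    refine Fo_gd hS hinj hev hnn v U (capF F) (ordx ord) l (-1) le_rfl (by decide) ?_ hcap M hM
    intro j hj
    refine ⟨(hl j hj).1, ?_⟩
    rw [(hl j hj).2]
    ring
  rw [Tt_eq]
  unfold cupF
  have e0 : Gd (Sx S) (psx ps (-1) (-2)) (Ox O) (ordx ord) (ext0 m) := ext0_gd _ _ hm
  have e1 : Gd (Sx S) (psx ps (-1) (-2)) (Ox O) (ordx ord) (ext1 m) := by
    refine e0.jn (p := ax) (q := ax') (Sx_not_Ox hS) trivial trivial (ext0_ax m) (ext0_ax' m)
      (psx_inj hinj (by omega) (fun x hx => by have := hnn x hx; omega)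
      fun x hx => by have := hnn x hx; omega) ?_
    rintro (_ | _ | x) hx g1 g2
    · exact absurd rfl g1
    · exact absurd rfl g2
    · show ps x < -1 ↔ ps x < -2
      have := hnn x hx
      omega
  rw [hFo _ e0, hFo _ e1, add_zero]

end Trans

end Pool.Agent.CYL.Pg
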