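import Pool.Agent.CYL.N.FuD
import Pool.Agent.CYL.N.Fam
import Pool.Agent.CYL.P.Fus0

/-!
# CYL/N (all L): the fusion limit of the one pair family (`FusLim`)
-/

set_option linter.unusedVariables false

namespace Pool.Agent.CYL

open Pool.Agent.BEX Complex Filter Topology
open scoped ComplexOrder

variable {n l : ℕ}

/-- The fusion limit, for general families. -/
theorem fusN_of (hl : 1 ≤ l) (hl3 : l ≤ 3) (hn : l ≤ n) (hpla : Pla (n + 1) l)
    {psi : ℝ → Sts (n + 1) l → ℝ} {t : ℝ → ℂ → ℂ}
    (hI : ∀ w, 0 ≤ w → w < Real.pi / 8 → IsPsi (U1 n w) (psi w) (t w))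
    (hpos : ∀ w, 0 ≤ w → w < Real.pi / 8 → ∀ m, Cls m → 0 < psi w m)
    (hnn : ∀ w, Real.pi / 16 ≤ w → w < Real.pi / 8 → NnG (Tfl (l := l) (vsB n w) (U1 n w)))
    (psi0 : Sts n l → ℝ) (h1 : ∀ m, ¬ Cls m → psi0 m = 0) (h2 : ∑ m, psi0 m = 1)
    (hu : l < n → ∀ y : Sts n l → ℝ, (∀ m, 0 ≤ y m) → (∀ m, ¬ Cls m → y m = 0) → ∑ m, y m = 1 →
      (∃ τ : ℂ, ∀ F : Sts n l → ℂ, Sup F →
        ∑ m, (y m : ℂ) * Tf lam (fun _ => 0) F m = τ * ∑ m, (y m : ℂ) * F m) → y = psi0) :
    FusLim n l psi0 psi t := by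
  have hpi := Real.pi_pos
  have hn1 : 1 ≤ n := le_trans hl hn
  obtain ⟨ws, psis, a1, a2, a3, a4, a5⟩ := psi_subseq (continuous_U1 n) (a := Real.pi / 16) (b := Real.pi / 8)
    (by linarith) (psi := psi) (t := t) (fun w b1 b2 => hI w (by linarith) b2)
  obtain ⟨N, b1, b2⟩ := exists_diag1 hl hl3 hn
  set ts := tv (U1 n (Real.pi / 8)) psis with hts
  have he := a4.eig lam
  -- the eigenvalue is nonnegative
  have hch : ∑ m, (psis m : ℂ) * chF m = 1 := by
    have h6 : ∀ m, (psis m : ℂ) * (chF m) = ((psis m : ℝ) : ℂ) := by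
      intro m
      unfold chF
      split_ifs with hm
      · rw [mul_one]
      · rw [mul_zero, a4.supp m (fun hc => hm hc.1), Complex.ofReal_zero]
    rw [Finset.sum_congr rfl fun m _ => h6 m, ← Complex.ofReal_sum, a4.sum, Complex.ofReal_one]
  have hchS : Sup (chF : Sts (n + 1) l → ℂ) := fun m hm => if_neg hm
  have hchn : ∀ m : Sts (n + 1) l, 0 ≤ (chF m : ℂ) := by
    intro m
    unfold chF
    split_ifs
    · exact zero_le_one
    · exact le_rfl
  have hts0 : 0 ≤ ts lam := by
    have h3 := he chF hchS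
    rw [hch, mul_one] at h3
    rw [← h3]
    exact sum_real_mul _ _ _ a4.nonneg (Tl_nn hn1 hchn)
  -- it does not vanish
  have hne : ts lam ≠ 0 := by
    intro h0
    -- the product of the eigenvalues
    have c1 : Tendsto (fun k => ((vsB n (ws k)).map (t (ws k))).prod) atTop (𝓝 0) := by
      have e1 : ∀ k, ((vsB n (ws k)).map (t (ws k))).prod = t (ws k) lam ^ (n - 1) * t (ws k) (ws k : ℂ) := by
        intro k
        unfold vsB
        rw [List.map_append, List.prod_append, List.map_replicate, List.prod_replicate]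
        simp
      have e2 : Tendsto (fun k => t (ws k) lam) atTop (𝓝 (ts lam)) := a5 (fun _ => lam) continuous_const
      have e3 : Tendsto (fun k => t (ws k) (ws k : ℂ)) atTop (𝓝 (ts lam)) := by
        have := a5 (fun w => (w : ℂ)) Complex.continuous_ofReal
        rwa [lam_coe] at this
      have e4 := (e2.pow (n - 1)).mul e3
      rw [h0, mul_zero] at e4
      refine e4.congr fun k => (e1 k).symm
    have c2 : Tendsto (fun k => (((vsB n (ws k)).map (t (ws k))).prod).re) atTop (𝓝 0) := by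
      have := (Complex.continuous_re.tendsto 0).comp c1
      rw [zero_re] at this
      exact this
    -- the diagonal entry
    have c3 : Tendsto (fun k => (Tfl (vsB n (ws k)) (U1 n (ws k)) (Pi.single N 1) N).re) atTop
        (𝓝 (Tfl (vsB n (Real.pi / 8)) (U1 n (Real.pi / 8)) (Pi.single N 1) N).re) := by
      have d1 := continuous_Tfl_param (l := l)
        (fs := List.replicate (n - 1) (fun _ : ℝ => lam) ++ [fun w : ℝ => (w : ℂ)]) (U := U1 n)
        (by
          intro f hf
          rcases List.mem_append.1 hf with hf | hf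
          · rw [(List.mem_replicate.1 hf).2]
            exact continuous_const
          · rw [List.mem_singleton.1 hf]
            exact Complex.continuous_ofReal) (continuous_U1 n) (Pi.single N 1) N
      have d2 : ∀ w : ℝ, (List.replicate (n - 1) (fun _ : ℝ => lam) ++ [fun w : ℝ => (w : ℂ)]).map (fun f => f w) =
          vsB n w := by
        intro w
        unfold vsB
        rw [List.map_append, List.map_replicate]
        rfl
      simp only [d2] at d1
      have d3 := (Complex.continuous_re.comp d1).tendsto (Real.pi / 8)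
      exact d3.comp a2
    have c4 : ∀ k, (Tfl (vsB n (ws k)) (U1 n (ws k)) (Pi.single N 1) N).re ≤
        (((vsB n (ws k)).map (t (ws k))).prod).re := by
      intro k
      have d1 := hI (ws k) (by linarith [(a1 k).1]) (a1 k).2
      exact (IsPsi.ge_diagL hpla (hnn (ws k) (a1 k).1 (a1 k).2) d1 b1
        (hpos (ws k) (by linarith [(a1 k).1]) (a1 k).2 N b1)).2
    have c5 := le_of_tendsto_of_tendsto' c3 c2 c4
    have c6 := (Tfl_stay hn1 b2 (vsB n (Real.pi / 8)) (by
      intro v hv
      unfold vsB at hv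
      rcases List.mem_append.1 hv with hv | hv
      · exact (List.mem_replicate.1 hv).2
      · rw [List.mem_singleton.1 hv, lam_coe]) (F := Pi.single N 1) (fun M => single_nn N M)
      (by rw [Pi.single_eq_same]; exact zero_lt_one)).2
    have c7 := (Complex.lt_def.1 c6).1
    rw [zero_re] at c7
    linarith
  have hLam : 0 < ts lam := lt_of_le_of_ne hts0 (Ne.symm hne)
  have htre : 0 < (ts lam).re := by simpa using (Complex.lt_def.1 hLam).1
  have htim : (ts lam).im = 0 := by simpa using (Complex.lt_def.1 hLam).2.symm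
  -- the vector on `n` sites
  have hS : ∀ F : Sts (n + 1) l → ℂ, Sup F → ∑ m, (psis m : ℂ) * F m = ∑ m, (y1 psis m : ℂ) * D1 F m :=
    fun F hF => y1_sum hn1 hne he hF
  have hy0 : ∀ m, 0 ≤ y1 psis m := y1_nonneg a4.nonneg
  have hys : ∀ m, ¬ Cls m → y1 psis m = 0 := y1_supp a4.supp
  set Y : ℝ := ∑ m, y1 psis m with hY
  have hY0 : 0 ≤ Y := Finset.sum_nonneg fun m _ => hy0 m
  have hYpos : 0 < Y := by
    rcases hY0.lt_or_eq with h | h
    · exact h
    · exfalso
      have h3 : ∀ m, y1 psis m = 0 := fun m =>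
        (Finset.sum_eq_zero_iff_of_nonneg fun m _ => hy0 m).1 h.symm m (Finset.mem_univ m)
      have h4 := hS chF hchS
      rw [hch, Finset.sum_eq_zero (s := Finset.univ) (f := fun m' => (y1 psis m' : ℂ) * D1 chF m')
        (fun m _ => by rw [h3 m]; simp)] at h4
      exact one_ne_zero h4
  have hYne : (Y : ℂ) ≠ 0 := by exact_mod_cast hYpos.ne'
  have hid : ∀ u : ℂ, ∑ m, (y1 psis m : ℂ) * Os (fun _ => 0) u m = (Y : ℂ) * qf (fun _ => 0) psi0 u := by
    intro u
    rcases hn.lt_or_eq with hlp | hlp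
    · have h3 := hu hlp (fun m => y1 psis m / Y) (fun m => div_nonneg (hy0 m) hY0)
        (fun m hm => by rw [hys m hm, zero_div]) (by rw [← Finset.sum_div, ← hY, div_self hYpos.ne'])
        ⟨ts lam / (sin (2 * lam) * sin (3 * lam)), fun F hF => by
          have h4 := y1_hom hn1 (hpla.sup _ _) hne he hF
          have h5 : ∀ G : Sts n l → ℂ, ∑ m, ((y1 psis m / Y : ℝ) : ℂ) * G m =
              (1 / (Y : ℂ)) * ∑ m, (y1 psis m : ℂ) * G m := by
            intro G
            rw [Finset.mul_sum]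
            refine Finset.sum_congr rfl fun m _ => ?_
            push_cast
            ring
          rw [h5, h5, h4]
          ring⟩
      unfold qf
      rw [← h3, Finset.mul_sum]
      refine Finset.sum_congr rfl fun m _ => ?_
      push_cast
      field_simp
    · subst hlp
      have h3 := qf_full hys u
      unfold qf at h3
      rw [h3, qf_full h1 u, ← Complex.ofReal_sum, ← Complex.ofReal_sum, ← hY, h2]
      push_cast
      ring
  refine ⟨ws, psis, ts, Y, hYpos, fun k => ⟨le_trans (by positivity) (a1 k).1, (a1 k).2⟩, a2, a3, a4,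
    fun v => a5 (fun _ => v) continuous_const, ⟨htre, htim⟩, fun u => ?_⟩
  have h3 := hS (Os (U1 n (Real.pi / 8)) u) (fun m hm => if_neg hm)
  unfold qf at h3 ⊢
  have h4 : ∑ m, (y1 psis m : ℂ) * D1 (Os (U1 n (Real.pi / 8)) u) m =
      sin u * ∑ m, (y1 psis m : ℂ) * Os (fun _ => 0) u m := by
    rw [Finset.mul_sum]
    refine Finset.sum_congr rfl fun m _ => ?_
    rw [D1_Os hn1]
    ring
  rw [h3, h4, hid]
  unfold qf
  ring

/-- The fusion limit of the family `psiN`, `tN` (`l = 1, 2`). -/
theorem fusN (hl : l = 1 ∨ l = 2) (hn : l ≤ n) (h : FamPrimN n l)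
    (hZ : l < n → RealPrim l lam (fun _ : Fin n => 0))
    (psi0 : Sts n l → ℝ) (h1 : ∀ m, ¬ Cls m → psi0 m = 0) (h2 : ∑ m, psi0 m = 1)
    (h3 : l < n → ∃ t, IsPsi (fun _ : Fin n => 0) psi0 t) : FusLim n l psi0 (psiN n l) (tN n l) := by
  have hl1 : 1 ≤ l := by omega
  have hl2 : l ≤ 2 := by omega
  have : Nonempty (Kc (n + 1) l) := nonempty_Kc (by omega) (by omega)
  have hpla : Pla (n + 1) l := pla hl2
  refine fusN_of hl1 (by omega) hn hpla (fun w a b => isPsi_psiN hpla (comm (n + 1) l) h a b)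
    (fun w a b m hm => psiN_pos h a b hm) (fun w a b => (h.hi w a b).nn) psi0 h1 h2 ?_
  intro hlp y y0 y1 y2 ⟨s, hs⟩
  have : Nonempty (Kc n l) := nonempty_Kc hn (by omega)
  have hplp : Pla n l := pla hl2
  have e1 := (psiOf_unique hplp (hZ hlp) y0 y1 y2 hs).1
  obtain ⟨t, ht⟩ := h3 hlp
  rw [e1, (ht.eq_psiOf hplp (hZ hlp)).1]

end Pool.Agent.CYL
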