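import Pool.Agent.CYL.B.IfTP
import Pool.Agent.CYL.B.Iface
import Pool.Agent.CYL.BG.Def
import Pool.Agent.CYL.N.Def

/-!
CYL for all `L`: the interface `Family1` + `TQ` => `GData`, `GLim` (any `l ≥ 1`).
-/

namespace Pool.Agent.CYL

open Complex Finset Filter Topology
open Pool.Agent.BEX Pool.Agent.CYL.B Pool.Agent.CYL.BG

private theorem IfN_bb_ne_zero : bb ≠ 0 := by
  have hs : 0 < Real.sin (Real.pi / 8) :=
    Real.sin_pos_of_pos_of_lt_pi (by positivity) (by linarith [Real.pi_pos])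
  have h2 : (0 : ℝ) < Real.sqrt 2 := by positivity
  unfold bb
  rw [Ne, Complex.ofReal_eq_zero]
  exact (Real.sqrt_pos.2 (by positivity)).ne'

/-- `q` is a trigonometric polynomial of degree exactly `L - l`. -/
theorem qf_tp_gen {L l : ℕ} (U : Fin L → ℂ)
    (hpos : ∀ m : Sts L l, Arcless m → 0 < (∏ i ∈ emps m, exp (-(I * U i))).re)
    (psi : Sts L l → ℝ) (h0 : ∀ m, 0 ≤ psi m)
    (hsupp : ∀ m, ¬ Chi m → psi m = 0) (harc : ∃ m, Arcless m ∧ 0 < psi m) :
    ∃ c : ℕ → ℂ, c (L - l) ≠ 0 ∧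
      ∀ u, qf U psi u = tp (L - l) c u := by
  classical
  set K : ℂ := bb ^ l * (1 / (2 * I)) ^ (L - l) with hK
  set ph : Sts L l → ℂ := fun m => ∏ i ∈ emps m, exp (-(I * U i)) with hph
  have key : ∀ m : Sts L l, TPc (L - l) (fun u => (psi m : ℂ) * Os U u m)
      (if Arcless m then K * ((psi m : ℂ) * ph m) else 0) := by
    intro m
    by_cases hm : Chi m
    · obtain ⟨k, hk, hk0⟩ := emps_card hm
      have h1 := TPc_prod_sin (emps m) (fun i => U i)
      have h2 := TPc_smul ((psi m : ℂ) * bb ^ (L - (emps m).card)) h1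
      have e1 : (fun u => (psi m : ℂ) * Os U u m) =
          fun u => (psi m : ℂ) * bb ^ (L - (emps m).card) * ∏ i ∈ emps m, sin (u - U i) := by
        funext u
        rw [Os_eq hm, mul_assoc]
      rw [e1]
      by_cases hk' : k = 0
      · have hA := hk0.1 hk'
        subst hk'
        have e2 : (emps m).card = L - l := by omega
        have e3 : L - (emps m).card = l := by omega
        rw [if_pos hA]
        rw [e3] at h2 ⊢
        have e4 : ∏ i ∈ emps m, (exp (-(I * U i)) / (2 * I)) = (1 / (2 * I)) ^ (L - l) * ph m := by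
          rw [← e2, hph]
          simp only [div_eq_mul_inv, one_mul, Finset.prod_mul_distrib, Finset.prod_const]
          ring
        rw [e2, e4] at h2
        have e5 : K * ((psi m : ℂ) * ph m) = (psi m : ℂ) * bb ^ l * ((1 / (2 * I)) ^ (L - l) * ph m) := by
          rw [hK]; ring
        rw [e5]
        exact h2
      · have hA : ¬ Arcless m := fun h => hk' (hk0.2 h)
        rw [if_neg hA]
        have h3 := TPc_lift h2 k (Nat.pos_of_ne_zero hk')
        have e2 : (emps m).card + 2 * k = L - l := by omega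
        rw [e2] at h3
        exact h3
    · have hA : ¬ Arcless m := fun h => hm h.1
      rw [if_neg hA]
      refine ⟨fun _ => 0, rfl, fun u => ?_⟩
      rw [hsupp m hm]
      simp [tp]
  have hsum := TPc_sum (Finset.univ : Finset (Sts L l)) (fun m _ => key m)
  obtain ⟨c, hc1, hc2⟩ := hsum
  refine ⟨c, ?_, fun u => by rw [← hc2 u]; rfl⟩
  rw [hc1]
  have e6 : (∑ m : Sts L l, if Arcless m then K * ((psi m : ℂ) * ph m) else 0) =
      K * ∑ m : Sts L l, if Arcless m then ((psi m : ℂ) * ph m) else 0 := by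
    rw [Finset.mul_sum]
    refine Finset.sum_congr rfl fun m _ => ?_
    split_ifs <;> simp
  rw [e6]
  have hK0 : K ≠ 0 := by
    rw [hK]
    exact mul_ne_zero (pow_ne_zero _ IfN_bb_ne_zero) (pow_ne_zero _ (by simp [Complex.I_ne_zero]))
  refine mul_ne_zero hK0 ?_
  intro h
  have h4 := congrArg Complex.re h
  rw [Complex.re_sum, Complex.zero_re] at h4
  have h5 : 0 < ∑ m : Sts L l, (if Arcless m then ((psi m : ℂ) * ph m) else 0 : ℂ).re := by
    apply Finset.sum_pos'
    · intro m _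
      split_ifs with hm
      · rw [Complex.re_ofReal_mul]
        exact mul_nonneg (h0 m) (hpos m hm).le
      · simp
    · obtain ⟨m, hm, hm'⟩ := harc
      refine ⟨m, Finset.mem_univ m, ?_⟩
      rw [if_pos hm, Complex.re_ofReal_mul]
      exact mul_pos hm' (hpos m hm)
  linarith



/-! ### the rapidities `U1` -/

theorem prod_U1 {n : ℕ} (hn : 1 ≤ n) (w : ℝ) (g : ℂ → ℂ) :
    ∏ i, g (U1 n w i) = (g w * g (-w)) ^ 1 * g 0 ^ (n - 1) := by
  obtain ⟨k, rfl⟩ := Nat.exists_eq_add_of_le' hn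
  rw [Fin.prod_univ_succ, Fin.prod_univ_castSucc]
  have h0 : U1 (k + 1) w 0 = w := by simp [U1]
  have h1 : U1 (k + 1) w (Fin.last k).succ = -w := by simp [U1]
  have h2 : ∀ i : Fin k, U1 (k + 1) w (Fin.castSucc i).succ = 0 := by
    intro i
    have := i.2
    simp only [U1, Fin.val_succ, Fin.val_castSucc]
    rw [if_neg (by omega), if_neg (by omega)]
  rw [h0, h1, Finset.prod_congr rfl fun i _ => by rw [h2 i], Finset.prod_const, card_univ,
    Fintype.card_fin, Nat.add_sub_cancel]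
  ring

theorem prod_sin_U1 {n : ℕ} (hn : 1 ≤ n) (w : ℝ) (u : ℂ) :
    ∏ i, sin (u - U1 n w i) = ffg 1 (n - 1) w u := by
  rw [prod_U1 hn w fun x => sin (u - x)]
  unfold ffg
  rw [sub_neg_eq_add, sub_zero]

theorem prod_sin_U1' {n : ℕ} (hn : 1 ≤ n) (w : ℝ) (a u : ℂ) :
    ∏ i, sin (a - (u - U1 n w i)) = (-1) ^ (n - 1) * ffg 1 (n - 1) w (u - a) := by
  have h : ∀ i, sin (a - (u - U1 n w i)) = (-1) * sin (u - a - U1 n w i) := by
    intro i
    rw [neg_one_mul, ← Complex.sin_neg]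
    congr 1
    ring
  rw [Finset.prod_congr rfl fun i _ => h i, Finset.prod_mul_distrib, prod_sin_U1 hn,
    Finset.prod_const, card_univ, Fintype.card_fin]
  congr 1
  obtain ⟨k, rfl⟩ := Nat.exists_eq_add_of_le' hn
  rw [Nat.add_sub_cancel, pow_add, pow_add]
  ring

private theorem IfN_U1_conj (n : ℕ) (w : ℝ) (i : Fin (n + 1)) :
    (starRingEnd ℂ) (U1 n w i) = U1 n w i := by
  unfold U1
  split_ifs
  · exact Complex.conj_ofReal w
  · rw [map_neg, Complex.conj_ofReal]
  · exact map_zero _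

private theorem IfN_Os_conj {L l : ℕ} (U : Fin L → ℂ) (hU : ∀ i, (starRingEnd ℂ) (U i) = U i) (u : ℂ)
    (m : Sts L l) : (starRingEnd ℂ) (Os U u m) = Os U ((starRingEnd ℂ) u) m := by
  unfold Os Oa
  split_ifs
  · rw [map_prod]
    refine prod_congr rfl fun i _ => ?_
    split_ifs
    · rw [← Complex.sin_conj, map_sub, hU]
    · exact Complex.conj_ofReal _
  · exact map_zero _

theorem qf_conj_gen {L l : ℕ} (U : Fin L → ℂ) (hU : ∀ i, (starRingEnd ℂ) (U i) = U i)
    (psi : Sts L l → ℝ) (u : ℂ) :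
    (starRingEnd ℂ) (qf U psi u) = qf U psi ((starRingEnd ℂ) u) := by
  unfold qf
  rw [map_sum]
  refine sum_congr rfl fun m _ => ?_
  rw [map_mul, Complex.conj_ofReal, IfN_Os_conj U hU]

theorem U1_cont (n : ℕ) (i : Fin (n + 1)) : Continuous fun w : ℝ => U1 n w i := by
  unfold U1
  split_ifs
  · exact Complex.continuous_ofReal
  · exact Complex.continuous_ofReal.neg
  · exact continuous_const

private theorem IfN_Os_cont {n l : ℕ} (u : ℂ) (m : Sts (n + 1) l) :
    Continuous fun w : ℝ => Os (U1 n w) u m := by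
  unfold Os Oa
  split_ifs
  · refine continuous_finsetProd _ fun i _ => ?_
    split_ifs
    · exact Complex.continuous_sin.comp (continuous_const.sub (U1_cont n i))
    · exact continuous_const
  · exact continuous_const

theorem qf_cont_U1 {n l : ℕ} {psi : ℝ → Sts (n + 1) l → ℝ} {S : Set ℝ}
    (h : ∀ m, ContinuousOn (fun w => psi w m) S) (u : ℂ) :
    ContinuousOn (fun w => qf (U1 n w) (psi w) u) S := by
  unfold qf
  refine continuousOn_finsetSum _ fun m _ => ?_
  exact (Complex.continuous_ofReal.comp_continuousOn (h m)).mul (IfN_Os_cont u m).continuousOn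

theorem Tf_cont_U1 (n l : ℕ) (F : Sts (n + 1) l → ℂ) (m : Sts (n + 1) l) :
    Continuous fun x : ℂ × ℝ => Tf x.1 (U1 n x.2) F m := by
  unfold Tf
  refine Tt_cont (lns (n + 1) l) continuous_fst (U := fun x : ℂ × ℝ => rap (U1 n x.2)) ?_ F m
  rintro (i | j)
  · exact (U1_cont n i).comp continuous_snd
  · exact continuous_const

theorem t_cont_U1 {n l : ℕ} {psi0 : Sts n l → ℝ} (Fa : Family1 n l psi0) (v : ℂ) :
    ContinuousOn (fun w => Fa.t w v) (Set.Ico 0 (Real.pi / 8)) := by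
  have h1 : ContinuousOn (fun w => ∑ m, (Fa.psi w m : ℂ) *
      Tf v (U1 n w) (fun m => if Chi m then 1 else 0) m) (Set.Ico 0 (Real.pi / 8)) := by
    refine continuousOn_finsetSum _ fun m _ => ?_
    refine (Complex.continuous_ofReal.comp_continuousOn (Fa.cont m)).mul ?_
    have h2 := (Tf_cont_U1 n l (fun m => if Chi m then 1 else 0) m).comp
      (continuous_const.prodMk continuous_id : Continuous fun w : ℝ => (v, w))
    exact h2.continuousOn
  refine h1.congr fun w hw => ?_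
  exact t_eq (Fa.isPsi w hw.1 hw.2) v

/-- the sum of `U1` over any set of sites is at most `w` in absolute value. -/
theorem phase_re_pos_U1 {n l : ℕ} (hn : 1 ≤ n) {w : ℝ} (hw : w ∈ Set.Ico 0 (Real.pi / 8))
    (m : Sts (n + 1) l) : 0 < (∏ i ∈ emps m, exp (-(I * U1 n w i))).re := by
  set r : Fin (n + 1) → ℝ := fun i => if (i : ℕ) = 0 then w else if (i : ℕ) = n then -w else 0 with hr
  have hU : ∀ i, U1 n w i = (r i : ℂ) := by
    intro i
    simp only [U1, hr]
    split_ifs <;> push_cast <;> rfl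
  have hsum : ∑ i ∈ emps m, r i = (if (0 : Fin (n + 1)) ∈ emps m then w else 0) +
      (if (Fin.last n) ∈ emps m then -w else 0) := by
    have h1 : ∀ i : Fin (n + 1), r i = (if i = 0 then w else 0) + (if i = Fin.last n then -w else 0) := by
      intro i
      simp only [hr]
      by_cases h0 : i = 0
      · subst h0
        have : (0 : Fin (n + 1)) ≠ Fin.last n := by
          intro h
          have := congrArg Fin.val h
          simp at this
          omega
        simp [this]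
      · have h0' : (i : ℕ) ≠ 0 := fun h => h0 (Fin.ext (by simpa using h))
        rw [if_neg h0', if_neg h0, zero_add]
        by_cases h2 : i = Fin.last n
        · subst h2; simp
        · have h2' : (i : ℕ) ≠ n := fun h => h2 (Fin.ext (by simpa using h))
          rw [if_neg h2', if_neg h2]
    rw [Finset.sum_congr rfl fun i _ => h1 i, Finset.sum_add_distrib, Finset.sum_ite_eq',
      Finset.sum_ite_eq']
  have habs : |∑ i ∈ emps m, r i| ≤ w := by
    have hw0 := hw.1
    rw [hsum, abs_le]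
    split_ifs <;> constructor <;> linarith
  have hlt : |∑ i ∈ emps m, r i| < Real.pi / 2 := by
    have hw1 := hw.2
    have hpi := Real.pi_pos
    linarith
  have hprod : ∏ i ∈ emps m, exp (-(I * U1 n w i)) =
      exp (((-(∑ i ∈ emps m, r i) : ℝ) : ℂ) * I) := by
    rw [← Complex.exp_sum]
    congr 1
    rw [Finset.sum_congr rfl (fun i _ => by rw [hU i]), Finset.sum_neg_distrib, ← Finset.mul_sum]
    push_cast
    ring
  rw [hprod, Complex.exp_ofReal_mul_I_re, Real.cos_neg]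
  rw [abs_lt] at hlt
  exact Real.cos_pos_of_mem_Ioo ⟨by linarith [hlt.1], hlt.2⟩

/-- `TQ` for the rapidities `U1` in the form of `GData.tq`. -/
theorem TQ_iff_U1 {n l : ℕ} (hn : 1 ≤ n) (hl : l ≤ n) (w : ℝ) (t q : ℂ → ℂ) :
    TQ (n + 1) l (U1 n w) t q ↔
    ∀ u : ℂ, t u * q (u - la) * q (u - 2 * la) =
      (-1) ^ (n + 1 - l) * (ffg 1 (n - 1) w (u - 2 * la) * ffg 1 (n - 1) w (u - 3 * la)) * q (u + la)
        * q (u - 2 * la)
      + (-1) ^ (n - 1) * (ffg 1 (n - 1) w u * ffg 1 (n - 1) w (u - 3 * la)) * q u * q (u - 3 * la)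
      + (-1) ^ (n + 1 - l) * (ffg 1 (n - 1) w u * ffg 1 (n - 1) w (u - la)) * q (u - 4 * la)
        * q (u - la) := by
  unfold TQ
  refine forall_congr' fun u => ?_
  have h1 : ((-1 : ℂ)) ^ (n + 1 + l) = (-1) ^ (n + 1 - l) := by
    have : n + 1 + l = (n + 1 - l) + 2 * l := by omega
    rw [this, pow_add, pow_mul (-1 : ℂ) 2 l, neg_one_sq, one_pow, mul_one]
  have h2 : ((-1 : ℂ)) ^ l * (-1) ^ (n - 1) = (-1) ^ (n + 1 - l) := by
    have : n + 1 - l + 2 * l = l + (n - 1) + 2 := by omega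
    have h3 : ((-1 : ℂ)) ^ (n + 1 - l + 2 * l) = (-1) ^ (l + (n - 1) + 2) := by rw [this]
    rw [pow_add, pow_mul (-1 : ℂ) 2 l, neg_one_sq, one_pow, mul_one] at h3
    rw [h3, pow_add, pow_add]
    ring
  have h4 : ((-1 : ℂ)) ^ (n - 1) * (-1) ^ (n - 1) = 1 := by
    rw [← pow_add, ← two_mul, pow_mul]; norm_num
  simp only [prod_mul_distrib, prod_sin_U1 hn, prod_sin_U1' hn, lam_eq_la, h1]
  have e1 : (-1 : ℂ) ^ (n + 1 - l) * ((-1) ^ (n - 1) * ffg 1 (n - 1) w (u - 2 * la) *
      ((-1) ^ (n - 1) * ffg 1 (n - 1) w (u - 3 * la))) =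
      (-1) ^ (n + 1 - l) * (ffg 1 (n - 1) w (u - 2 * la) * ffg 1 (n - 1) w (u - 3 * la)) := by
    linear_combination ((-1 : ℂ) ^ (n + 1 - l) * ffg 1 (n - 1) w (u - 2 * la) *
      ffg 1 (n - 1) w (u - 3 * la)) * h4
  have e2 : ffg 1 (n - 1) w u * ((-1) ^ (n - 1) * ffg 1 (n - 1) w (u - 3 * la)) =
      (-1) ^ (n - 1) * (ffg 1 (n - 1) w u * ffg 1 (n - 1) w (u - 3 * la)) := by ring
  have e3 : (-1 : ℂ) ^ l * (ffg 1 (n - 1) w u * ((-1) ^ (n - 1) * ffg 1 (n - 1) w (u - la))) =
      (-1) ^ (n + 1 - l) * (ffg 1 (n - 1) w u * ffg 1 (n - 1) w (u - la)) := by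
    rw [← h2]; ring
  rw [e1, e2, e3]

/-- `TQ` also at `w = pi / 16`, by continuity. -/
theorem TQ_all_U1 {n l : ℕ} (hn : 1 ≤ n) (hl : l ≤ n) {psi0 : Sts n l → ℝ} (Fa : Family1 n l psi0)
    (tq : ∀ w : ℝ, 0 ≤ w → w < Real.pi / 8 → w ≠ Real.pi / 16 →
      TQ (n + 1) l (U1 n w) (Fa.t w) (qf (U1 n w) (Fa.psi w)))
    (w : ℝ) (h0 : 0 ≤ w) (h1 : w < Real.pi / 8) :
    TQ (n + 1) l (U1 n w) (Fa.t w) (qf (U1 n w) (Fa.psi w)) := by
  rw [TQ_iff_U1 hn hl]
  intro u
  have hq : ∀ x : ℂ, ContinuousOn (fun w => qf (U1 n w) (Fa.psi w) x) (Set.Ico 0 (Real.pi / 8)) :=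
    fun x => qf_cont_U1 Fa.cont x
  have ht := t_cont_U1 Fa u
  have hf : ∀ x : ℂ, ContinuousOn (fun w : ℝ => ffg 1 (n - 1) w x) (Set.Ico 0 (Real.pi / 8)) := by
    intro x
    have h2 : Continuous fun w : ℝ => ffg 1 (n - 1) w x := by
      unfold ffg
      fun_prop
    exact h2.continuousOn
  have hpi := Real.pi_pos
  refine Set.EqOn.of_subset_closure (s := Set.Ico 0 (Real.pi / 8) \ {Real.pi / 16})
    (t := Set.Ico 0 (Real.pi / 8))
    (f := fun w => Fa.t w u * qf (U1 n w) (Fa.psi w) (u - la) *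
      qf (U1 n w) (Fa.psi w) (u - 2 * la))
    (g := fun w => (-1) ^ (n + 1 - l) * (ffg 1 (n - 1) w (u - 2 * la) * ffg 1 (n - 1) w (u - 3 * la)) *
        qf (U1 n w) (Fa.psi w) (u + la) * qf (U1 n w) (Fa.psi w) (u - 2 * la)
      + (-1) ^ (n - 1) * (ffg 1 (n - 1) w u * ffg 1 (n - 1) w (u - 3 * la)) * qf (U1 n w) (Fa.psi w) u *
        qf (U1 n w) (Fa.psi w) (u - 3 * la)
      + (-1) ^ (n + 1 - l) * (ffg 1 (n - 1) w u * ffg 1 (n - 1) w (u - la)) *
        qf (U1 n w) (Fa.psi w) (u - 4 * la) * qf (U1 n w) (Fa.psi w) (u - la))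
    ?_ ?_ ?_ Set.sdiff_subset ?_ ⟨h0, h1⟩
  · intro w hw
    exact (TQ_iff_U1 hn hl w _ _).1 (tq w hw.1.1 hw.1.2 hw.2) u
  · exact (ht.mul (hq _)).mul (hq _)
  · exact ((((continuousOn_const.mul ((hf _).mul (hf _))).mul (hq _)).mul (hq _)).add
      (((continuousOn_const.mul ((hf _).mul (hf _))).mul (hq _)).mul (hq _))).add
      (((continuousOn_const.mul ((hf _).mul (hf _))).mul (hq _)).mul (hq _))
  · intro x hx
    by_cases hx1 : x = Real.pi / 16
    · have h3 : x ∈ closure (Set.Ioo (Real.pi / 16) (Real.pi / 8)) := by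
        rw [closure_Ioo (by linarith)]
        exact ⟨hx1.ge, hx.2.le⟩
      refine closure_mono ?_ h3
      intro y hy
      exact ⟨⟨by linarith [hy.1], hy.2⟩, fun h => by
        have h4 : y = Real.pi / 16 := h
        linarith [hy.1]⟩
    · exact subset_closure ⟨hx, hx1⟩

/-- The data of part B (general form) for `U1`: every `l ≥ 1`. -/
theorem exists_GData {n l : ℕ} (hl : 1 ≤ l) (hn : l ≤ n) {psi0 : Sts n l → ℝ}
    (Fa : Family1 n l psi0)
    (tq : ∀ w : ℝ, 0 ≤ w → w < Real.pi / 8 → w ≠ Real.pi / 16 →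
      TQ (n + 1) l (U1 n w) (Fa.t w) (qf (U1 n w) (Fa.psi w))) :
    ∃ D : GData 1 (n - 1) (n + 1 - l) l, (∀ w u, D.q w u = qf (U1 n w) (Fa.psi w) u) ∧
      (∀ w u, D.T w u = Fa.t w u) ∧ GLim D (qf (fun _ => 0) psi0) := by
  have hn1 : 1 ≤ n := by omega
  have hneg : ((-1 : ℂ)) ^ (n + 1 + l) = (-1) ^ (n + 1 - l) := by
    have : n + 1 + l = (n + 1 - l) + 2 * l := by omega
    rw [this, pow_add, pow_mul (-1 : ℂ) 2 l, neg_one_sq, one_pow, mul_one]
  refine ⟨{ q := fun w u => qf (U1 n w) (Fa.psi w) u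
            T := Fa.t
            hm := by omega
            hl := hl
            hp := by omega
            q_tp := fun w hw => qf_tp_gen (U1 n w) (fun m _ => phase_re_pos_U1 hn1 hw m)
              (Fa.psi w) (Fa.isPsi w hw.1 hw.2).nonneg
              (fun m hm => (Fa.isPsi w hw.1 hw.2).supp m fun h => hm h.1) (Fa.arc w hw.1 hw.2)
            q_cont := fun u => qf_cont_U1 Fa.cont u
            q_conj := fun w _ u => qf_conj_gen (U1 n w) (IfN_U1_conj n w) (Fa.psi w) u
            q_neg := fun w hw u => by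
              have h1 := Fa.par w hw.1 hw.2 u
              rw [hneg] at h1
              exact h1
            tq := fun w hw u => (TQ_iff_U1 hn1 hn w _ _).1 (TQ_all_U1 hn1 hn Fa tq w hw.1 hw.2) u },
            fun _ _ => rfl, fun _ _ => rfl, ?_⟩
  · obtain ⟨ws, psis, ts, c, hc, hws, hlim, hpsi, hIs, -, ⟨hre, -⟩, hq⟩ := Fa.fus
    refine ⟨ws, c, hws, hlim, hc.ne', fun u => ?_, ?_⟩
    · rw [pow_one, ← hq u]
      show Tendsto (fun k => qf (U1 n (ws k)) (Fa.psi (ws k)) u) atTop _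
      unfold qf
      refine tendsto_finsetSum _ fun m _ => ?_
      refine Tendsto.mul ?_ ?_
      · exact (Complex.continuous_ofReal.tendsto _).comp (hpsi m)
      · exact ((IfN_Os_cont u m).tendsto (Real.pi / 8)).comp hlim
    · have h1 : Tendsto (fun x : ℂ × ℕ => Fa.t (ws x.2) x.1) (𝓝 (la : ℂ) ×ˢ atTop) (𝓝 (ts la)) := by
        have h2 : (fun x : ℂ × ℕ => Fa.t (ws x.2) x.1) = fun x : ℂ × ℕ =>
            ∑ m, (Fa.psi (ws x.2) m : ℂ) *
              Tf x.1 (U1 n (ws x.2)) (fun m => if Chi m then 1 else 0) m := by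
          funext x
          exact t_eq (Fa.isPsi _ (hws x.2).1 (hws x.2).2) x.1
        rw [h2, t_eq hIs]
        refine tendsto_finsetSum _ fun m _ => ?_
        refine Tendsto.mul ?_ ?_
        · exact (Complex.continuous_ofReal.tendsto _).comp ((hpsi m).comp tendsto_snd)
        · have h3 : Tendsto (fun x : ℂ × ℕ => (x.1, ws x.2)) (𝓝 (la : ℂ) ×ˢ atTop)
              (𝓝 ((la : ℂ), Real.pi / 8)) := by
            rw [nhds_prod_eq]
            exact tendsto_fst.prodMk (hlim.comp tendsto_snd)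
          have h9 : Tendsto (fun x : ℂ × ℝ =>
              Tf x.1 (U1 n x.2) (fun m => if Chi m then 1 else 0) m)
              (𝓝 ((la : ℂ), Real.pi / 8))
              (𝓝 (Tf (la : ℂ) (U1 n (Real.pi / 8)) (fun m => if Chi m then 1 else 0) m)) :=
            (Tf_cont_U1 n l (fun m => if Chi m then 1 else 0) m).tendsto _
          have h10 := Tendsto.comp h9 h3
          simp only [Function.comp_def] at h10
          exact h10
      have hne : 0 < ‖ts la‖ := by
        rw [norm_pos_iff]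
        intro h0
        rw [lam_eq_la, h0] at hre
        simp at hre
      have h4 : ∀ᶠ x : ℂ × ℕ in 𝓝 (la : ℂ) ×ˢ atTop, ‖ts la‖ / 2 < ‖Fa.t (ws x.2) x.1‖ :=
        h1.norm.eventually (lt_mem_nhds (by linarith))
      rw [eventually_prod_iff] at h4
      obtain ⟨pa, hpa, pb, hpb, h5⟩ := h4
      obtain ⟨δ, hδ, h6⟩ := Metric.eventually_nhds_iff.1 hpa
      refine ⟨δ / 2, by positivity, ‖ts la‖ / 2, by positivity, ?_⟩
      filter_upwards [hpb] with k hk u hu
      refine (h5 (h6 ?_) hk).le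
      rw [dist_eq_norm]
      linarith

end Pool.Agent.CYL
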