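import Pool.Agent.CYL.N.Tri
import Pool.Agent.CYL.P.PosB
import Pool.Agent.CYL.P.Fac
import Pool.Agent.BEX.ARtt

/-!
# CYL for all L (note 3190): one bracket, and the product of the brackets

`W`: the line of rapidity `w`, `V`: the last line, all the other lines have rapidity `0`.
* `br_nonneg`, `br_pos`: the operator `T(λ) R_{W Z}(w)` for neighbours `W`, `Z`.
* `Tt_self`: `T(v)` if the first line has the rapidity `v`.
* `chain`: `T(λ)^k R_{W Z_1}(w) .. R_{W Z_k}(w) R_{W V}(w - U V)`.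
-/

set_option linter.unusedSectionVars false

namespace Pool.Agent.CYL.NB

open Complex Finset
open Pool.Agent.BEX Pool.Agent.CYL Pool.Agent.CYL.PB
open scoped ComplexOrder

section loc

variable {κ : Type*} [DecidableEq κ]

/-- The line `p` is empty and stays empty. -/
theorem Rt_emp_pos {u : ℂ} (hu : Wt u) (p q : κ) {G : St κ → ℂ} (hG : ∀ m, 0 ≤ G m) (m : St κ) (hp : m p = p)
    (h : 0 < G m) : 0 < Rt p q u G m := by
  unfold Rt
  rw [if_pos hp]
  split_ifs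
  · exact add_pos_of_pos_of_nonneg (mul_pos hu.k h) (mul_nonneg hu.h4.le (hG _))
  · exact add_pos_of_pos_of_nonneg (mul_pos hu.h6 h) (mul_nonneg hu.h2.le (hG _))

end loc

variable {ι : Type*} [DecidableEq ι]

theorem Fo_nn {l : List ι} {v : ℂ} {U : ι → ℂ} (hU : ∀ i ∈ l, Wt (v - U i))
    {G : St (Option (Option ι)) → ℂ} (hG : ∀ M, 0 ≤ G M) : ∀ M, 0 ≤ Fo l v U G M := by
  induction l with
  | nil => exact hG
  | cons i l ih =>
    intro M
    rw [Fo_cons]
    exact Rt_nn (Or.inr (hU i List.mem_cons_self)) _ _ (ih fun j hj => hU j (List.mem_cons_of_mem _ hj)) M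

theorem Fo_pos {l : List ι} {v : ℂ} {U : ι → ℂ} (hU : ∀ i ∈ l, Wt (v - U i))
    {G : St (Option (Option ι)) → ℂ} (hG : ∀ M, 0 ≤ G M) {M : St (Option (Option ι))} (h0 : M ax = ax)
    (h : 0 < G M) : 0 < Fo l v U G M := by
  induction l with
  | nil => exact h
  | cons i l ih =>
    rw [Fo_cons]
    have h' : ∀ j ∈ l, Wt (v - U j) := fun j hj => hU j (List.mem_cons_of_mem _ hj)
    exact Rt_emp_pos (hU i List.mem_cons_self) _ _ (Fo_nn h' hG) M h0 (ih h')

theorem ext0_sw (m : St ι) (i j : ι) : (ext0 m).sw (lb i) (lb j) = ext0 (m.sw i j) := by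
  rw [ext0_eq, ext0_eq, Phi_sw]

section fin

variable [Fintype ι]

theorem capF_nn {F : St ι → ℂ} (hF : ∀ m, 0 ≤ F m) (M : St (Option (Option ι))) : 0 ≤ capF F M := by
  unfold capF
  split_ifs
  · exact hF _
  · exact le_rfl
  · exact le_rfl
  · exact le_rfl
  · exact hF _

theorem cupF_nn {G : St (Option (Option ι)) → ℂ} (hG : ∀ M, 0 ≤ G M) (m : St ι) : 0 ≤ cupF G m :=
  add_nonneg (hG _) (hG _)

/-- The bracket, rewritten with the triangle. -/
theorem br_eq {W Z : ι} (l₁ l₂ : List ι) (hn : (l₁ ++ W :: Z :: l₂).Nodup) {w : ℝ} {U : ι → ℂ}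
    (hW : U W = (w : ℂ)) (hZ : U Z = 0) (F : St ι → ℂ) :
    Tt (l₁ ++ W :: Z :: l₂) lam U (Rt W Z (w : ℂ) F) =
      cupF (Fo l₁ lam U (Rt ax (lb W) (lam - (w : ℂ)) (Rt ax (lb Z) lam
        (Rt (lb W) (lb Z) (w : ℂ) (Fo l₂ lam U (capF F)))))) := by
  rw [List.nodup_append] at hn
  obtain ⟨_, h2, h3⟩ := hn
  rw [List.nodup_cons, List.nodup_cons] at h2
  obtain ⟨h4, h5, _⟩ := h2
  have hWZ : W ≠ Z := fun h => h4 (h ▸ List.mem_cons_self)
  have hW2 : W ∉ l₂ := fun h => h4 (List.mem_cons_of_mem Z h)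
  rw [Tt_eq, capF_Rt hWZ, Fo_append, Fo_cons, Fo_cons, hW, hZ, sub_zero, Fo_Rt hWZ _ _ _ _ hW2 h5]

theorem br_nonneg {W Z : ι} (l₁ l₂ : List ι) (hn : (l₁ ++ W :: Z :: l₂).Nodup) {w : ℝ} (h0 : 0 ≤ w) (h1 : w ≤ lr)
    {U : ι → ℂ} (hW : U W = (w : ℂ)) (hZ : U Z = 0) (h₁ : ∀ i ∈ l₁, Wt (lam - U i)) (h₂ : ∀ i ∈ l₂, Wt (lam - U i))
    {F : St ι → ℂ} (hF : ∀ m, 0 ≤ F m) (m : St ι) :
    0 ≤ Tt (l₁ ++ W :: Z :: l₂) lam U (Rt W Z (w : ℂ) F) m := by
  have hWZ : W ≠ Z := by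
    rw [List.nodup_append] at hn
    intro h
    exact (List.nodup_cons.1 hn.2.1).1 (h ▸ List.mem_cons_self)
  rw [br_eq l₁ l₂ hn hW hZ]
  refine cupF_nn (Fo_nn h₁ fun M => ?_) m
  exact tri_nonneg h0 h1 (ax_ne W) (ax_ne Z) (fun h => hWZ (lb_inj h)) (Fo_nn h₂ (capF_nn hF)) M

theorem br_pos {W Z : ι} (l₁ l₂ : List ι) (hn : (l₁ ++ W :: Z :: l₂).Nodup) {w : ℝ} (h0 : 0 < w) (h1 : w < lr)
    {U : ι → ℂ} (hW : U W = (w : ℂ)) (hZ : U Z = 0) (h₁ : ∀ i ∈ l₁, Wt (lam - U i)) (h₂ : ∀ i ∈ l₂, Wt (lam - U i))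
    {F : St ι → ℂ} (hF : ∀ m, 0 ≤ F m) {m : St ι} (hm : 0 < F (m.sw W Z)) :
    0 < Tt (l₁ ++ W :: Z :: l₂) lam U (Rt W Z (w : ℂ) F) m := by
  have hWZ : W ≠ Z := by
    rw [List.nodup_append] at hn
    intro h
    exact (List.nodup_cons.1 hn.2.1).1 (h ▸ List.mem_cons_self)
  rw [br_eq l₁ l₂ hn hW hZ]
  have hL : (lb W : Option (Option ι)) ≠ lb Z := fun h => hWZ (lb_inj h)
  have hG1 : ∀ M, 0 ≤ Fo l₂ lam U (capF F) M := Fo_nn h₂ (capF_nn hF)
  have hG2 := tri_nonneg h0.le h1.le (ax_ne W) (ax_ne Z) hL hG1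
  refine add_pos_of_pos_of_nonneg ?_ (Fo_nn h₁ hG2 _)
  refine Fo_pos h₁ hG2 rfl ?_
  refine tri_pos h0 h1 (ax_ne W) (ax_ne Z) hL hG1 rfl ?_
  rw [ext0_sw]
  refine Fo_pos h₂ (capF_nn hF) rfl ?_
  rwa [capF_ext0]

/-- `∏ R_{q r}(v - U r)` over the list. -/
noncomputable def LayR {κ : Type*} [DecidableEq κ] (q : κ) (rs : List κ) (v : ℂ) (U : κ → ℂ) (F : St κ → ℂ) : St κ → ℂ :=
  rs.foldr (fun r G => Rt q r (v - U r) G) F

theorem LayR_nil {κ : Type*} [DecidableEq κ] (q : κ) (v : ℂ) (U : κ → ℂ) (F : St κ → ℂ) : LayR q [] v U F = F := rfl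

theorem LayR_cons {κ : Type*} [DecidableEq κ] (q r : κ) (rs : List κ) (v : ℂ) (U : κ → ℂ) (F : St κ → ℂ) :
    LayR q (r :: rs) v U F = Rt q r (v - U r) (LayR q rs v U F) := rfl

theorem cupF_LayR (q : ι) (rs : List ι) (v : ℂ) (U : ι → ℂ) (G : St (Option (Option ι)) → ℂ) :
    cupF (rs.foldr (fun r H => Rt (lb q) (lb r) (v - U r) H) G) = LayR q rs v U (cupF G) := by
  induction rs with
  | nil => rfl
  | cons r rs ih =>
    rw [List.foldr_cons, cupF_Rt, ih, LayR_cons]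

theorem Fo_sw {q : ι} (rs : List ι) (hq : q ∉ rs) (v : ℂ) (U : ι → ℂ) (G : St (Option (Option ι)) → ℂ)
    (M : St (Option (Option ι))) :
    Fo rs v U G (M.sw ax (lb q)) =
      rs.foldr (fun r H => Rt (lb q) (lb r) (v - U r) H) (fun N => G (N.sw ax (lb q))) M := by
  induction rs generalizing M with
  | nil => rfl
  | cons r rs ih =>
    have hqr : r ≠ q := fun h => hq (h ▸ List.mem_cons_self)
    rw [Fo_cons, List.foldr_cons, Rt_sw (ax_ne r).symm (fun h => hqr (lb_inj h))]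
    congr 1
    funext N
    exact ih (fun h => hq (List.mem_cons_of_mem _ h)) N

/-- The first line has the rapidity of the auxiliary line. -/
theorem Tt_self (q : ι) (rs : List ι) (hn : (q :: rs).Nodup) (v : ℂ) (U : ι → ℂ) (h : U q = v) (F : St ι → ℂ) :
    Tt (q :: rs) v U F = (sin (2 * lam) * sin (3 * lam)) • LayR q rs v U F := by
  rw [Tt_eq]
  funext m
  have h1 : Fo (q :: rs) v U (capF F) = (sin (2 * lam) * sin (3 * lam)) •
      (rs.foldr (fun r H => Rt (lb q) (lb r) (v - U r) H) (fun N => capF F (N.sw ax (lb q)))) := by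
    funext M
    rw [Fo_cons, h, sub_self, Pool.Agent.CYL.Rt_zero, Fo_sw rs (List.nodup_cons.1 hn).1, Pi.smul_apply, smul_eq_mul]
  have h2 : (cupF fun N => capF F (N.sw ax (lb q))) = F := funext fun m' => cup_sw_cap q F m'
  rw [h1, cupF_smul, cupF_LayR, h2]

/-- successive exchanges of `W` with the lines of the list -/
def swl (W : ι) (rs : List ι) (m : St ι) : St ι := rs.foldl (fun m z => m.sw W z) m

theorem Tt_iter_Rt {i j : ι} (l₁ l₂ : List ι) (hn : (l₁ ++ i :: j :: l₂).Nodup) (v : ℂ) (U : ι → ℂ)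
    (F : St ι → ℂ) (k : ℕ) :
    (Tt (l₁ ++ i :: j :: l₂) v U)^[k] (Rt i j (U i - U j) F) =
      Rt i j (U i - U j) ((Tt (l₁ ++ j :: i :: l₂) v U)^[k] F) := by
  induction k generalizing F with
  | zero => rfl
  | succ k ih => rw [Function.iterate_succ_apply, rtt l₁ l₂ hn, ih, Function.iterate_succ_apply]

/-- The product of the brackets. -/
theorem chain {W V : ι} {w : ℝ} (h0 : 0 < w) (h1 : w < lr) {U : ι → ℂ} (hW : U W = (w : ℂ))
    (hV : Wt (lam - U V)) (hWV : Wt ((w : ℂ) - U V)) (h0' : Wt lam) (rest : List ι) :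
    ∀ done : List ι, (done ++ W :: (rest ++ [V])).Nodup → (∀ z ∈ done ++ rest, U z = 0) →
    ∀ F : St ι → ℂ, (∀ m, 0 ≤ F m) →
    (∀ m, 0 ≤ (Tt (done ++ W :: (rest ++ [V])) lam U)^[rest.length] (LayR W (rest ++ [V]) (w : ℂ) U F) m) ∧
    ∀ m, 0 < Rt W V ((w : ℂ) - U V) F (swl W rest m) →
      0 < (Tt (done ++ W :: (rest ++ [V])) lam U)^[rest.length] (LayR W (rest ++ [V]) (w : ℂ) U F) m := by
  induction rest with
  | nil =>
    intro done hn hz F hF
    simp only [List.nil_append, List.length_nil, Function.iterate_zero, id_eq, LayR_cons, LayR_nil]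
    exact ⟨Rt_nn (Or.inr hWV) _ _ hF, fun m hm => hm⟩
  | cons z rest ih =>
    intro done hn hz F hF
    have hUz : U z = 0 := hz z (by simp)
    have hn' : (done ++ [z] ++ W :: (rest ++ [V])).Nodup := by
      have hp : (done ++ W :: (z :: rest ++ [V])).Perm (done ++ [z] ++ W :: (rest ++ [V])) := by
        rw [List.append_assoc]
        exact (List.Perm.swap z W (rest ++ [V])).append_left done
      exact hp.nodup hn
    have hz' : ∀ x ∈ done ++ [z] ++ rest, U x = 0 := by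
      intro x hx
      apply hz
      simp only [List.mem_append, List.mem_singleton, List.mem_cons] at hx ⊢
      tauto
    obtain ⟨i1, i2⟩ := ih (done ++ [z]) hn' hz' F hF
    set X := (Tt (done ++ [z] ++ W :: (rest ++ [V])) lam U)^[rest.length] (LayR W (rest ++ [V]) (w : ℂ) U F) with hX
    have hUWz : (w : ℂ) - U z = U W - U z := by rw [hW]
    have e : (Tt (done ++ W :: (z :: rest ++ [V])) lam U)^[(z :: rest).length]
        (LayR W (z :: rest ++ [V]) (w : ℂ) U F) =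
        Tt (done ++ W :: z :: (rest ++ [V])) lam U (Rt W z (w : ℂ) X) := by
      rw [List.length_cons, Function.iterate_succ_apply']
      congr 1
      rw [List.cons_append, LayR_cons, hUWz, Tt_iter_Rt done (rest ++ [V]) hn]
      rw [hUz, hW, sub_zero, hX, List.append_assoc]
      rfl
    have hd : ∀ i ∈ done, Wt (lam - U i) := fun i hi => by
      rw [hz i (by simp [hi]), sub_zero]; exact h0'
    have hr : ∀ i ∈ rest ++ [V], Wt (lam - U i) := fun i hi => by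
      rcases List.mem_append.1 hi with h | h
      · rw [hz i (by simp [h]), sub_zero]; exact h0'
      · rw [List.mem_singleton.1 h]; exact hV
    rw [e]
    refine ⟨br_nonneg done (rest ++ [V]) hn h0.le h1.le hW hUz hd hr i1, fun m hm => ?_⟩
    exact br_pos done (rest ++ [V]) hn h0 h1 hW hUz hd hr i1 (i2 _ hm)

end fin

end Pool.Agent.CYL.NB
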