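import Pool.Agent.CYL.P.Cl

set_option autoImplicit false

/-!
# CYL/N: the class of the `l`-leg sector for every `l`

`ClsG`: `Chi`, the arcs do not cross (`G1`), no arc separates two through-sites (`G2`), the through-sites of the points at
infinity `0, .., l - 1` are in cyclic order (`G3`). For `l ≤ 2` this is `Cls` (`clsG_iff`).
-/

namespace Pool.Agent.CYL

open Pool.Agent.BEX

variable {L l : ℕ}

/-- the site `i` carries a through-leg -/
def Thr (m : Sts L l) (i : Fin L) : Prop := ∃ j : Fin l, m (Sum.inl i) = Sum.inr j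

/-- the arcs do not cross -/
def G1 (m : Sts L l) : Prop :=
  ∀ i j k n : Fin L, i < j → j < k → k < n → m (Sum.inl i) = Sum.inl k → m (Sum.inl j) = Sum.inl n → False

/-- no arc separates two through-sites -/
def G2 (m : Sts L l) : Prop :=
  ∀ i k : Fin L, m (Sum.inl i) = Sum.inl k → ∀ a b : Fin L, Thr m a → Thr m b → i < a → a < k → i < b ∧ b < k

/-- the through-sites are in cyclic order -/
def G3 (m : Sts L l) : Prop :=
  ∀ j₁ j₂ j₃ : Fin l, j₁ < j₂ → j₂ < j₃ → ∀ a b c : Fin L, m (Sum.inl a) = Sum.inr j₁ → m (Sum.inl b) = Sum.inr j₂ →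
    m (Sum.inl c) = Sum.inr j₃ → (a < b ∧ b < c) ∨ (b < c ∧ c < a) ∨ (c < a ∧ a < b)

/-- The class of states of the `l`-leg sector, for every `l`. -/
structure ClsG (m : Sts L l) : Prop where
  chi : Chi m
  g1 : G1 m
  g2 : G2 m
  g3 : G3 m

/-- For `l ≤ 2` this is the class `Cls`. -/
theorem clsG_iff (hl : l ≤ 2) (m : Sts L l) : ClsG m ↔ Cls m := by
  constructor
  · rintro ⟨hc, h1, h2, -⟩
    refine ⟨hc, ?_⟩
    rintro i j k n hij hjk hkn ⟨⟨-, e1⟩, ⟨-, e2⟩⟩
    rcases e1 with e1 | ⟨a, b, hab, ha, hb⟩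
    · rcases e2 with e2 | ⟨c, d, hcd, hc', hd⟩
      · exact h1 i j k n hij hjk hkn e1 e2
      · have := h2 i k e1 j n ⟨c, hc'⟩ ⟨d, hd⟩ hij hjk
        exact absurd (hkn.trans this.2) (lt_irrefl _)
    · rcases e2 with e2 | ⟨c, d, hcd, hc', hd⟩
      · have := h2 j n e2 k i ⟨b, hb⟩ ⟨a, ha⟩ hjk hkn
        exact absurd (hij.trans this.1) (lt_irrefl _)
      · have n1 : a ≠ c := by
          rintro rfl
          have := m.inj (ha.trans hc'.symm)
          exact absurd (Sum.inl_injective this) (ne_of_lt hij)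
        have n2 : b ≠ c := by
          rintro rfl
          have := m.inj (hb.trans hc'.symm)
          exact absurd (Sum.inl_injective this) (ne_of_gt hjk)
        have := a.isLt
        have := b.isLt
        have := c.isLt
        have := Fin.val_ne_of_ne hab
        have := Fin.val_ne_of_ne n1
        have := Fin.val_ne_of_ne n2
        omega
  · rintro ⟨hc, h⟩
    refine ⟨hc, ?_, ?_, ?_⟩
    · intro i j k n hij hjk hkn e1 e2
      exact h i j k n hij hjk hkn ⟨⟨ne_of_lt (hij.trans hjk), Or.inl e1⟩, ⟨ne_of_lt (hjk.trans hkn), Or.inl e2⟩⟩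
    · rintro i k e a b ⟨ja, ha⟩ ⟨jb, hb⟩ hia hak
      by_cases hab : a = b
      · subst hab
        exact ⟨hia, hak⟩
      have hj : ja ≠ jb := by
        rintro rfl
        exact hab (Sum.inl_injective (m.inj (ha.trans hb.symm)))
      have hbi : b ≠ i := by
        rintro rfl
        rw [e] at hb
        exact absurd hb (by simp)
      have hbk : b ≠ k := by
        rintro rfl
        have e' : m (Sum.inl b) = Sum.inl i := by rw [← e, m.inv]
        rw [e'] at hb
        exact absurd hb (by simp)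
      constructor
      · rcases lt_trichotomy i b with g | g | g
        · exact g
        · exact absurd g.symm hbi
        · exact absurd ⟨⟨ne_of_lt (g.trans hia), Or.inr ⟨jb, ja, hj.symm, hb, ha⟩⟩,
            ⟨ne_of_lt (hia.trans hak), Or.inl e⟩⟩ (h b i a k g hia hak)
      · rcases lt_trichotomy b k with g | g | g
        · exact g
        · exact absurd g hbk
        · exact absurd ⟨⟨ne_of_lt (hia.trans hak), Or.inl e⟩,
            ⟨ne_of_lt (hak.trans g), Or.inr ⟨ja, jb, hj, ha, hb⟩⟩⟩ (h i a k b hia hak g)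
    · intro j₁ j₂ j₃ h1 h2
      exfalso
      have := j₃.isLt
      rw [Fin.lt_def] at h1 h2
      omega

end Pool.Agent.CYL
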