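import Pool.Agent.CYL.N.FuY

/-!
# CYL/N (all L): a positive diagonal entry of `T(λ; λ, 0, .., 0, -λ)`
-/

set_option linter.unusedVariables false

namespace Pool.Agent.CYL

open Pool.Agent.BEX Pool.Agent.BEX.Far Complex
open scoped ComplexOrder

variable {n l : ℕ}

theorem wt_lam : PB.Wt lam := by
  rw [← lam_coe]
  exact PB.wt_of le_rfl (by linarith [Real.pi_pos])

theorem c1_pos : (0 : ℂ) < sin (2 * lam) * sin (3 * lam) := by
  have h1 : 0 < Real.sin (2 * (Real.pi / 8)) := Real.sin_pos_of_pos_of_lt_pi (by positivity) (by linarith [Real.pi_pos])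
  have h2 : 0 < Real.cos (Real.pi / 8) := Real.cos_pos_of_mem_Ioo ⟨by linarith [Real.pi_pos], by linarith [Real.pi_pos]⟩
  have e1 : sin (2 * lam) = ((Real.sin (2 * (Real.pi / 8)) : ℝ) : ℂ) := by unfold lam; push_cast; rfl
  have e2 : cos lam = ((Real.cos (Real.pi / 8) : ℝ) : ℂ) := by unfold lam; push_cast; rfl
  rw [sin3_eq_cos, e1, e2]
  exact_mod_cast mul_pos h1 h2

theorem kk2_nn : (0 : ℂ) ≤ kk (2 * lam) := by
  have h2 : 0 < Real.cos (Real.pi / 8) := Real.cos_pos_of_mem_Ioo ⟨by linarith [Real.pi_pos], by linarith [Real.pi_pos]⟩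
  have e2 : cos lam = ((Real.cos (Real.pi / 8) : ℝ) : ℂ) := by unfold lam; push_cast; rfl
  rw [kk_2lam, e2]
  exact_mod_cast h2.le

/-- the homogeneous transfer matrix -/
theorem wt_hom (L : ℕ) : ∀ i ∈ lns L l, PB.Wt (lam - rap (l := l) (fun _ : Fin L => (0 : ℂ)) i) := by
  intro i _
  have h : rap (l := l) (fun _ : Fin L => (0 : ℂ)) i = 0 := by rcases i with i | i <;> rfl
  rw [h, sub_zero]
  exact wt_lam

theorem T0_nn {L : ℕ} {g : Sts L l → ℂ} (hg : ∀ m, 0 ≤ g m) (m : Sts L l) : 0 ≤ Tf lam (fun _ => 0) g m := by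
  unfold Tf
  rw [Tt_eq]
  exact NB.cupF_nn (NB.Fo_nn (wt_hom L) (NB.capF_nn hg)) m

theorem T0_pos {L : ℕ} {g : Sts L l → ℂ} (hg : ∀ m, 0 ≤ g m) {m : Sts L l} (h : 0 < g m) :
    0 < Tf lam (fun _ => 0) g m := by
  unfold Tf
  rw [Tt_eq]
  refine add_pos_of_pos_of_nonneg ?_ (NB.Fo_nn (wt_hom L) (NB.capF_nn hg) _)
  refine NB.Fo_pos (wt_hom L) (NB.capF_nn hg) rfl ?_
  rwa [capF_ext0]

/-- the transfer matrix with the fused pair is nonnegative -/
theorem Tl_nn (hn : 1 ≤ n) {F : Sts (n + 1) l → ℂ} (hF : ∀ m, 0 ≤ F m) (m : Sts (n + 1) l) :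
    0 ≤ Tf lam (U1 n (Real.pi / 8)) F m := by
  rw [Tf_prod hn, Pi.smul_apply, smul_eq_mul]
  refine mul_nonneg c1_pos.le ?_
  have key : ∀ rs : List (Lb (n + 1) l), ∀ G : Sts (n + 1) l → ℂ, (∀ m, 0 ≤ G m) →
      ∀ m, 0 ≤ NB.LayR (sW n l) rs lam (fun _ => 0) G m := by
    intro rs
    induction rs with
    | nil => exact fun G hG => hG
    | cons r rs ih =>
      intro G hG m
      rw [NB.LayR_cons, sub_zero]
      exact PB.Rt_nn (Or.inr wt_lam) _ _ (ih G hG) m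
  exact key _ _ (fun M => mul_nonneg kk2_nn (Mg_nn (fun m => Sp_nn hF m) M)) m

theorem swap_inl {L : ℕ} (a b i : Fin L) :
    Equiv.swap (Sum.inl a : Lb L l) (Sum.inl b) (Sum.inl i) = Sum.inl (Equiv.swap a b i) := by
  simp only [Equiv.swap_apply_def, Sum.inl.injEq]
  split_ifs <;> rfl

theorem swap_inr {L : ℕ} (a b : Fin L) (j : Fin l) :
    Equiv.swap (Sum.inl a : Lb L l) (Sum.inl b) (Sum.inr j) = Sum.inr j :=
  Equiv.swap_apply_of_ne_of_ne (by simp) (by simp)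

theorem arcless_sw {L : ℕ} {M : Sts L l} (h : Arcless M) (a b : Fin L) :
    Arcless (M.sw (Sum.inl a) (Sum.inl b)) := by
  constructor
  · intro j
    obtain ⟨i, hi⟩ := h.1 j
    exact ⟨Equiv.swap a b i, by rw [sw_ap, swap_inr, hi, swap_inl]⟩
  · intro i k hik
    rw [sw_ap, swap_inl] at hik
    have h1 : M (Sum.inl (Equiv.swap a b i)) = Sum.inl (Equiv.swap a b k) := by
      rw [← swap_inl a b k, ← hik]
      simp
    exact (Equiv.swap a b).injective (h.2 _ _ h1)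

/-- A positive diagonal entry. -/
theorem exists_diag1 (hl : 1 ≤ l) (hl3 : l ≤ 3) (hn : l ≤ n) : ∃ N : Sts (n + 1) l, Cls N ∧
    0 < Tf lam (U1 n (Real.pi / 8)) (Pi.single N 1) N := by
  have hn1 : 1 ≤ n := le_trans hl hn
  set m : Sts n l := stdm hn with hm
  set N : Sts (n + 1) l := up1 m with hN
  set N' : Sts (n + 1) l := N.sw (sW n l) (sV n l) with hN'
  have hA : Arcless N := arcless_up1 (arcless_stdm hn)
  have hA' : Arcless N' := arcless_sw hA 0 (Fin.last n)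
  have hW : N (sW n l) ≠ sW n l := by
    have h1 : N (Sum.inl (Fin.castSucc ⟨0, hn1⟩)) = i1 (m (Sum.inl ⟨0, hn1⟩)) := up1_inl m _
    have h2 : m (Sum.inl ⟨0, hn1⟩) = Sum.inr ⟨0, hl⟩ := stdm_inl_lt hn (i := ⟨0, hn1⟩) hl
    have h3 : (sW n l : Lb (n + 1) l) = Sum.inl (Fin.castSucc ⟨0, hn1⟩) := rfl
    rw [h3, h1, h2]
    simp [i1]
  -- the two functions have the same image
  have hD : D1 (Pi.single N' 1 : Sts (n + 1) l → ℂ) = D1 (Pi.single N 1) := by
    funext m''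
    unfold D1
    rw [← Sp_swap (Pi.single N 1) (up1 m'') (up1_V m'')]
    congr 1
    funext M
    have h1 : M = N' ↔ M.sw (sW n l) (sV n l) = N := by
      constructor
      · intro h
        rw [h, hN', sw_twice]
      · intro h
        rw [hN', ← h, sw_twice]
    by_cases h2 : M = N'
    · rw [Pi.single_apply, Pi.single_apply, if_pos h2, if_pos (h1.1 h2)]
    · rw [Pi.single_apply, Pi.single_apply, if_neg h2, if_neg fun h => h2 (h1.2 h)]
  have hT := Tf_dep hn1 hD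
  -- positivity after the splitting
  have hs : ∀ M, (0 : ℂ) ≤ (Pi.single N 1 : Sts (n + 1) l → ℂ) M := fun M => single_nn N M
  have h1 : 0 < D1 (Pi.single N 1 : Sts (n + 1) l → ℂ) m := by
    unfold D1
    refine Sp_pos hs ?_
    rw [← hN, Pi.single_eq_same]
    exact zero_lt_one
  have h2 : 0 < D1 (Tf lam (U1 n (Real.pi / 8)) (Pi.single N 1)) m := by
    rw [D1_Tf hn1]
    exact mul_pos c1_pos (T0_pos (fun m'' => Sp_nn hs _) h1)
  unfold D1 Sp at h2
  rw [← hN, if_neg hW, ← hN'] at h2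
  have h3 : 0 < Tf lam (U1 n (Real.pi / 8)) (Pi.single N 1) N + Tf lam (U1 n (Real.pi / 8)) (Pi.single N 1) N' :=
    pos_of_mul_pos_right h2 xc_pos'.le
  rcases (Tl_nn hn1 hs N).eq_or_lt with h4 | h4
  · rw [← h4, zero_add, ← hT] at h3
    exact ⟨N', hA'.cls hl3, h3⟩
  · exact ⟨N, hA.cls hl3, h4⟩

/-- products of the transfer matrices keep the positivity at `N` -/
theorem Tfl_stay (hn : 1 ≤ n) {N : Sts (n + 1) l} (hN : 0 < Tf lam (U1 n (Real.pi / 8)) (Pi.single N 1) N)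
    (vs : List ℂ) (h : ∀ v ∈ vs, v = lam) {F : Sts (n + 1) l → ℂ} (hF : ∀ m, 0 ≤ F m) (hFN : 0 < F N) :
    (∀ m, 0 ≤ Tfl vs (U1 n (Real.pi / 8)) F m) ∧ 0 < Tfl vs (U1 n (Real.pi / 8)) F N := by
  induction vs with
  | nil => exact ⟨hF, hFN⟩
  | cons v vs ih =>
    obtain ⟨a, b⟩ := ih fun v hv => h v (List.mem_cons_of_mem _ hv)
    have hv := h v List.mem_cons_self
    subst hv
    have e : Tfl (lam :: vs) (U1 n (Real.pi / 8)) F =
        Tf lam (U1 n (Real.pi / 8)) (Tfl vs (U1 n (Real.pi / 8)) F) := rfl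
    rw [e]
    refine ⟨Tl_nn hn a, ?_⟩
    rw [Tf_eq_sum]
    refine Finset.sum_pos' (fun m' _ => mul_nonneg (a m') (Tl_nn hn (fun M => single_nn m' M) N))
      ⟨N, Finset.mem_univ _, mul_pos b hN⟩

end Pool.Agent.CYL
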