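import Pool.Agent.CYL.N.FuL
import Pool.Agent.CYL.N.Br
import Pool.Agent.CYL.P.DblF
import Pool.Agent.BEX.ACyc

/-!
# CYL/N (all L): the transfer matrix of `n + 1` sites with the fused pair (last site, site `0`)

* `D1_Tf`: after the splitting of the site `0`, `T(λ; λ, 0, .., 0, -λ)` is a multiple of the homogeneous `T(λ; 0)` on
  `n` sites.
* `Tf_dep`: `T(λ; λ, 0, .., 0, -λ) F` depends only on `D1 F`.
-/

set_option linter.unusedVariables false

namespace Pool.Agent.CYL

open Pool.Agent.BEX Pool.Agent.BEX.Far Complex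

section gen

variable {ι : Type*} [DecidableEq ι]

/-- Congruence for the crossings of lines different from `V`. -/
theorem Fo_congrE {V : ι} (rs : List ι) (hV : V ∉ rs) (v : ℂ) (U : ι → ℂ) {H H' : St (Option (Option ι)) → ℂ}
    (h : ∀ N, N (lb V) = lb V → H' N = H N) {M : St (Option (Option ι))} (hM : M (lb V) = lb V) :
    Fo rs v U H' M = Fo rs v U H M := by
  induction rs generalizing M with
  | nil => exact h M hM
  | cons r rs ih =>
    rw [List.mem_cons, not_or] at hV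
    have hrV : (lb r : Option (Option ι)) ≠ lb V := fun e => hV.1 (lb_inj e).symm
    rw [Fo_cons, Fo_cons]
    refine Db.Rt_congr (P := fun N : St (Option (Option ι)) => N (lb V) = lb V) hM ?_ ?_ ?_ ?_ (fun N hN => ih hV.2 hN)
    · exact (Db.fix_sw (ax_ne V) hrV).2 hM
    · exact (Db.fix_jn (ax_ne V) hrV).2 hM
    · exact (Db.fix_cp (ax_ne r) (ax_ne V) hrV).2 hM
    · exact (Db.fix_cj (ax_ne r) (ax_ne V) hrV).2 hM

/-- A splitting commutes with the crossing of other lines. -/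
theorem Sp_Fo {W V : ι} (hWV : W ≠ V) (rs : List ι) (hW : W ∉ rs) (hV : V ∉ rs) (v : ℂ) (U : ι → ℂ)
    (H : St (Option (Option ι)) → ℂ) {M : St (Option (Option ι))} (hM : M (lb V) = lb V) :
    Sp (lb W) (lb V) (Fo rs v U H) M = Fo rs v U (Sp (lb W) (lb V) H) M := by
  induction rs generalizing M with
  | nil => rfl
  | cons r rs ih =>
    rw [List.mem_cons, not_or] at hW hV
    have hrV : (lb r : Option (Option ι)) ≠ lb V := fun e => hV.1 (lb_inj e).symm
    have hrW : (lb r : Option (Option ι)) ≠ lb W := fun e => hW.1 (lb_inj e).symm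
    rw [Fo_cons, Fo_cons, Db.Sp_far (fun e => hWV (lb_inj e)) (ax_ne W).symm hrW.symm (ax_ne V).symm hrV.symm
      (ax_ne r) _ _ hM]
    refine Db.Rt_congr (P := fun N : St (Option (Option ι)) => N (lb V) = lb V) hM ?_ ?_ ?_ ?_
      (fun N hN => ih hW.2 hV.2 hN)
    · exact (Db.fix_sw (ax_ne V) hrV).2 hM
    · exact (Db.fix_jn (ax_ne V) hrV).2 hM
    · exact (Db.fix_cp (ax_ne r) (ax_ne V) hrV).2 hM
    · exact (Db.fix_cj (ax_ne r) (ax_ne V) hrV).2 hM

theorem Fo_congrU {rs : List ι} {v : ℂ} {U U' : ι → ℂ} (h : ∀ i ∈ rs, U i = U' i)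
    (H : St (Option (Option ι)) → ℂ) : Fo rs v U H = Fo rs v U' H := by
  induction rs with
  | nil => rfl
  | cons r rs ih =>
    rw [Fo_cons, Fo_cons, ih fun i hi => h i (List.mem_cons_of_mem _ hi), h r List.mem_cons_self]

theorem ext1_lb {V : ι} {m : St ι} (hV : m V = V) : (ext1 m) (lb V) = lb V := by
  have h : (ext0 m) (lb V) = lb V := by rw [ext0_lb, hV]
  unfold ext1
  exact (Db.fix_jn (ax_ne V) (by simp)).2 h

/-- The transfer matrix and the splitting of `W`. -/
theorem Sp_Tt [Fintype ι] {W V : ι} (rs : List ι) (hn : (V :: W :: rs).Nodup) {U U' : ι → ℂ} (hW : U W = lam)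
    (hV : U V = -lam) (hW' : U' W = 0) (hr : ∀ i ∈ rs, U i = U' i) (F : St ι → ℂ) (m : St ι) (hm : m V = V) :
    Sp W V (Tt (V :: W :: rs) lam U F) m =
      sin (2 * lam) * sin (3 * lam) * Tt (W :: rs) lam U' (Sp W V F) m := by
  rw [List.nodup_cons, List.nodup_cons, List.mem_cons, not_or] at hn
  obtain ⟨⟨hVW, hVr⟩, hWr, _⟩ := hn
  have hL : (lb W : Option (Option ι)) ≠ lb V := fun e => hVW (lb_inj e).symm
  have e2 : lam - U V = 2 * lam := by rw [hV]; ring
  have e3 : lam - U W = 0 := by rw [hW, sub_self]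
  have key : ∀ M : St (Option (Option ι)), M (lb V) = lb V →
      Sp (lb W) (lb V) (Fo (V :: W :: rs) lam U (capF F)) M =
        sin (2 * lam) * sin (3 * lam) * Fo (W :: rs) lam U' (capF (Sp W V F)) M := by
    intro M hM
    rw [Fo_cons, Fo_cons, e2, e3, fuse_loc (ax_ne W) (ax_ne V) hL _ _ hM, Fo_cons, hW', sub_zero]
    congr 1
    refine Db.Rt_congr (P := fun N : St (Option (Option ι)) => N (lb V) = lb V) hM ?_ ?_ ?_ ?_ ?_
    · exact (Db.fix_sw (ax_ne V) hL).2 hM
    · exact (Db.fix_jn (ax_ne V) hL).2 hM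
    · exact (Db.fix_cp (ax_ne W) (ax_ne V) hL).2 hM
    · exact (Db.fix_cj (ax_ne W) (ax_ne V) hL).2 hM
    · intro N hN
      rw [Sp_Fo (Ne.symm hVW) rs hWr hVr lam U (capF F) hN, ← Fo_congrU hr]
      exact Fo_congrE rs hVr lam U (fun N hN => (Db.capF_Sp (Ne.symm hVW) F hN).symm) hN
  rw [Tt_eq, Tt_eq, ← Db.cupF_Sp]
  unfold cupF
  rw [key _ (by rw [ext0_lb, hm]), key _ (ext1_lb hm)]
  ring

end gen

section emb

variable {α ι : Type*} [DecidableEq α] [DecidableEq ι] {f : α → ι} (hf : Function.Injective f)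

/-- Embedding of the lines. -/
theorem Fo_upf (rs : List α) (v : ℂ) (U : ι → ℂ) (H : St (Option (Option ι)) → ℂ) (N : St (Option (Option α))) :
    Fo (rs.map f) v U H (Db.upf2 hf N) = Fo rs v (fun a => U (f a)) (fun n => H (Db.upf2 hf n)) N := by
  induction rs generalizing N with
  | nil => rfl
  | cons r rs ih =>
    rw [List.map_cons, Fo_cons, Fo_cons]
    have h := Rt_Phi (Db.of2_inj hf) (m := St.emp) (fun a => ⟨a, rfl⟩) ax (lb r) (v - U (f r))
      (Fo (rs.map f) v U H) N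
    refine h.trans ?_
    congr 1
    funext n
    exact ih n

theorem Tt_upf [Fintype α] [Fintype ι] (rs : List α) (v : ℂ) (U : ι → ℂ) (F : St ι → ℂ) (m : St α) :
    Tt (rs.map f) v U F (Db.upf hf m) = Tt rs v (fun a => U (f a)) (fun n => F (Db.upf hf n)) m := by
  rw [Tt_eq, Tt_eq]
  unfold cupF
  rw [Db.ext0_upf, Db.ext1_upf, Fo_upf, Fo_upf]
  have h : (fun n => capF F (Db.upf2 hf n)) = capF fun n => F (Db.upf hf n) := by
    funext n
    exact Db.capF_upf hf F n
  rw [h]

omit [DecidableEq α] [DecidableEq ι] in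
theorem upf_surj {M : St ι} (h : ∀ z, (¬ ∃ a, f a = z) → M z = z) : ∃ m, Db.upf hf m = M := by
  have h1 : ∀ a, ∃ b, M (f a) = f b := by
    intro a
    by_contra hc
    push Not at hc
    have h2 := h (M (f a)) (by rintro ⟨b, hb⟩; exact hc b hb.symm)
    rw [M.inv] at h2
    exact hc a h2.symm
  choose g hg using h1
  refine ⟨⟨g, fun a => hf ?_⟩, ?_⟩
  · rw [← hg, ← hg, M.inv]
  · apply St.ext'
    intro z
    by_cases hz : ∃ a, f a = z
    · obtain ⟨a, rfl⟩ := hz
      rw [Db.upf_apply, hg]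
    · rw [Db.upf_out hf _ hz, h z hz]

end emb

section main

variable {n l : ℕ}

/-- The site `0` (kept). -/
def sW (n l : ℕ) : Lb (n + 1) l := Sum.inl 0

/-- The last site (empty before the splitting). -/
def sV (n l : ℕ) : Lb (n + 1) l := Sum.inl (Fin.last n)

/-- The labels of `n` sites as labels of `n + 1` sites. -/
def i1 : Lb n l → Lb (n + 1) l := Sum.map Fin.castSucc id

theorem i1_inj : Function.Injective (i1 : Lb n l → Lb (n + 1) l) :=
  Function.Injective.sumMap (Fin.castSucc_injective n) Function.injective_id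

/-- The states of `n` sites as states of `n + 1` sites (the last site is empty). -/
noncomputable def up1 (m : Sts n l) : Sts (n + 1) l := Db.upf i1_inj m

/-- The splitting, as a pull back to the states of `n` sites. -/
noncomputable def D1 (F : Sts (n + 1) l → ℂ) (m : Sts n l) : ℂ := Sp (sW n l) (sV n l) F (up1 m)

theorem sV_out : ¬ ∃ a : Lb n l, i1 a = sV n l := by
  rintro ⟨a | a, ha⟩
  · simp only [i1, sV, Sum.map_inl, Sum.inl.injEq] at ha
    exact (Fin.castSucc_lt_last a).ne ha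
  · simp [i1, sV] at ha

theorem i1_out {z : Lb (n + 1) l} (hz : ¬ ∃ a : Lb n l, i1 a = z) : z = sV n l := by
  rcases z with z | z
  · by_contra hne
    have hz' : z ≠ Fin.last n := fun h => hne (by rw [h]; rfl)
    obtain ⟨y, hy⟩ := Fin.exists_castSucc_eq.2 hz'
    exact hz ⟨Sum.inl y, by simp [i1, hy]⟩
  · exact absurd ⟨Sum.inr z, rfl⟩ hz

theorem up1_V (m : Sts n l) : up1 m (sV n l) = sV n l := Db.upf_out i1_inj m sV_out

theorem up1_surj {M : Sts (n + 1) l} (h : M (sV n l) = sV n l) : ∃ m, up1 m = M :=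
  upf_surj i1_inj fun z hz => by rw [i1_out hz, h]

theorem up1_inj : Function.Injective (up1 : Sts n l → Sts (n + 1) l) := by
  intro a b hab
  apply St.ext'
  intro x
  have h1 : up1 a (i1 x) = up1 b (i1 x) := by rw [hab]
  unfold up1 at h1
  rw [Db.upf_apply, Db.upf_apply] at h1
  exact i1_inj h1

theorem sWV (hn : 1 ≤ n) : sW n l ≠ sV n l := by
  intro h
  have := Sum.inl_injective h
  have h2 := congrArg Fin.val this
  simp at h2
  omega

/-- The sites `1, .., n - 1`. -/
def rsN (n l : ℕ) : List (Lb (n + 1) l) := ((List.finRange n).tail.map Fin.castSucc).map Sum.inl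

theorem finRange_tail (hn : 1 ≤ n) : ∃ h : 0 < n, List.finRange n = ⟨0, h⟩ :: (List.finRange n).tail := by
  refine ⟨hn, ?_⟩
  obtain ⟨k, rfl⟩ : ∃ k, n = k + 1 := ⟨n - 1, by omega⟩
  rw [List.finRange_succ]
  rfl

theorem lns_cast (hn : 1 ≤ n) : (lns n l).map i1 = sW n l :: rsN n l := by
  obtain ⟨h, he⟩ := finRange_tail hn
  unfold lns rsN
  rw [he, List.map_cons, List.map_cons, List.tail_cons]
  congr 1
  rw [List.map_map, List.map_map]
  rfl

theorem lns_succ (hn : 1 ≤ n) : lns (n + 1) l = sW n l :: rsN n l ++ [sV n l] := by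
  rw [← lns_cast hn]
  unfold lns
  rw [List.finRange_succ_last, List.map_append, List.map_map, List.map_map]
  rfl

theorem lns_nodupF (L l : ℕ) : (lns L l).Nodup :=
  (List.nodup_finRange L).map Sum.inl_injective

theorem nodup_V (hn : 1 ≤ n) : (sV n l :: sW n l :: rsN n l).Nodup := by
  have h := lns_nodupF (n + 1) l
  rw [lns_succ hn] at h
  have hp : (sW n l :: rsN n l ++ [sV n l]).Perm (sV n l :: sW n l :: rsN n l) :=
    List.perm_append_singleton _ _
  exact hp.nodup h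

theorem mem_rsN {z : Lb (n + 1) l} (h : z ∈ rsN n l) : ∃ i : Fin (n + 1), (i : ℕ) ≠ 0 ∧ (i : ℕ) ≠ n ∧ z = Sum.inl i := by
  unfold rsN at h
  rw [List.mem_map] at h
  obtain ⟨i, hi, rfl⟩ := h
  refine ⟨i, ?_, ?_, rfl⟩
  · intro h0
    rw [List.mem_map] at hi
    obtain ⟨j, hj, rfl⟩ := hi
    have hn : 1 ≤ n := by have := j.2; omega
    obtain ⟨h, he⟩ := finRange_tail hn
    have hnd := List.nodup_finRange n
    rw [he, List.nodup_cons] at hnd
    apply hnd.1
    have : j = ⟨0, h⟩ := Fin.ext (by simpa using h0)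
    rwa [← this]
  · rw [List.mem_map] at hi
    obtain ⟨j, hj, rfl⟩ := hi
    have := j.2
    simp only [Fin.val_castSucc]
    omega

theorem U1_W (w : ℝ) : rap (U1 n w) (sW n l) = (w : ℂ) := by simp [rap, sW, U1]

theorem U1_V (hn : 1 ≤ n) (w : ℝ) : rap (U1 n w) (sV n l) = -(w : ℂ) := by
  have h : n ≠ 0 := by omega
  simp [rap, sV, U1, h]

theorem U1_r (w : ℝ) {z : Lb (n + 1) l} (h : z ∈ rsN n l) : rap (U1 n w) z = 0 := by
  obtain ⟨i, h0, h1, rfl⟩ := mem_rsN h
  simp [rap, U1, h0, h1]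

theorem lam_coe : ((Real.pi / 8 : ℝ) : ℂ) = lam := AOm_lam

/-- The transfer matrix with the fused pair and the homogeneous transfer matrix on `n` sites. -/
theorem D1_Tf (hn : 1 ≤ n) (F : Sts (n + 1) l → ℂ) (m : Sts n l) :
    D1 (Tf lam (U1 n (Real.pi / 8)) F) m =
      sin (2 * lam) * sin (3 * lam) * Tf lam (fun _ => 0) (D1 F) m := by
  have h1 : Tf lam (U1 n (Real.pi / 8)) F =
      Tt (sV n l :: sW n l :: rsN n l) lam (rap (U1 n (Real.pi / 8))) F := by
    unfold Tf
    rw [lns_succ hn, ← Tt_cyc _ _ (nodup_V hn)]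
  have h2 := Sp_Tt (rsN n l) (nodup_V hn) (U := rap (U1 n (Real.pi / 8))) (U' := fun _ => 0)
    (by rw [U1_W, lam_coe]) (by rw [U1_V hn, lam_coe]) rfl (fun i hi => U1_r _ hi) F (up1 m) (up1_V m)
  unfold D1
  rw [h1, h2, ← lns_cast hn]
  congr 1
  have h3 := Tt_upf i1_inj (lns n l) lam (fun _ => 0) (Sp (sW n l) (sV n l) F) m
  refine h3.trans ?_
  unfold Tf
  congr 1
  funext a
  rcases a with a | a <;> rfl

/-- `T(λ; λ, 0, .., 0, -λ)` as a product of crossings with the site `0`. -/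
theorem Tf_prod (hn : 1 ≤ n) (F : Sts (n + 1) l → ℂ) :
    Tf lam (U1 n (Real.pi / 8)) F = (sin (2 * lam) * sin (3 * lam)) •
      NB.LayR (sW n l) (rsN n l) lam (fun _ => 0)
        (fun M => kk (2 * lam) * Mg (sW n l) (sV n l) (Sp (sW n l) (sV n l) F) M) := by
  unfold Tf
  have h0 : ((sW n l :: (rsN n l ++ [sV n l])) : List (Lb (n + 1) l)).Nodup := by
    have h := lns_nodupF (n + 1) l
    rwa [lns_succ hn] at h
  rw [lns_succ hn, List.cons_append, NB.Tt_self _ _ h0 _ _ (by rw [U1_W, lam_coe])]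
  congr 1
  have h1 : ∀ rs : List (Lb (n + 1) l), (∀ i ∈ rs, rap (U1 n (Real.pi / 8)) i = 0) →
      NB.LayR (sW n l) (rs ++ [sV n l]) lam (rap (U1 n (Real.pi / 8))) F =
      NB.LayR (sW n l) rs lam (fun _ => 0)
        (fun M => kk (2 * lam) * Mg (sW n l) (sV n l) (Sp (sW n l) (sV n l) F) M) := by
    intro rs hrs
    induction rs with
    | nil =>
      rw [List.nil_append, NB.LayR_cons, NB.LayR_nil, NB.LayR_nil, U1_V hn, lam_coe]
      funext M
      rw [show lam - -lam = 2 * lam by ring]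
      exact Rt_2lam (sWV hn) F M
    | cons r rs ih =>
      rw [List.cons_append, NB.LayR_cons, NB.LayR_cons, ih fun i hi => hrs i (List.mem_cons_of_mem _ hi),
        hrs r List.mem_cons_self]
  exact h1 _ fun i hi => U1_r _ hi

/-- `T(λ; λ, 0, .., 0, -λ) F` depends only on `D1 F`. -/
theorem Tf_dep (hn : 1 ≤ n) {F F' : Sts (n + 1) l → ℂ} (h : D1 F = D1 F') :
    Tf lam (U1 n (Real.pi / 8)) F = Tf lam (U1 n (Real.pi / 8)) F' := by
  rw [Tf_prod hn, Tf_prod hn]
  congr 2
  funext M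
  congr 1
  refine Mg_congr (sWV hn) fun N hN => ?_
  obtain ⟨m, rfl⟩ := up1_surj hN
  exact congrFun h m

end main

end Pool.Agent.CYL
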