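import Pool.Agent.CYL.N.NcG
import Pool.Agent.CYL.N.Cl
import Pool.Agent.CYL.P.Planar

set_option autoImplicit false

/-!
# CYL/N: planarity of the class of the `l`-leg sector, every `l`

`plaG`: `T(v; U)` preserves the functions supported on the `Chi`-states, and those which vanish on `ClsG`.
-/

namespace Pool.Agent.CYL.Pg

open Pool.Agent.BEX Pool.Agent.CYL.Pn

variable {L l : ℕ}

/-- order of the points at infinity -/
def ordO : Lb L l → ℤ := Sum.elim (fun _ => 0) fun j => (j.val : ℤ)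

theorem Oi_iff (x : Lb L l) : Oi x ↔ ∃ j : Fin l, x = Sum.inr j := Iff.rfl

theorem Oi_m (m : Sts L l) (i : Fin L) : Oi (m (Sum.inl i)) ↔ Thr m i := Iff.rfl

theorem lt_psPos {i k : Fin L} : psPos (Sum.inl i : Lb L l) < psPos (Sum.inl k : Lb L l) ↔ i < k := by
  show 2 * (i.val : ℤ) < 2 * (k.val : ℤ) ↔ i < k
  rw [Fin.lt_def]
  omega

theorem Rl_sites {m : Sts L l} {i k : Fin L} (h : i ≠ k) :
    Rl Oi m (Sum.inl i) (Sum.inl k) ↔ m (Sum.inl i) = Sum.inl k ∨ (Thr m i ∧ Thr m k) := by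
  unfold Rl
  constructor
  · rintro (e | e | e)
    · exact absurd (Sum.inl_injective e) h
    · exact Or.inl e
    · exact Or.inr e
  · rintro (e | e)
    · exact Or.inr (Or.inl e)
    · exact Or.inr (Or.inr e)

theorem gd_iff (m : Sts L l) : Gd Si psPos Oi ordO m ↔ G1 m ∧ G2 m ∧ G3 m := by
  constructor
  · rintro ⟨hn, hc⟩
    have key : ∀ a b c d : Fin L, a < b → b < c → c < d → (m (Sum.inl a) = Sum.inl c ∨ (Thr m a ∧ Thr m c)) →
        (m (Sum.inl b) = Sum.inl d ∨ (Thr m b ∧ Thr m d)) → m (Sum.inl a) = Sum.inl b ∨ (Thr m a ∧ Thr m b) := by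
      intro a b c d h1 h2 h3 e1 e2
      rw [← Rl_sites (ne_of_lt h1)]
      exact hn _ _ _ _ ⟨a, rfl⟩ ⟨b, rfl⟩ ⟨c, rfl⟩ ⟨d, rfl⟩ (lt_psPos.2 h1) (lt_psPos.2 h2) (lt_psPos.2 h3)
        ((Rl_sites (ne_of_lt (h1.trans h2))).2 e1) ((Rl_sites (ne_of_lt (h2.trans h3))).2 e2)
    have nthr : ∀ i k : Fin L, m (Sum.inl i) = Sum.inl k → ¬ Thr m i := by
      rintro i k e ⟨j, hj⟩
      rw [e] at hj
      exact absurd hj (by simp)
    refine ⟨?_, ?_, ?_⟩
    · intro i j k n hij hjk hkn e1 e2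
      rcases key i j k n hij hjk hkn (Or.inl e1) (Or.inl e2) with e | e
      · rw [e1] at e
        exact absurd (Sum.inl_injective e) (ne_of_gt hjk)
      · exact nthr _ _ e1 e.1
    · intro i k e a b ha hb hia hak
      have e' : m (Sum.inl k) = Sum.inl i := by rw [← e, m.inv]
      have hbi : b ≠ i := by
        rintro rfl
        exact nthr _ _ e hb
      have hbk : b ≠ k := by
        rintro rfl
        exact nthr _ _ e' hb
      constructor
      · rcases lt_trichotomy i b with g | g | g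
        · exact g
        · exact absurd g.symm hbi
        · exfalso
          rcases key b i a k g hia hak (Or.inr ⟨hb, ha⟩) (Or.inl e) with e2 | e2
          · exact nthr _ _ e2 hb
          · exact nthr _ _ e e2.2
      · rcases lt_trichotomy b k with g | g | g
        · exact g
        · exact absurd g hbk
        · exfalso
          rcases key i a k b hia hak g (Or.inl e) (Or.inr ⟨ha, hb⟩) with e2 | e2
          · rw [e] at e2
            exact absurd (Sum.inl_injective e2) (ne_of_gt hak)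
          · exact nthr _ _ e e2.1
    · intro j₁ j₂ j₃ h1 h2 a b c ha hb hc'
      have cy : ∀ (x y z : Fin L) (u v w : Fin l), m (Sum.inl x) = Sum.inr u → m (Sum.inl y) = Sum.inr v →
          m (Sum.inl z) = Sum.inr w → x < y → y < z → (u < v ∧ v < w) ∨ (v < w ∧ w < u) ∨ (w < u ∧ u < v) := by
        intro x y z u v w hx hy hz g1 g2
        have c := hc (Sum.inl x) (Sum.inl y) (Sum.inl z) ⟨x, rfl⟩ ⟨y, rfl⟩ ⟨z, rfl⟩ ⟨u, hx⟩ ⟨v, hy⟩ ⟨w, hz⟩
          (lt_psPos.2 g1) (lt_psPos.2 g2)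
        rw [hx, hy, hz] at c
        unfold Cyc at c
        have c' : ((u.val : ℤ) < v.val ∧ (v.val : ℤ) < w.val) ∨ ((v.val : ℤ) < w.val ∧ (w.val : ℤ) < u.val) ∨
            ((w.val : ℤ) < u.val ∧ (u.val : ℤ) < v.val) := c
        simp only [Fin.lt_def]
        omega
      have hab : a ≠ b := by
        rintro rfl
        rw [ha] at hb
        exact absurd (Sum.inr_injective hb) (ne_of_lt h1)
      have hbc : b ≠ c := by
        rintro rfl
        rw [hb] at hc'
        exact absurd (Sum.inr_injective hc') (ne_of_lt h2)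
      have hac : a ≠ c := by
        rintro rfl
        rw [ha] at hc'
        exact absurd (Sum.inr_injective hc') (ne_of_lt (h1.trans h2))
      have n1 : ¬ (a < c ∧ c < b) := by
        rintro ⟨g1, g2⟩
        have := cy a c b j₁ j₃ j₂ ha hc' hb g1 g2
        simp only [Fin.lt_def] at this h1 h2
        omega
      have n2 : ¬ (c < b ∧ b < a) := by
        rintro ⟨g1, g2⟩
        have := cy c b a j₃ j₂ j₁ hc' hb ha g1 g2
        simp only [Fin.lt_def] at this h1 h2
        omega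
      have n3 : ¬ (b < a ∧ a < c) := by
        rintro ⟨g1, g2⟩
        have := cy b a c j₂ j₁ j₃ hb ha hc' g1 g2
        simp only [Fin.lt_def] at this h1 h2
        omega
      have := Fin.val_ne_of_ne hab
      have := Fin.val_ne_of_ne hbc
      have := Fin.val_ne_of_ne hac
      simp only [Fin.lt_def] at n1 n2 n3 ⊢
      omega
  · rintro ⟨h1, h2, h3⟩
    constructor
    · rintro _ _ _ _ ⟨a, rfl⟩ ⟨b, rfl⟩ ⟨c, rfl⟩ ⟨d, rfl⟩ g1 g2 g3 e1 e2
      have g1' := lt_psPos.1 g1
      have g2' := lt_psPos.1 g2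
      have g3' := lt_psPos.1 g3
      rw [Rl_sites (ne_of_lt (g1'.trans g2'))] at e1
      rw [Rl_sites (ne_of_lt (g2'.trans g3'))] at e2
      rw [Rl_sites (ne_of_lt g1')]
      rcases e1 with e1 | e1
      · rcases e2 with e2 | e2
        · exact absurd (h1 a b c d g1' g2' g3' e1 e2) id
        · have := h2 a c e1 b d e2.1 e2.2 g1' g2'
          exact absurd (g3'.trans this.2) (lt_irrefl _)
      · rcases e2 with e2 | e2
        · have := h2 b d e2 c a e1.2 e1.1 g2' g3'
          exact absurd (g1'.trans this.1) (lt_irrefl _)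
        · exact Or.inr ⟨e1.1, e2.1⟩
    · rintro _ _ _ ⟨x, rfl⟩ ⟨y, rfl⟩ ⟨z, rfl⟩ ⟨u, hu⟩ ⟨v, hv⟩ ⟨w, hw⟩ g1 g2
      have g1' := lt_psPos.1 g1
      have g2' := lt_psPos.1 g2
      rw [hu, hv, hw]
      show ((u.val : ℤ) < v.val ∧ (v.val : ℤ) < w.val) ∨ ((v.val : ℤ) < w.val ∧ (w.val : ℤ) < u.val) ∨
            ((w.val : ℤ) < u.val ∧ (u.val : ℤ) < v.val)
      have huv : u ≠ v := by
        rintro rfl
        exact absurd (Sum.inl_injective (m.inj (hu.trans hv.symm))) (ne_of_lt g1')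
      have hvw : v ≠ w := by
        rintro rfl
        exact absurd (Sum.inl_injective (m.inj (hv.trans hw.symm))) (ne_of_lt g2')
      have huw : u ≠ w := by
        rintro rfl
        exact absurd (Sum.inl_injective (m.inj (hu.trans hw.symm))) (ne_of_lt (g1'.trans g2'))
      have n1 : ¬ (u < w ∧ w < v) := by
        rintro ⟨k1, k2⟩
        have := h3 u w v k1 k2 x z y hu hw hv
        simp only [Fin.lt_def] at this g1' g2'
        omega
      have n2 : ¬ (w < v ∧ v < u) := by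
        rintro ⟨k1, k2⟩
        have := h3 w v u k1 k2 z y x hw hv hu
        simp only [Fin.lt_def] at this g1' g2'
        omega
      have n3 : ¬ (v < u ∧ u < w) := by
        rintro ⟨k1, k2⟩
        have := h3 v u w k1 k2 y x z hv hu hw
        simp only [Fin.lt_def] at this g1' g2'
        omega
      have := Fin.val_ne_of_ne huv
      have := Fin.val_ne_of_ne hvw
      have := Fin.val_ne_of_ne huw
      simp only [Fin.lt_def] at n1 n2 n3
      omega

theorem gd_Tf (v : ℂ) (U : Fin L → ℂ) (F : Sts L l → ℂ) (hF : ∀ m, G1 m → G2 m → G3 m → F m = 0)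
    (m : Sts L l) (h1 : G1 m) (h2 : G2 m) (h3 : G3 m) : Tf v U F m = 0 := by
  have hlen : (lns L l).length = L := by
    unfold lns
    simp
  refine Tt_gd (O := Oi) (S := Si) (ps := psPos) (ord := ordO) ?_ ?_ ?_ ?_ (lns L l) ?_ ?_ v (rap U) F
    (fun n hn => ?_) m ((gd_iff m).2 ⟨h1, h2, h3⟩)
  · rintro _ ⟨i, rfl⟩ ⟨j, hj⟩
    exact absurd hj (by simp)
  · rintro _ _ ⟨i, rfl⟩ ⟨j, rfl⟩ h
    have g : (2 * (i.val : ℤ)) = 2 * (j.val : ℤ) := h
    congr 1
    apply Fin.ext
    omega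
  · rintro _ ⟨i, rfl⟩
    show (2 * (i.val : ℤ)) % 2 = 0
    omega
  · rintro _ ⟨i, rfl⟩
    show 0 ≤ 2 * (i.val : ℤ)
    omega
  · rintro _ ⟨i, rfl⟩
    rw [hlen]
    show 2 * (i.val : ℤ) < 2 * (L : ℤ)
    have := i.isLt
    omega
  · intro j hj
    have e : (lns L l)[j] = Sum.inl ⟨j, by rw [hlen] at hj; exact hj⟩ := by
      unfold lns
      simp
    rw [e]
    exact ⟨⟨_, rfl⟩, rfl⟩
  · obtain ⟨g1, g2, g3⟩ := (gd_iff n).1 hn
    exact hF n g1 g2 g3

end Pool.Agent.CYL.Pg

namespace Pool.Agent.CYL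

open Pool.Agent.BEX

variable {L l : ℕ}

/-- Planarity for the class `ClsG`. -/
structure PlaG (L l : ℕ) : Prop where
  sup : ∀ (v : ℂ) (U : Fin L → ℂ) (F : Sts L l → ℂ), Sup F → Sup (Tf v U F)
  cls : ∀ (v : ℂ) (U : Fin L → ℂ) (F : Sts L l → ℂ), Sup F → (∀ m, ClsG m → F m = 0) →
    ∀ m, ClsG m → Tf v U F m = 0

/-- **P2 for every `l`.** -/
theorem plaG : PlaG L l where
  sup := Pn.Sup_Tf
  cls := by
    intro v U F hF h0 m hm
    refine Pg.gd_Tf v U F (fun n h1 h2 h3 => ?_) m hm.g1 hm.g2 hm.g3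
    by_cases h : Chi n
    · exact h0 n ⟨h, h1, h2, h3⟩
    · exact hF n h

/-- Matrix form. -/
theorem plaG_Tm (U : Fin L → ℂ) (v : ℂ) (m m' : Sts L l) (hm : ClsG m) (h1 : Chi m') (h3 : ¬ ClsG m') :
    Tm v U m' m = 0 := by
  show Tf v U (Pi.single m' 1) m = 0
  refine plaG.cls v U _ ?_ ?_ m hm
  · intro n hn
    refine Pi.single_eq_of_ne ?_ 1
    rintro rfl
    exact hn h1
  · intro n hn
    refine Pi.single_eq_of_ne ?_ 1
    rintro rfl
    exact h3 hn

end Pool.Agent.CYL
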