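import Pool.Agent.CYL.P.PosB
import Pool.Agent.CYL.N.Def
import Pool.Agent.CYL.N.Br

/-!
# CYL for all L (note 3190): positivity for one pair, `π / 16 ≤ w < π / 8`

`n + 1` sites, `U1 n w = (w, 0, .., 0, -w)`. `RotPos A`: the operator `A` is nonnegative, and `A F m > 0` as soon as
`F > 0` at the rotated state or at a state obtained from it by a move at the places `n`, `0`. Then the power `n + 1` of
`A` realises the identity and all moves.
-/

set_option autoImplicit false
set_option linter.unusedVariables false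
set_option linter.unusedSectionVars false

namespace Pool.Agent.CYL

open Complex Finset
open Pool.Agent.BEX
open scoped ComplexOrder

namespace PN

open PB

variable {n l : ℕ}

/-- the site `0` -/
abbrev sW (n l : ℕ) : Lb (n + 1) l := Sum.inl ⟨0, Nat.succ_pos n⟩

/-- the site `n` -/
abbrev sV (n l : ℕ) : Lb (n + 1) l := Sum.inl ⟨n, Nat.lt_succ_self n⟩

/-- positivity of an operator: rotation, and one move at the places `n`, `0` -/
structure RotPos (A : (Sts (n + 1) l → ℂ) → Sts (n + 1) l → ℂ) : Prop where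
  nn : ∀ F : Sts (n + 1) l → ℂ, (∀ m, 0 ≤ F m) → ∀ m, 0 ≤ A F m
  sh : ∀ F : Sts (n + 1) l → ℂ, (∀ m, 0 ≤ F m) → ∀ m, 0 < F (rl (ta (n + 1) l) m) → 0 < A F m
  mv : ∀ F : Sts (n + 1) l → ℂ, (∀ m, 0 ≤ F m) → ∀ m m', Mr (sV n l) (sW n l) (rl (ta (n + 1) l) m) m' →
    0 < F m' → 0 < A F m

variable {A : (Sts (n + 1) l → ℂ) → Sts (n + 1) l → ℂ}

theorem iter_nn (h : RotPos A) {F : Sts (n + 1) l → ℂ} (hF : ∀ m, 0 ≤ F m) (k : ℕ) :
    ∀ m, 0 ≤ (A^[k] F) m := by
  induction k with
  | zero => exact hF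
  | succ k ih =>
    intro m
    rw [Function.iterate_succ_apply']
    exact h.nn _ ih m

theorem iter_shift (h : RotPos A) {F : Sts (n + 1) l → ℂ} (hF : ∀ m, 0 ≤ F m) (k : ℕ)
    (m : Sts (n + 1) l) (hpos : 0 < F (rl (ta (n + 1) l ^ k) m)) : 0 < (A^[k] F) m := by
  induction k generalizing m with
  | zero => exact hpos
  | succ k ih =>
    rw [Function.iterate_succ_apply']
    apply h.sh _ (iter_nn h hF k)
    apply ih
    rw [← rl_mul, ← pow_succ]
    exact hpos

theorem step_of (h : RotPos A) (F : Sts (n + 1) l → ℂ) (hF : ∀ m, 0 ≤ F m)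
    (m m' : Sts (n + 1) l) (hmm' : m = m' ∨ Stp m m') (hpos : 0 < F m') :
    0 < (A^[n + 1] F) m := by
  rcases hmm' with rfl | hst
  · apply iter_shift h hF
    rw [ta_pow_L, rl_one]
    exact hpos
  · obtain ⟨i, hi⟩ := mr_of_stp hst
    -- `k` rotations bring the site `i` to the place `n`
    obtain ⟨k, hk1, hk2, hk3⟩ : ∃ k, 1 ≤ k ∧ k ≤ n + 1 ∧ ad i k = ⟨n, Nat.lt_succ_self n⟩ := by
      rcases Nat.lt_or_ge i.val n with hin | hin
      · refine ⟨n - i.val, by omega, by omega, ?_⟩
        apply Fin.ext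
        rw [ad_val]
        show (i.val + (n - i.val)) % (n + 1) = n
        rw [Nat.add_sub_cancel' hin.le, Nat.mod_eq_of_lt (Nat.lt_succ_self n)]
      · refine ⟨n + 1, by omega, le_rfl, ?_⟩
        have := ad_add_L i 0
        rw [Nat.zero_add, ad_zero] at this
        rw [this]
        apply Fin.ext
        have := i.isLt
        show i.val = n
        omega
    have e1 : n + 1 = (k - 1) + ((n + 1 - k) + 1) := by omega
    have e2 : A^[n + 1] F = A^[k - 1] (A (A^[n + 1 - k] F)) :=
      (congrArg (fun j => A^[j] F) e1).trans ((Function.iterate_add_apply A _ _ F).trans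
        (congrArg _ (Function.iterate_succ_apply' A _ F)))
    rw [e2]
    have hnn := iter_nn h hF (n + 1 - k)
    apply iter_shift h (h.nn _ hnn)
    apply h.mv _ hnn _ (rl (ta (n + 1) l ^ k) m')
    · have h1 := Mr_rl (ta (n + 1) l ^ k) hi
      rw [ta_pow_inl, ta_pow_inl, ad_ad, Nat.add_comm 1 k, ← ad_ad, hk3] at h1
      have h2 : (ad (⟨n, Nat.lt_succ_self n⟩ : Fin (n + 1)) 1) = ⟨0, Nat.succ_pos n⟩ := by
        apply Fin.ext
        rw [ad_val]
        exact Nat.mod_self (n + 1)
      rw [h2] at h1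
      have h3 : rl (ta (n + 1) l) (rl (ta (n + 1) l ^ (k - 1)) m) = rl (ta (n + 1) l ^ k) m := by
        rw [← rl_mul, ← pow_succ', Nat.sub_add_cancel hk1]
      rw [h3]
      exact h1
    · apply iter_shift h hF
      rw [← rl_mul, ← pow_add, Nat.sub_add_cancel hk2, ta_pow_L, rl_one]
      exact hpos

/-! ### the list of the sites -/

/-- the site `j + 1` -/
def st (n l j : ℕ) : Lb (n + 1) l :=
  if h : j + 1 < n + 1 then Sum.inl ⟨j + 1, h⟩ else Sum.inl ⟨0, Nat.succ_pos n⟩

theorem st_eq {n l j : ℕ} (h : j + 1 < n + 1) : st n l j = Sum.inl ⟨j + 1, h⟩ := by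
  unfold st; rw [dif_pos h]

/-- the sites `1, .., n - 1` -/
def zs (n l : ℕ) : List (Lb (n + 1) l) := (List.range (n - 1)).map (st n l)

theorem zs_length : (zs n l).length = n - 1 := by simp [zs]

theorem lns_eq (hn : 1 ≤ n) : lns (n + 1) l = sW n l :: (zs n l ++ [sV n l]) := by
  apply List.ext_getElem
  · simp [lns, zs]
    omega
  · intro i h1 h2
    have hi : i < n + 1 := by simpa [lns] using h1
    have e1 : (lns (n + 1) l)[i] = Sum.inl ⟨i, hi⟩ := by simp [lns]
    rw [e1]
    rcases Nat.eq_zero_or_pos i with rfl | hpos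
    · rfl
    · obtain ⟨j, rfl⟩ : ∃ j, i = j + 1 := ⟨i - 1, by omega⟩
      rw [List.getElem_cons_succ]
      rcases Nat.lt_or_ge j (n - 1) with hj | hj
      · rw [List.getElem_append_left (by rw [zs_length]; exact hj)]
        simp only [zs, List.getElem_map, List.getElem_range]
        rw [st_eq (by omega)]
      · have hj' : j = n - 1 := by omega
        rw [List.getElem_append_right (by rw [zs_length]; exact hj)]
        rw [List.getElem_singleton]
        congr 1
        apply Fin.ext
        show j + 1 = n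
        omega

/-- the permutation of the exchanges of `W` with the sites `1, .., k` -/
def sgW (n l : ℕ) : ℕ → Equiv.Perm (Lb (n + 1) l)
  | 0 => 1
  | k + 1 => Equiv.swap (sW n l) (st n l k) * sgW n l k

theorem swl_range (m : Sts (n + 1) l) (k : ℕ) :
    NB.swl (sW n l) ((List.range k).map (st n l)) m = rl (sgW n l k) m := by
  induction k with
  | zero => rfl
  | succ k ih =>
    unfold NB.swl at ih ⊢
    rw [List.range_succ, List.map_append, List.foldl_append, ih]
    rfl

theorem inl_ne' {i j : Fin (n + 1)} (h : i.val ≠ j.val) : (Sum.inl i : Lb (n + 1) l) ≠ Sum.inl j :=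
  fun e => h (congrArg Fin.val (Sum.inl_injective e))

theorem sgW_inr (k : ℕ) (hk : k ≤ n) (j : Fin l) : sgW n l k (Sum.inr j) = Sum.inr j := by
  induction k with
  | zero => rfl
  | succ k ih =>
    rw [sgW, Equiv.Perm.mul_apply, ih (by omega), st_eq (by omega),
      Equiv.swap_apply_of_ne_of_ne (by simp) (by simp)]

theorem sgW_gt (k : ℕ) (hk : k ≤ n) (j : Fin (n + 1)) (hj : k < j.val) :
    sgW n l k (Sum.inl j) = Sum.inl j := by
  induction k with
  | zero => rfl
  | succ k ih =>
    rw [sgW, Equiv.Perm.mul_apply, ih (by omega) (by omega), st_eq (by omega)]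
    apply Equiv.swap_apply_of_ne_of_ne
    · apply inl_ne'
      show j.val ≠ 0
      omega
    · apply inl_ne'
      show j.val ≠ k + 1
      omega

theorem sgW_eq (k : ℕ) (hk : k ≤ n) : sgW n l k (Sum.inl ⟨k, by omega⟩) = sW n l := by
  rcases Nat.eq_zero_or_pos k with rfl | hpos
  · rfl
  · obtain ⟨j, rfl⟩ : ∃ j, k = j + 1 := ⟨k - 1, by omega⟩
    rw [sgW, Equiv.Perm.mul_apply, sgW_gt j (by omega) ⟨j + 1, by omega⟩ (Nat.lt_succ_self j),
      st_eq (by omega)]
    exact Equiv.swap_apply_right _ _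

theorem sgW_lt (k : ℕ) (hk : k ≤ n) (j : Fin (n + 1)) (hj : j.val < k) :
    sgW n l k (Sum.inl j) = Sum.inl ⟨j.val + 1, by omega⟩ := by
  induction k with
  | zero => omega
  | succ k ih =>
    rw [sgW, Equiv.Perm.mul_apply, st_eq (by omega)]
    rcases Nat.lt_or_ge j.val k with h | h
    · rw [ih (by omega) h]
      apply Equiv.swap_apply_of_ne_of_ne
      · apply inl_ne'
        show j.val + 1 ≠ 0
        omega
      · apply inl_ne'
        show j.val + 1 ≠ k + 1
        omega
    · have hjk : j.val = k := by omega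
      have e : j = ⟨k, by omega⟩ := Fin.ext hjk
      have e2 : sgW n l k (Sum.inl j) = sW n l := by rw [e]; exact sgW_eq k (by omega)
      rw [e2]
      have e3 : (⟨j.val + 1, by omega⟩ : Fin (n + 1)) = ⟨k + 1, by omega⟩ := Fin.ext (by simp [hjk])
      rw [e3]
      exact Equiv.swap_apply_left _ _

theorem sgW_full : sgW n l n = ta (n + 1) l := by
  apply Equiv.ext
  rintro (j | j)
  · rw [ta_inl]
    rcases Nat.lt_or_ge j.val n with h | h
    · rw [sgW_lt n le_rfl j h]
      congr 1
      apply Fin.ext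
      rw [ad_val, Nat.mod_eq_of_lt (by omega)]
    · have hj : j = ⟨n, Nat.lt_succ_self n⟩ := Fin.ext (by have := j.isLt; show j.val = n; omega)
      subst hj
      rw [sgW_eq n le_rfl]
      show (Sum.inl (⟨0, Nat.succ_pos n⟩ : Fin (n + 1)) : Lb (n + 1) l) = Sum.inl _
      congr 1
      apply Fin.ext
      rw [ad_val]
      exact (Nat.mod_self (n + 1)).symm
  · rw [sgW_inr n le_rfl]
    rfl

theorem swl_zs (hn : 1 ≤ n) (m : Sts (n + 1) l) :
    (NB.swl (sW n l) (zs n l) m).sw (sW n l) (sV n l) = rl (ta (n + 1) l) m := by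
  rw [← sgW_full]
  obtain ⟨k, rfl⟩ : ∃ k, n = k + 1 := ⟨n - 1, by omega⟩
  have e : zs (k + 1) l = (List.range k).map (st (k + 1) l) := rfl
  rw [e, swl_range]
  have h1 : st (k + 1) l k = sV (k + 1) l := st_eq (by omega)
  show _ = rl (Equiv.swap (sW (k + 1) l) (st (k + 1) l k) * sgW (k + 1) l k) m
  rw [rl_mul, h1]
  rfl

/-! ### the operator -/

theorem foldr_replicate {α : Type*} {β : Type*} (f : α → β → β) (a : α) (b : β) (k : ℕ) :
    (List.replicate k a).foldr f b = (f a)^[k] b := by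
  induction k with
  | zero => rfl
  | succ k ih => rw [List.replicate_succ, List.foldr_cons, ih, Function.iterate_succ_apply']

theorem Tfl_vsB (w : ℝ) (U : Fin (n + 1) → ℂ) (F : Sts (n + 1) l → ℂ) :
    Tfl (vsB n w) U F = (Tf lam U)^[n - 1] (Tf (w : ℂ) U F) := by
  unfold Tfl vsB
  rw [List.foldr_append, foldr_replicate]
  rfl

theorem iter_smul (U : Fin (n + 1) → ℂ) (c : ℂ) (G : Sts (n + 1) l → ℂ) (k : ℕ) :
    (Tf lam U)^[k] (c • G) = c • (Tf lam U)^[k] G := by
  induction k with
  | zero => rfl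
  | succ k ih =>
    rw [Function.iterate_succ_apply', ih, Function.iterate_succ_apply']
    exact Tt_smul _ _ _ _ _

theorem sw_left' {κ : Type*} [DecidableEq κ] (p q : κ) (m : St κ) : m.sw p q p = p ↔ m q = q := by
  rw [St.sw_apply, Equiv.swap_apply_left]
  constructor
  · intro h
    have := congrArg (Equiv.swap p q) h
    simpa using this
  · intro h
    rw [h, Equiv.swap_apply_right]

theorem sw_right' {κ : Type*} [DecidableEq κ] (p q : κ) (m : St κ) : m.sw p q q = q ↔ m p = p := by
  rw [St.sw_apply, Equiv.swap_apply_right]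
  constructor
  · intro h
    have := congrArg (Equiv.swap p q) h
    simpa using this
  · intro h
    rw [h, Equiv.swap_apply_left]

theorem sw_cp_same {κ : Type*} [DecidableEq κ] {p q : κ} {m : St κ} (hpq : p ≠ q) (hp : m p ≠ p)
    (hq : m q ≠ q) (h : m p ≠ q) : (m.sw p q).cp p q = m.cp p q := by
  have h' : m q ≠ p := fun e => h (by rw [← e, m.inv])
  have e1 : (m.sw p q) p = m q := by
    rw [St.sw_apply, Equiv.swap_apply_left, Equiv.swap_apply_of_ne_of_ne h' hq]
  have e2 : (m.sw p q) q = m p := by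
    rw [St.sw_apply, Equiv.swap_apply_right, Equiv.swap_apply_of_ne_of_ne hp h]
  refine St.ext' fun x => ?_
  rw [St.cp_apply _ _ _ _ (by rw [e1]; exact h') (by rw [e2]; exact h), St.cp_apply _ _ _ _ hp hq, e1, e2]
  by_cases h1 : x = p
  · rw [if_pos h1, if_pos h1]
  by_cases h2 : x = q
  · rw [if_neg h1, if_pos h2, if_neg h1, if_pos h2]
  rw [if_neg h1, if_neg h2, if_neg h1, if_neg h2]
  have hne : m p ≠ m q := fun e => hpq (m.inj e)
  by_cases h3 : x = m q
  · rw [if_pos h3, if_neg (by rw [h3]; exact hne.symm), if_pos h3]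
  by_cases h4 : x = m p
  · rw [if_neg h3, if_pos h4, if_pos h4]
  rw [if_neg h3, if_neg h4, if_neg h4, if_neg h3, St.sw_apply, Equiv.swap_apply_of_ne_of_ne h1 h2,
    Equiv.swap_apply_of_ne_of_ne]
  · intro e; exact h4 (by rw [← e, m.inv])
  · intro e; exact h3 (by rw [← e, m.inv])

end PN

open PN PB in
/-- Positivity of the product of transfer matrices for one pair, `π / 16 ≤ w < π / 8`. -/
theorem posN {n l : ℕ} (hn : 1 ≤ n) {w : ℝ} (h1 : Real.pi / 16 ≤ w) (h2 : w < Real.pi / 8) :
    PosOpL l (n + 1) (vsB n w) (U1 n w) := by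
  have hpi := Real.pi_pos
  set U : Lb (n + 1) l → ℂ := rap (U1 n w) with hU
  have hUW : U (sW n l) = (w : ℂ) := by
    show U1 n w ⟨0, Nat.succ_pos n⟩ = _
    unfold U1
    rw [if_pos rfl]
  have hUV : U (sV n l) = -(w : ℂ) := by
    show U1 n w ⟨n, Nat.lt_succ_self n⟩ = _
    unfold U1
    rw [if_neg (by show n ≠ 0; omega), if_pos rfl]
  have hUz : ∀ z ∈ ([] : List (Lb (n + 1) l)) ++ zs n l, U z = 0 := by
    intro z hz
    rw [List.nil_append] at hz
    unfold zs at hz
    rw [List.mem_map] at hz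
    obtain ⟨j, hj, rfl⟩ := hz
    rw [List.mem_range] at hj
    rw [st_eq (by omega)]
    show U1 n w ⟨j + 1, _⟩ = 0
    unfold U1
    rw [if_neg (by show j + 1 ≠ 0; omega), if_neg (by show j + 1 ≠ n; omega)]
  have hlamV : Wt (lam - U (sV n l)) := by
    rw [hUV]
    have e : lam - -(w : ℂ) = ((Real.pi / 8 + w : ℝ) : ℂ) := by unfold lam; push_cast; ring
    rw [e]
    exact wt_of (by linarith) (by linarith)
  have hwV : Wt ((w : ℂ) - U (sV n l)) := by
    rw [hUV]
    have e : (w : ℂ) - -(w : ℂ) = ((2 * w : ℝ) : ℂ) := by push_cast; ring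
    rw [e]
    exact wt_of (by linarith) (by linarith)
  have hlam : Wt lam := by
    have e : lam = ((Real.pi / 8 : ℝ) : ℂ) := by unfold lam; push_cast; ring
    rw [e]
    exact wt_of le_rfl (by linarith)
  have hnd : (([] : List (Lb (n + 1) l)) ++ sW n l :: (zs n l ++ [sV n l])).Nodup := by
    rw [List.nil_append, ← lns_eq hn]
    exact (List.nodup_finRange _).map Sum.inl_injective
  have hch := fun F : Sts (n + 1) l → ℂ => fun hF : ∀ m, 0 ≤ F m =>
    NB.chain (W := sW n l) (V := sV n l) (by linarith : 0 < w) (by unfold lr; exact h2) hUW hlamV hwV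
      hlam (zs n l) [] hnd hUz F hF
  have hc : (0 : ℂ) < sin (2 * lam) * sin (3 * lam) := by
    have e := w2_zero_pos
    unfold w2 at e
    rwa [sub_zero] at e
  have hA : ∀ F : Sts (n + 1) l → ℂ, ∀ m, Tfl (vsB n w) (U1 n w) F m =
      (sin (2 * lam) * sin (3 * lam)) *
        (Tt (([] : List (Lb (n + 1) l)) ++ sW n l :: (zs n l ++ [sV n l])) lam U)^[(zs n l).length]
          (NB.LayR (sW n l) (zs n l ++ [sV n l]) (w : ℂ) U F) m := by
    intro F m
    have e0 : Tf (w : ℂ) (U1 n w) F = (sin (2 * lam) * sin (3 * lam)) •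
        NB.LayR (sW n l) (zs n l ++ [sV n l]) (w : ℂ) U F := by
      unfold Tf
      rw [lns_eq hn]
      rw [List.nil_append] at hnd
      exact NB.Tt_self _ _ hnd _ _ hUW F
    rw [Tfl_vsB, e0, iter_smul, zs_length]
    have e1 : (Tf (l := l) lam (U1 n w)) =
        Tt (([] : List (Lb (n + 1) l)) ++ sW n l :: (zs n l ++ [sV n l])) lam U := by
      funext G
      unfold Tf
      rw [lns_eq hn, List.nil_append]
    rw [e1]
    rfl
  have hrot : RotPos (Tfl (l := l) (vsB n w) (U1 n w)) := by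
    refine ⟨fun F hF m => ?_, fun F hF m hpos => ?_, fun F hF m m' hm hpos => ?_⟩
    · rw [hA]
      exact mul_nonneg hc.le ((hch F hF).1 m)
    · rw [hA]
      apply mul_pos hc
      apply (hch F hF).2
      apply Rt_sw_pos (Or.inr hwV) _ _ hF
      rw [swl_zs hn]
      exact hpos
    · rw [hA]
      apply mul_pos hc
      apply (hch F hF).2
      have hR := swl_zs (l := l) hn m
      set M := NB.swl (sW n l) (zs n l) m with hM
      have hne : (sW n l) ≠ (sV n l) := by
        apply inl_ne'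
        show 0 ≠ n
        omega
      rw [← hR] at hm
      rcases hm with ⟨k1, k2, rfl⟩ | ⟨k1, k2, rfl⟩ | ⟨k1, k2, k3, rfl⟩
      · rw [Far.sw_comm', sw_invol] at hpos
        have c1 : M (sW n l) ≠ sW n l := fun e => k1 ((sw_right' _ _ _).2 e)
        have c2 : M (sV n l) = sV n l := (sw_left' _ _ _).1 k2
        exact Rt_stay_pos hwV _ _ hF M c1 c2 hpos
      · have c1 : M (sW n l) = sW n l := (sw_right' _ _ _).1 k1
        have c2 : M (sV n l) = sV n l := (sw_left' _ _ _).1 k2
        rw [sw_emp c1 c2] at hpos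
        rw [Far.jn_comm' c2 c1] at hpos
        exact Rt_jn_pos hwV _ _ hF M c1 c2 hpos
      · have c1 : M (sW n l) ≠ sW n l := fun e => k1 ((sw_right' _ _ _).2 e)
        have c2 : M (sV n l) ≠ sV n l := fun e => k2 ((sw_left' _ _ _).2 e)
        have c3 : M (sW n l) ≠ sV n l := by
          intro e
          apply k3
          rw [sw_join e, ← e, M.inv]
        have c4 : (M.sw (sW n l) (sV n l)).cp (sV n l) (sW n l) = M.cp (sW n l) (sV n l) := by
          rw [Far.cp_comm' k1 k2, sw_cp_same hne c1 c2 c3]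
        rw [c4] at hpos
        exact Rt_cp_pos hwV _ _ hF M c1 c2 c3 hpos
  exact ⟨hrot.nn, fun F hF m m' hmm' hpos => step_of hrot F hF m m' hmm' hpos⟩

end Pool.Agent.CYL
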