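import Pool.Agent.CYL.P.Prim
import Pool.Agent.CYL.N.Def

/-!
# CYL for all L: primitivity for a product of transfer matrices

`Stab Op` : the operator `Op` on functions of the state preserves `Sup`, and on the class it is
given by its matrix `MatOf Op` on the class (planarity). `PosG k Op` : positivity of `Op` and of the
moves of its `k`-th power.
-/

set_option autoImplicit false

namespace Pool.Agent.CYL

open Complex Finset Matrix
open Pool.Agent.BEX
open scoped ComplexOrder

section Gen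

variable {L l : ℕ}

/-- matrix of an operator on the class -/
def MatOf (Op : (Sts L l → ℂ) → Sts L l → ℂ) : Matrix (Kc L l) (Kc L l) ℂ :=
  Matrix.of fun i j => Op (Pi.single i.1 1) j.1

/-- its real part -/
def MatRe (Op : (Sts L l → ℂ) → Sts L l → ℂ) : Matrix (Kc L l) (Kc L l) ℝ :=
  Matrix.of fun i j => (Op (Pi.single i.1 1) j.1).re

/-- on functions supported by the `Chi`-states and on the class, `Op` is its matrix -/
structure Stab (Op : (Sts L l → ℂ) → Sts L l → ℂ) : Prop where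
  sup : ∀ F, Sup F → Sup (Op F)
  eq : ∀ F, Sup F → ∀ j : Kc L l, Op F j.1 = ∑ i : Kc L l, F i.1 * MatOf Op i j

theorem Stab.of_mat {Op : (Sts L l → ℂ) → Sts L l → ℂ} {M : Matrix (Kc L l) (Kc L l) ℂ}
    (hs : ∀ F, Sup F → Sup (Op F))
    (he : ∀ F, Sup F → ∀ j : Kc L l, Op F j.1 = ∑ i : Kc L l, F i.1 * M i j) :
    Stab Op ∧ MatOf Op = M := by
  have h1 : MatOf Op = M := by
    ext i j
    show Op (Pi.single i.1 1) j.1 = M i j
    rw [he _ (Sup_single i.2.1) j, Finset.sum_eq_single i]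
    · rw [Pi.single_eq_same, one_mul]
    · intro h _ hne
      rw [Pi.single_apply, if_neg, zero_mul]
      exact fun h' => hne (Subtype.ext h')
    · intro h
      exact absurd (Finset.mem_univ i) h
  refine ⟨⟨hs, ?_⟩, h1⟩
  rw [h1]
  exact he

theorem stab_Tf (hpl : Pla L l) (v : ℂ) (U : Fin L → ℂ) :
    Stab (Tf (l := l) v U) ∧ MatOf (Tf (l := l) v U) = Tc v U := by
  refine Stab.of_mat (hpl.sup v U) fun F hF j => ?_
  have h1 := (iter_Tc hpl v U 1 hF).2 j
  simpa using h1

theorem stab_id : Stab (fun F : Sts L l → ℂ => F) ∧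
    MatOf (fun F : Sts L l → ℂ => F) = (1 : Matrix (Kc L l) (Kc L l) ℂ) := by
  refine Stab.of_mat (fun F h => h) fun F hF j => ?_
  simp [Matrix.one_apply]

theorem Stab.comp {Op Op' : (Sts L l → ℂ) → Sts L l → ℂ} (h : Stab Op) (h' : Stab Op') :
    Stab (fun F => Op (Op' F)) ∧ MatOf (fun F => Op (Op' F)) = MatOf Op' * MatOf Op := by
  refine Stab.of_mat (fun F hF => h.sup _ (h'.sup _ hF)) fun F hF j => ?_
  rw [h.eq _ (h'.sup _ hF)]
  calc ∑ i : Kc L l, Op' F i.1 * MatOf Op i j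
      = ∑ i : Kc L l, ∑ k : Kc L l, F k.1 * (MatOf Op' k i * MatOf Op i j) := by
        refine Finset.sum_congr rfl fun i _ => ?_
        rw [h'.eq _ hF, Finset.sum_mul]
        exact Finset.sum_congr rfl fun k _ => by ring
    _ = ∑ k : Kc L l, F k.1 * (MatOf Op' * MatOf Op) k j := by
        rw [Finset.sum_comm]
        refine Finset.sum_congr rfl fun k _ => ?_
        rw [mul_apply, Finset.mul_sum]

theorem Stab.iter {Op : (Sts L l → ℂ) → Sts L l → ℂ} (h : Stab Op) (n : ℕ) :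
    Stab (Op^[n]) ∧ MatOf (Op^[n]) = MatOf Op ^ n := by
  induction n with
  | zero =>
    rw [pow_zero]
    exact stab_id
  | succ n ih =>
    have h1 := h.comp ih.1
    have h2 : (fun F => Op (Op^[n] F)) = Op^[n + 1] := by
      funext F
      rw [Function.iterate_succ_apply']
    rw [h2] at h1
    rw [pow_succ, ← ih.2]
    exact h1

/-- the class matrix of the product of the `T(v; U)`, `v ∈ vs` -/
noncomputable def TcL (vs : List ℂ) (U : Fin L → ℂ) : Matrix (Kc L l) (Kc L l) ℂ :=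
  vs.foldr (fun v M => M * Tc v U) 1

theorem stab_Tfl (hpl : Pla L l) (vs : List ℂ) (U : Fin L → ℂ) :
    Stab (Tfl (l := l) vs U) ∧ MatOf (Tfl (l := l) vs U) = TcL vs U := by
  induction vs with
  | nil => exact stab_id
  | cons v vs ih =>
    have h1 := (stab_Tf hpl v U).1.comp ih.1
    have h2 : (fun F => Tf v U (Tfl vs U F)) = Tfl (l := l) (v :: vs) U := rfl
    rw [h2, ih.2, (stab_Tf hpl v U).2] at h1
    exact h1

theorem TcL_comm (hpl : Pla L l) (hc : Comm L l) (vs : List ℂ) (v : ℂ) (U : Fin L → ℂ) :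
    Tc (l := l) v U * TcL vs U = TcL vs U * Tc v U := by
  induction vs with
  | nil =>
    show Tc (l := l) v U * 1 = 1 * Tc v U
    rw [mul_one, one_mul]
  | cons v' vs ih =>
    show Tc (l := l) v U * (TcL vs U * Tc v' U) = TcL vs U * Tc v' U * Tc v U
    rw [← mul_assoc, ih, mul_assoc, mul_assoc, Tc_comm hpl hc v v' U]

/-- `Op` is real and nonnegative on the class -/
def NnG (Op : (Sts L l → ℂ) → Sts L l → ℂ) : Prop :=
  ∀ i j : Kc L l, MatOf Op i j = ((MatRe Op i j : ℝ) : ℂ) ∧ 0 ≤ MatRe Op i j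

theorem NnG.map {Op : (Sts L l → ℂ) → Sts L l → ℂ} (h : NnG Op) :
    (MatRe Op).map (Complex.ofReal) = MatOf Op := by
  ext i j
  rw [Matrix.map_apply]
  exact (h i j).1.symm

theorem NnG.pow {Op : (Sts L l → ℂ) → Sts L l → ℂ} (h : NnG Op) (n : ℕ) :
    ((MatRe Op) ^ n).map (Complex.ofReal) = MatOf Op ^ n := by
  induction n with
  | zero =>
    rw [pow_zero, pow_zero]
    exact Matrix.map_one _ Complex.ofReal_zero Complex.ofReal_one
  | succ n ih =>
    rw [pow_succ, pow_succ, ← ih, ← h.map]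
    ext i j
    simp only [Matrix.map_apply, mul_apply]
    push_cast
    rfl

/-- positivity of an operator and of the moves of its `k`-th power -/
structure PosG (k : ℕ) (Op : (Sts L l → ℂ) → Sts L l → ℂ) : Prop where
  nonneg : ∀ F : Sts L l → ℂ, (∀ m, 0 ≤ F m) → ∀ m, 0 ≤ Op F m
  step : ∀ F : Sts L l → ℂ, (∀ m, 0 ≤ F m) → ∀ m m', (m = m' ∨ Stp m m') → 0 < F m' →
    0 < (Op^[k] F) m

theorem PosG.nn {k : ℕ} {Op : (Sts L l → ℂ) → Sts L l → ℂ} (h : PosG k Op) : NnG Op := by
  intro m' m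
  have h1 : 0 ≤ Op (Pi.single m'.1 1) m.1 := by
    refine h.nonneg _ (fun n => ?_) _
    rw [Pi.single_apply]
    split_ifs
    · exact zero_le_one
    · exact le_refl _
  obtain ⟨h2, h3⟩ := Complex.nonneg_iff.1 h1
  refine ⟨?_, h2⟩
  show Op (Pi.single m'.1 1) m.1 = (((Op (Pi.single m'.1 1) m.1).re : ℝ) : ℂ)
  apply Complex.ext
  · simp
  · simp [← h3]

theorem PosG.iter_nonneg {k : ℕ} {Op : (Sts L l → ℂ) → Sts L l → ℂ} (h : PosG k Op)
    {F : Sts L l → ℂ} (hF : ∀ m, 0 ≤ F m) (n : ℕ) : ∀ m, 0 ≤ (Op^[n] F) m := by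
  induction n with
  | zero => exact hF
  | succ n ih =>
    rw [Function.iterate_succ_apply']
    exact h.nonneg _ ih

/-- primitivity from positivity of the moves -/
theorem primG {Op : (Sts L l → ℂ) → Sts L l → ℂ} (hst : Stab Op) {k : ℕ} (hk : 0 < k)
    (h : PosG k Op)
    (hr : ∀ m m' : Sts L l, Cls m → Cls m' → Relation.ReflTransGen Stp m m') :
    (MatRe Op).IsPrimitive := by
  have hnn : ∀ i j : Kc L l, 0 ≤ MatRe Op i j := fun i j => (h.nn i j).2
  have hs : ∀ i : Kc L l, ∀ m, 0 ≤ (Pi.single i.1 1 : Sts L l → ℂ) m := by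
    intro i m
    rw [Pi.single_apply]
    split_ifs
    · exact zero_le_one
    · exact le_refl _
  have h1 : ∀ i : Kc L l, ∀ m : Sts L l, Relation.ReflTransGen Stp m i.1 →
      ∃ n, 0 < (Op^[k * n] (Pi.single i.1 1)) m := by
    intro i m hm
    induction hm using Relation.ReflTransGen.head_induction_on with
    | refl => exact ⟨0, by simp⟩
    | head hab _ ih =>
      obtain ⟨n, hn⟩ := ih
      refine ⟨n + 1, ?_⟩
      rw [mul_add, mul_one, add_comm, Function.iterate_add_apply]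
      exact h.step _ (h.iter_nonneg (hs i) _) _ _ (Or.inr hab) hn
  have h2 : ∀ (i : Kc L l) (m : Sts L l) (n n' : ℕ), n ≤ n' →
      0 < (Op^[k * n] (Pi.single i.1 1)) m → 0 < (Op^[k * n'] (Pi.single i.1 1)) m := by
    intro i m n n' hnn'
    induction n', hnn' using Nat.le_induction with
    | base => exact fun h => h
    | succ n' _ ih =>
      intro h3
      rw [mul_add, mul_one, add_comm, Function.iterate_add_apply]
      exact h.step _ (h.iter_nonneg (hs i) _) _ _ (Or.inl rfl) (ih h3)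
  have h3 : ∀ p : Kc L l × Kc L l, ∃ n, 0 < (Op^[k * n] (Pi.single p.1.1 1)) p.2.1 :=
    fun p => h1 p.1 p.2.1 (hr _ _ p.2.2 p.1.2)
  choose f hf using h3
  refine ⟨hnn, k * ((∑ p, f p) + 1), Nat.mul_pos hk (Nat.succ_pos _), fun i j => ?_⟩
  have h4 := h2 i j.1 (f (i, j)) ((∑ p, f p) + 1)
    (le_trans (Finset.single_le_sum (f := f) (fun _ _ => Nat.zero_le _)
      (Finset.mem_univ (i, j))) (Nat.le_succ _)) (hf (i, j))
  have h5 : (Op^[k * ((∑ p, f p) + 1)] (Pi.single i.1 1)) j.1 =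
      MatOf (Op^[k * ((∑ p, f p) + 1)]) i j := rfl
  rw [h5, (hst.iter _).2, ← h.nn.pow, Matrix.map_apply] at h4
  exact_mod_cast h4

end Gen

section List

variable {L l : ℕ}

/-- The matrix of `∏ T(v; U)` on the class is real, nonnegative and primitive. -/
structure RealPrimL (l : ℕ) (vs : List ℂ) (U : Fin L → ℂ) : Prop where
  nn : NnG (Tfl (l := l) vs U)
  prim : (MatRe (Tfl (l := l) vs U)).IsPrimitive

theorem PosOpL.posG {k : ℕ} {vs : List ℂ} {U : Fin L → ℂ} (h : PosOpL l k vs U) :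
    PosG k (Tfl (l := l) vs U) := ⟨h.nonneg, h.step⟩

/-- primitivity from positivity of the moves -/
theorem realPrim_of_posL (hpl : Pla L l) {k : ℕ} (hk : 0 < k) {vs : List ℂ} {U : Fin L → ℂ}
    (h : PosOpL l k vs U)
    (hr : ∀ m m' : Sts L l, Cls m → Cls m' → Relation.ReflTransGen Stp m m') :
    RealPrimL l vs U :=
  ⟨h.posG.nn, primG (stab_Tfl hpl vs U).1 hk h.posG hr⟩

end List

end Pool.Agent.CYL
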