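import Pool.Agent.CYL.N.PrimL
import Pool.Agent.CYL.P.TCont
import Pool.Agent.CYL.P.FusA

/-!
# CYL for all L: the joint nonnegative eigenvector from a product of transfer matrices

`psiOfL vs U` : Perron-Frobenius eigenvector of the matrix of `∏ T(v; U)` (`v ∈ vs`) on the class,
extended by zero. `isPsi_psiOfL`, `IsPsi.eq_psiOfL`, `IsPsi.uniqueL`, `IsPsi.posL`; the family
`psiN`, `tN` for `U1 n w`: `isPsi_psiN`, `psiN_pos`, `eq_psiN`, `continuousOn_psiN`,
`continuousOn_tN`; the limit `w → λ`: `fus_limN`.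
-/

set_option autoImplicit false

namespace Pool.Agent.CYL

open Complex Finset Matrix Filter Topology
open Pool.Agent.BEX

/-- The Perron-Frobenius eigenvector of `∏ T(v; U)` on the class, extended by zero. -/
noncomputable def psiOfL {L l : ℕ} (vs : List ℂ) (U : Fin L → ℂ) : Sts L l → ℝ :=
  ex (pfVec (MatRe (Tfl vs U)))

section Basic

variable {L l : ℕ}

theorem psiOfL_of {vs : List ℂ} {U : Fin L → ℂ} {m : Sts L l} (h : Cls m) :
    psiOfL vs U m = pfVec (MatRe (Tfl vs U)) ⟨m, h⟩ := ex_of _ h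

theorem psiOfL_Kc {vs : List ℂ} {U : Fin L → ℂ} (i : Kc L l) :
    psiOfL vs U i.1 = pfVec (MatRe (Tfl vs U)) i := ex_val _ i

theorem psiOfL_not {vs : List ℂ} {U : Fin L → ℂ} {m : Sts L l} (h : ¬ Cls m) :
    psiOfL vs U m = 0 := ex_not _ h

/-- an `IsPsi` is an eigenvector of the class matrix of the product -/
theorem IsPsi.eigL (hpl : Pla L l) {U : Fin L → ℂ} {psi : Sts L l → ℝ} {t : ℂ → ℂ}
    (h : IsPsi U psi t) (vs : List ℂ) :
    TcL vs U *ᵥ (fun i => (psi i.1 : ℂ)) =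
      (vs.map t).prod • fun i : Kc L l => (psi i.1 : ℂ) := by
  induction vs with
  | nil =>
    show (1 : Matrix (Kc L l) (Kc L l) ℂ) *ᵥ _ = _
    rw [one_mulVec, List.map_nil, List.prod_nil, one_smul]
  | cons v vs ih =>
    show (TcL vs U * Tc v U) *ᵥ _ = _
    rw [← mulVec_mulVec, (eig_iff hpl h.supp).1 (h.eig v), mulVec_smul, ih, smul_smul,
      List.map_cons, List.prod_cons]

variable [Nonempty (Kc L l)]

theorem psiOfL_pos {vs : List ℂ} {U : Fin L → ℂ} (hR : RealPrimL l vs U) {m : Sts L l}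
    (h : Cls m) : 0 < psiOfL vs U m := by
  rw [psiOfL_of h]
  exact pfVec_pos hR.prim _

theorem psiOfL_nonneg {vs : List ℂ} {U : Fin L → ℂ} (hR : RealPrimL l vs U) (m : Sts L l) :
    0 ≤ psiOfL vs U m := by
  by_cases h : Cls m
  · exact (psiOfL_pos hR h).le
  · rw [psiOfL_not h]

theorem sum_psiOfL {vs : List ℂ} {U : Fin L → ℂ} (hR : RealPrimL l vs U) :
    ∑ m : Sts L l, psiOfL vs U m = 1 := by
  rw [← sum_Kc (fun m => psiOfL vs U m) fun m hm => psiOfL_not hm]
  rw [← sum_pfVec hR.prim]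
  exact Finset.sum_congr rfl fun i _ => psiOfL_Kc i

/-- the Perron-Frobenius eigenvector is a joint eigenvector -/
theorem isPsi_psiOfL (hpl : Pla L l) (hc : Comm L l) {vs : List ℂ} {U : Fin L → ℂ}
    (hR : RealPrimL l vs U) :
    IsPsi U (psiOfL (l := l) vs U) (tv U (psiOfL (l := l) vs U)) := by
  have h1 : ∀ v' : ℂ, ∃ t : ℂ, Tc v' U *ᵥ (fun i => (psiOfL vs U i.1 : ℂ)) =
      t • fun i : Kc L l => (psiOfL vs U i.1 : ℂ) := by
    intro v'
    have h2 := pf_comm hR.prim (pfVec_pos hR.prim) (mulVec_pfVec hR.prim) (B := Tc v' U) (by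
      rw [hR.nn.map, (stab_Tfl hpl vs U).2]
      exact TcL_comm hpl hc _ _ _)
    have h3 : (fun i : Kc L l => (psiOfL vs U i.1 : ℂ)) =
        fun i => (pfVec (MatRe (Tfl vs U)) i : ℂ) := by
      funext i
      rw [psiOfL_Kc]
    rw [h3]
    exact h2
  choose t ht using h1
  have hP : IsPsi U (psiOfL (l := l) vs U) t := by
    refine ⟨psiOfL_nonneg hR, fun m hm => psiOfL_not hm, sum_psiOfL hR, fun v' => ?_⟩
    exact (eig_iff hpl fun m hm => psiOfL_not hm).2 (ht v')
  have ht' := hP.t_eq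
  exact ht' ▸ hP

/-- uniqueness: a nonnegative vector with sum `1` on the class which is an eigenvector of the class
matrix of the product -/
theorem psiOfL_unique (hpl : Pla L l) {vs : List ℂ} {s : ℂ} {U : Fin L → ℂ}
    (hR : RealPrimL l vs U)
    {psi : Sts L l → ℝ} (hnn : ∀ m, 0 ≤ psi m) (hsupp : ∀ m, ¬ Cls m → psi m = 0)
    (hsum : ∑ m, psi m = 1)
    (he : TcL vs U *ᵥ (fun i => (psi i.1 : ℂ)) = s • fun i : Kc L l => (psi i.1 : ℂ)) :
    psi = psiOfL vs U := by
  rw [← (stab_Tfl hpl vs U).2, ← hR.nn.map] at he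
  have hsum' : ∑ i : Kc L l, psi i.1 = 1 := by
    rw [sum_Kc psi hsupp]
    exact hsum
  have h2 : ∀ i : Kc L l, (((MatRe (Tfl vs U) *ᵥ fun i => psi i.1) i : ℝ) : ℂ) =
      s * (psi i.1 : ℂ) := by
    intro i
    have h3 := congrFun he i
    simp only [mulVec, dotProduct, Pi.smul_apply, smul_eq_mul, Matrix.map_apply] at h3
    rw [← h3]
    simp only [mulVec, dotProduct]
    push_cast
    rfl
  have h4 : ((∑ i, (MatRe (Tfl vs U) *ᵥ fun i : Kc L l => psi i.1) i : ℝ) : ℂ) = s := by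
    rw [Complex.ofReal_sum, Finset.sum_congr rfl fun i _ => h2 i, ← Finset.mul_sum,
      ← Complex.ofReal_sum, hsum', Complex.ofReal_one, mul_one]
  obtain ⟨r, hr⟩ : ∃ r : ℝ, r = ∑ i, (MatRe (Tfl vs U) *ᵥ fun i : Kc L l => psi i.1) i :=
    ⟨_, rfl⟩
  rw [← hr] at h4
  have h5 : MatRe (Tfl vs U) *ᵥ (fun i => psi i.1) = r • fun i : Kc L l => psi i.1 := by
    funext i
    have h6 := h2 i
    rw [← h4, ← Complex.ofReal_mul] at h6
    exact Complex.ofReal_injective h6
  obtain ⟨h7, -⟩ := eq_pfVec hR.prim (fun i : Kc L l => hnn i.1) hsum' h5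
  funext m
  by_cases hm : Cls m
  · rw [psiOfL_of hm]
    exact congrFun h7 ⟨m, hm⟩
  · rw [hsupp m hm, psiOfL_not hm]

theorem IsPsi.eq_psiOfL (hpl : Pla L l) {vs : List ℂ} {U : Fin L → ℂ} (hR : RealPrimL l vs U)
    {psi : Sts L l → ℝ} {t : ℂ → ℂ} (h : IsPsi U psi t) : psi = psiOfL vs U :=
  psiOfL_unique hpl hR h.nonneg h.supp h.sum (h.eigL hpl vs)

theorem IsPsi.uniqueL (hpl : Pla L l) {vs : List ℂ} {U : Fin L → ℂ} (hR : RealPrimL l vs U)
    {psi psi' : Sts L l → ℝ} {t t' : ℂ → ℂ} (h : IsPsi U psi t) (h' : IsPsi U psi' t') :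
    psi = psi' ∧ t = t' := by
  have h1 : psi = psi' := (h.eq_psiOfL hpl hR).trans (h'.eq_psiOfL hpl hR).symm
  refine ⟨h1, ?_⟩
  rw [h.t_eq, h'.t_eq, h1]

theorem IsPsi.posL (hpl : Pla L l) {vs : List ℂ} {U : Fin L → ℂ} (hR : RealPrimL l vs U)
    {psi : Sts L l → ℝ} {t : ℂ → ℂ} (h : IsPsi U psi t) {m : Sts L l} (hm : Cls m) :
    0 < psi m := by
  rw [h.eq_psiOfL hpl hR]
  exact psiOfL_pos hR hm

end Basic

section Cont

variable {L l : ℕ}

theorem continuous_Tf_param' {X : Type*} [TopologicalSpace X] {v : X → ℂ} {U : X → Fin L → ℂ}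
    (hv : Continuous v) (hU : Continuous U) {G : X → Sts L l → ℂ}
    (hG : ∀ m, Continuous fun x => G x m) (m : Sts L l) :
    Continuous fun x => Tf (v x) (U x) (G x) m := by
  have h1 : (fun x => Tf (v x) (U x) (G x) m) =
      fun x => ∑ m', G x m' * Tf (v x) (U x) (Pi.single m' 1) m := by
    funext x
    exact Tf_eq_sum _ _ _ _
  rw [h1]
  exact continuous_finsetSum _ fun m' _ => (hG m').mul (continuous_Tf_param hv hU _ _)

theorem continuous_Tfl_param {X : Type*} [TopologicalSpace X] {fs : List (X → ℂ)}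
    {U : X → Fin L → ℂ} (hfs : ∀ f ∈ fs, Continuous f) (hU : Continuous U) (F : Sts L l → ℂ)
    (m : Sts L l) : Continuous fun x => Tfl (fs.map fun f => f x) (U x) F m := by
  induction fs generalizing m with
  | nil => exact continuous_const
  | cons f fs ih =>
    have h1 : ∀ m, Continuous fun x => Tfl (fs.map fun f => f x) (U x) F m := fun m =>
      ih (fun f hf => hfs f (List.mem_cons_of_mem _ hf)) m
    exact continuous_Tf_param' (hfs f List.mem_cons_self) hU h1 m

theorem continuousOn_psiOfL [Nonempty (Kc L l)] {X : Type*} [TopologicalSpace X] {s : Set X}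
    {vs : X → List ℂ} {fs : List (X → ℂ)} {U : X → Fin L → ℂ}
    (hvs : ∀ x ∈ s, vs x = fs.map fun f => f x)
    (hfs : ∀ f ∈ fs, Continuous f) (hU : Continuous U)
    (hR : ∀ x ∈ s, RealPrimL l (vs x) (U x)) (m : Sts L l) :
    ContinuousOn (fun x => psiOfL (vs x) (U x) m) s := by
  have hcongr : ∀ x ∈ s, psiOfL (vs x) (U x) m = psiOfL (fs.map fun f => f x) (U x) m := by
    intro x hx
    rw [hvs x hx]
  refine ContinuousOn.congr ?_ hcongr
  by_cases hm : Cls m
  · have h0 : Continuous fun x => MatRe (Tfl (l := l) (fs.map fun f => f x) (U x)) := by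
      refine continuous_matrix fun i j => ?_
      exact Complex.continuous_re.comp (continuous_Tfl_param hfs hU _ _)
    have h1 := continuousOn_pfVec (s := s) h0.continuousOn
      fun x hx => (hvs x hx ▸ hR x hx).prim
    have h2 : (fun x => psiOfL (fs.map fun f => f x) (U x) m) =
        fun x => pfVec (MatRe (Tfl (fs.map fun f => f x) (U x))) ⟨m, hm⟩ := by
      funext x
      exact psiOfL_of hm
    rw [h2]
    exact (continuous_apply (⟨m, hm⟩ : Kc L l)).comp_continuousOn h1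
  · have h2 : (fun x => psiOfL (fs.map fun f => f x) (U x) m) = fun _ => (0 : ℝ) := by
      funext x
      exact psiOfL_not hm
    rw [h2]
    exact continuousOn_const

theorem continuous_U1 (n : ℕ) : Continuous (U1 n) := by
  rw [continuous_pi_iff]
  intro i
  unfold U1
  split_ifs
  · exact Complex.continuous_ofReal
  · exact Complex.continuous_ofReal.neg
  · exact continuous_const

end Cont

section Family

variable {n l : ℕ}

/-- the parameters of the positive product -/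
noncomputable def vsN (n : ℕ) (w : ℝ) : List ℂ := if w ≤ Real.pi / 16 then vsA else vsB n w

/-- the eigenvector for `U1 n w` -/
noncomputable def psiN (n l : ℕ) (w : ℝ) : Sts (n + 1) l → ℝ := psiOfL (vsN n w) (U1 n w)

/-- the eigenvalues for `U1 n w` -/
noncomputable def tN (n l : ℕ) (w : ℝ) : ℂ → ℂ := tv (U1 n w) (psiN n l w)

/-- positivity for the family -/
structure FamPrimN (n l : ℕ) : Prop where
  lo : ∀ w : ℝ, 0 ≤ w → w ≤ Real.pi / 16 → RealPrimL l vsA (U1 n w)
  hi : ∀ w : ℝ, Real.pi / 16 ≤ w → w < Real.pi / 8 → RealPrimL l (vsB n w) (U1 n w)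

theorem FamPrimN.vsN (h : FamPrimN n l) {w : ℝ} (h0 : 0 ≤ w) (h1 : w < Real.pi / 8) :
    RealPrimL l (vsN n w) (U1 n w) := by
  unfold CYL.vsN
  split_ifs with h2
  · exact h.lo w h0 h2
  · exact h.hi w (not_le.1 h2).le h1

variable [Nonempty (Kc (n + 1) l)]

theorem isPsi_psiN (hpl : Pla (n + 1) l) (hc : Comm (n + 1) l) (h : FamPrimN n l) {w : ℝ}
    (h0 : 0 ≤ w) (h1 : w < Real.pi / 8) : IsPsi (U1 n w) (psiN n l w) (tN n l w) :=
  isPsi_psiOfL hpl hc (h.vsN h0 h1)

theorem psiN_pos (h : FamPrimN n l) {w : ℝ} (h0 : 0 ≤ w) (h1 : w < Real.pi / 8)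
    {m : Sts (n + 1) l} (hm : Cls m) : 0 < psiN n l w m := psiOfL_pos (h.vsN h0 h1) hm

/-- uniqueness for the family -/
theorem eq_psiN (hpl : Pla (n + 1) l) (h : FamPrimN n l) {w : ℝ} (h0 : 0 ≤ w)
    (h1 : w < Real.pi / 8) {psi : Sts (n + 1) l → ℝ} {t : ℂ → ℂ} (hP : IsPsi (U1 n w) psi t) :
    psi = psiN n l w ∧ t = tN n l w := by
  have h2 : psi = psiN n l w := hP.eq_psiOfL hpl (h.vsN h0 h1)
  refine ⟨h2, ?_⟩
  rw [hP.t_eq, h2]
  rfl

theorem continuousOn_psiN (hpl : Pla (n + 1) l) (hc : Comm (n + 1) l) (h : FamPrimN n l)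
    (m : Sts (n + 1) l) :
    ContinuousOn (fun w => psiN n l w m) (Set.Ico 0 (Real.pi / 8)) := by
  have hpi : Real.pi / 16 < Real.pi / 8 := by
    have := Real.pi_pos
    linarith
  have hpi0 : 0 < Real.pi / 16 := by
    have := Real.pi_pos
    linarith
  have h1 : ContinuousOn (fun w : ℝ => psiN n l w m) (Set.Icc 0 (Real.pi / 16)) := by
    have h2 := continuousOn_psiOfL (l := l) (s := Set.Icc 0 (Real.pi / 16))
      (vs := fun _ : ℝ => vsA) (fs := [fun _ => ((3 * Real.pi / 16 : ℝ) : ℂ)])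
      (U := U1 n) (fun w _ => rfl)
      (by
        intro f hf
        rw [List.mem_singleton] at hf
        rw [hf]
        exact continuous_const) (continuous_U1 n)
      (fun w hw => h.lo w hw.1 hw.2) m
    refine h2.congr fun w hw => ?_
    have : vsN n w = vsA := if_pos hw.2
    simp only [psiN, this]
  have h3 : ContinuousOn (fun w : ℝ => psiN n l w m) (Set.Ico (Real.pi / 16) (Real.pi / 8)) := by
    have h2 := continuousOn_psiOfL (l := l) (s := Set.Ico (Real.pi / 16) (Real.pi / 8))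
      (vs := vsB n)
      (fs := List.replicate (n - 1) (fun _ : ℝ => lam) ++ [fun w : ℝ => (w : ℂ)])
      (U := U1 n) (fun w _ => by simp [vsB])
      (by
        intro f hf
        rcases List.mem_append.1 hf with hf | hf
        · rw [List.eq_of_mem_replicate hf]
          exact continuous_const
        · rw [List.mem_singleton] at hf
          rw [hf]
          exact Complex.continuous_ofReal) (continuous_U1 n)
      (fun w hw => h.hi w hw.1 hw.2) m
    refine h2.congr fun w hw => ?_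
    rcases hw.1.lt_or_eq with hlt | heq
    · have : vsN n w = vsB n w := if_neg (not_le.2 hlt)
      simp only [psiN, this]
    · have h4 := isPsi_psiN hpl hc h (w := w) (by linarith [hw.1]) hw.2
      exact congrFun (h4.eq_psiOfL hpl (h.hi w hw.1 hw.2)) m
  intro w hw
  rcases lt_trichotomy w (Real.pi / 16) with hlt | heq | hgt
  · have h5 : ContinuousWithinAt (fun w : ℝ => psiN n l w m) (Set.Icc 0 (Real.pi / 16)) w :=
      h1 w ⟨hw.1, hlt.le⟩
    refine h5.mono_of_mem_nhdsWithin ?_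
    have h6 : Set.Iio (Real.pi / 16) ∈ nhdsWithin w (Set.Ico 0 (Real.pi / 8)) :=
      mem_nhdsWithin_of_mem_nhds (Iio_mem_nhds hlt)
    filter_upwards [h6, self_mem_nhdsWithin] with x hx hx'
    exact ⟨hx'.1, le_of_lt hx⟩
  · subst heq
    have h5 := (h1 (Real.pi / 16) ⟨hpi0.le, le_refl _⟩).union (h3 (Real.pi / 16) ⟨le_refl _, hpi⟩)
    refine h5.mono_of_mem_nhdsWithin ?_
    filter_upwards [self_mem_nhdsWithin] with x hx
    rcases le_or_gt x (Real.pi / 16) with hx' | hx'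
    · exact Or.inl ⟨hx.1, hx'⟩
    · exact Or.inr ⟨hx'.le, hx.2⟩
  · have h5 : ContinuousWithinAt (fun w : ℝ => psiN n l w m)
      (Set.Ico (Real.pi / 16) (Real.pi / 8)) w := h3 w ⟨hgt.le, hw.2⟩
    refine h5.mono_of_mem_nhdsWithin ?_
    have h6 : Set.Ioi (Real.pi / 16) ∈ nhdsWithin w (Set.Ico 0 (Real.pi / 8)) :=
      mem_nhdsWithin_of_mem_nhds (Ioi_mem_nhds hgt)
    filter_upwards [h6, self_mem_nhdsWithin] with x hx hx'
    exact ⟨le_of_lt hx, hx'.2⟩

/-- the eigenvalue is continuous in `(w, v)` -/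
theorem continuousOn_tN (hpl : Pla (n + 1) l) (hc : Comm (n + 1) l) (h : FamPrimN n l) :
    ContinuousOn (fun x : ℝ × ℂ => tN n l x.1 x.2) (Set.Ico 0 (Real.pi / 8) ×ˢ Set.univ) := by
  unfold tN tv
  refine continuousOn_finsetSum _ fun m _ => ContinuousOn.mul ?_ ?_
  · refine Complex.continuous_ofReal.comp_continuousOn ?_
    exact (continuousOn_psiN hpl hc h m).comp continuousOn_fst fun x hx => hx.1
  · exact (continuous_Tf_param continuous_snd ((continuous_U1 n).comp continuous_fst)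
      _ _).continuousOn

end Family

section Lim

variable {L l : ℕ}

/-- limit of joint eigenvectors along a convergent family of rapidities: a subsequence converges to a
joint eigenvector (no positivity needed) -/
theorem psi_subseq {U : ℝ → Fin L → ℂ} (hU : Continuous U) {a b : ℝ} (hab : a < b)
    {psi : ℝ → Sts L l → ℝ} {t : ℝ → ℂ → ℂ}
    (hI : ∀ w, a ≤ w → w < b → IsPsi (U w) (psi w) (t w)) :
    ∃ (ws : ℕ → ℝ) (psis : Sts L l → ℝ), (∀ n, a ≤ ws n ∧ ws n < b) ∧
      Tendsto ws atTop (𝓝 b) ∧ (∀ m, Tendsto (fun n => psi (ws n) m) atTop (𝓝 (psis m))) ∧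
      IsPsi (U b) psis (tv (U b) psis) ∧
      (∀ (v : ℝ → ℂ), Continuous v →
        Tendsto (fun n => t (ws n) (v (ws n))) atTop (𝓝 (tv (U b) psis (v b)))) := by
  obtain ⟨w0, hw0⟩ : ∃ w0 : ℕ → ℝ, w0 = fun n : ℕ => b - (b - a) * (1 / ((n : ℝ) + 1)) :=
    ⟨_, rfl⟩
  have hw0r : ∀ n, a ≤ w0 n ∧ w0 n < b := by
    intro n
    have h1 : 0 < 1 / ((n : ℝ) + 1) := by positivity
    have h2 : 1 / ((n : ℝ) + 1) ≤ 1 := by
      rw [div_le_one (by positivity)]
      have : (0 : ℝ) ≤ n := Nat.cast_nonneg n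
      linarith
    simp only [hw0]
    constructor
    · nlinarith
    · nlinarith
  have hw0t : Tendsto w0 atTop (𝓝 b) := by
    rw [hw0]
    have h1 := (tendsto_one_div_add_atTop_nhds_zero_nat (𝕜 := ℝ)).const_mul (b - a)
    have h2 := h1.const_sub b
    simpa using h2
  have hI0 : ∀ n, IsPsi (U (w0 n)) (psi (w0 n)) (t (w0 n)) := fun n =>
    hI _ (hw0r n).1 (hw0r n).2
  obtain ⟨psis, hpsis, φ, hφ, hφt⟩ := (isCompact_stdSimplex ℝ (Sts L l)).tendsto_subseq
    (x := fun n => psi (w0 n)) (fun n => ⟨(hI0 n).nonneg, (hI0 n).sum⟩)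
  obtain ⟨ws, hws⟩ : ∃ ws : ℕ → ℝ, ws = fun n => w0 (φ n) := ⟨_, rfl⟩
  have hwr : ∀ n, a ≤ ws n ∧ ws n < b := by
    intro n
    rw [hws]
    exact hw0r _
  have hwt : Tendsto ws atTop (𝓝 b) := by
    rw [hws]
    exact hw0t.comp hφ.tendsto_atTop
  have hIs : ∀ n, IsPsi (U (ws n)) (psi (ws n)) (t (ws n)) := fun n =>
    hI _ (hwr n).1 (hwr n).2
  have hpt : ∀ m, Tendsto (fun n => psi (ws n) m) atTop (𝓝 (psis m)) := by
    intro m
    have h1 := (tendsto_pi_nhds.1 hφt) m
    rw [hws]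
    exact h1
  have hT : ∀ (v : ℝ → ℂ), Continuous v → ∀ (F : Sts L l → ℂ) (m : Sts L l),
      Tendsto (fun n => Tf (v (ws n)) (U (ws n)) F m) atTop (𝓝 (Tf (v b) (U b) F m)) := by
    intro v hv F m
    have h1 : Continuous fun w : ℝ => Tf (v w) (U w) F m := continuous_Tf_param hv hU F m
    exact (h1.tendsto _).comp hwt
  have hS : ∀ (G : ℕ → Sts L l → ℂ) (G' : Sts L l → ℂ),
      (∀ m, Tendsto (fun n => G n m) atTop (𝓝 (G' m))) →
      Tendsto (fun n => ∑ m, (psi (ws n) m : ℂ) * G n m) atTop (𝓝 (∑ m, (psis m : ℂ) * G' m)) := by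
    intro G G' hG
    refine tendsto_finsetSum _ fun m _ => Tendsto.mul ?_ (hG m)
    exact (Complex.continuous_ofReal.tendsto _).comp (hpt m)
  have htv : ∀ (v : ℝ → ℂ), Continuous v →
      Tendsto (fun n => t (ws n) (v (ws n))) atTop (𝓝 (tv (U b) psis (v b))) := by
    intro v hv
    have h1 : (fun n => t (ws n) (v (ws n))) =
        fun n => ∑ m, (psi (ws n) m : ℂ) * Tf (v (ws n)) (U (ws n)) chF m := by
      funext n
      rw [(hIs n).t_eq]
      rfl
    rw [h1]
    exact hS _ _ fun m => hT v hv chF m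
  have hsupp : ∀ m, ¬ Cls m → psis m = 0 := by
    intro m hm
    have h1 : (fun n => psi (ws n) m) = fun _ => 0 := by
      funext n
      exact (hIs n).supp m hm
    have h2 := hpt m
    rw [h1] at h2
    exact (tendsto_nhds_unique h2 tendsto_const_nhds)
  refine ⟨ws, psis, hwr, hwt, hpt, ⟨hpsis.1, hsupp, hpsis.2, fun v F hF => ?_⟩, htv⟩
  have h1 := hS (fun n => Tf v (U (ws n)) F) _ fun m => hT (fun _ => v) continuous_const F m
  have h2 := (htv (fun _ => v) continuous_const).mul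
    (hS (fun _ => F) F fun m => tendsto_const_nhds)
  refine tendsto_nhds_unique h1 ?_
  have h3 : (fun n => ∑ m, (psi (ws n) m : ℂ) * Tf v (U (ws n)) F m) =
      fun n => t (ws n) v * ∑ m, (psi (ws n) m : ℂ) * F m := by
    funext n
    exact (hIs n).eig v F hF
  rw [h3]
  exact h2

/-- the product of the eigenvalues is real and at least every diagonal entry of the product -/
theorem IsPsi.ge_diagL (hpla : Pla L l) {vs : List ℂ} {U : Fin L → ℂ}
    (hnn : NnG (Tfl (l := l) vs U))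
    {psi : Sts L l → ℝ} {t : ℂ → ℂ} (h : IsPsi U psi t) {m0 : Sts L l} (hm : Cls m0)
    (hpos : 0 < psi m0) : ((vs.map t).prod).im = 0 ∧
      (Tfl vs U (Pi.single m0 1) m0).re ≤ ((vs.map t).prod).re := by
  have h1 := h.eigL hpla vs
  rw [← (stab_Tfl hpla vs U).2] at h1
  have h2 := congrFun h1 ⟨m0, hm⟩
  simp only [Matrix.mulVec, dotProduct, Pi.smul_apply, smul_eq_mul] at h2
  have h3 : ((∑ j : Kc L l, MatRe (Tfl vs U) ⟨m0, hm⟩ j * psi j.1 : ℝ) : ℂ) =
      (vs.map t).prod * (psi m0 : ℂ) := by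
    push_cast
    refine Eq.trans (Finset.sum_congr rfl fun j _ => ?_) h2
    rw [(hnn ⟨m0, hm⟩ j).1]
  have him := congrArg Complex.im h3
  have hre := congrArg Complex.re h3
  simp only [Complex.ofReal_im, Complex.ofReal_re, Complex.mul_im, Complex.mul_re, mul_zero,
    zero_add, sub_zero] at him hre
  refine ⟨?_, ?_⟩
  · rcases mul_eq_zero.1 him.symm with h4 | h4
    · exact h4
    · exact absurd h4 hpos.ne'
  · have h5 : MatRe (Tfl vs U) ⟨m0, hm⟩ ⟨m0, hm⟩ * psi m0 ≤
        ∑ j : Kc L l, MatRe (Tfl vs U) ⟨m0, hm⟩ j * psi j.1 :=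
      Finset.single_le_sum (f := fun j : Kc L l => MatRe (Tfl vs U) ⟨m0, hm⟩ j * psi j.1)
        (fun j _ => mul_nonneg (hnn ⟨m0, hm⟩ j).2 (h.nonneg j.1))
        (Finset.mem_univ (⟨m0, hm⟩ : Kc L l))
    rw [hre] at h5
    exact le_of_mul_le_mul_right h5 hpos

end Lim

end Pool.Agent.CYL
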