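import Pool.Agent.CYL.M.Skel
import Pool.Agent.CYL.N.Def
import Pool.Agent.CYL.N.IfN
import Pool.Agent.CYL.BG.Main

/-!
# CYL for all L: skeleton (how the parts fit together), on top of `M/Skel.lean`

New inputs (all `L`): `skelN_family1` (PF, helper13, 19, 65, 99), `skelN_tq` (A, general U), the rest as in `M/Skel`.
-/

namespace Pool.Agent.CYL

open Filter Topology
open Pool.Agent.BEX

/-- the one pair family and its fusion limit -/
theorem skelN_family1 {n l : ℕ} (hl : l = 1 ∨ l = 2) (hn : l ≤ n) (psi0 : Sts n l → ℝ)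
    (h0 : ∀ m, 0 ≤ psi0 m) (h1 : ∀ m, ¬ Cls m → psi0 m = 0) (h2 : ∑ m, psi0 m = 1)
    (h3 : l < n → ∃ t, IsPsi (fun _ : Fin n => 0) psi0 t) : Nonempty (Family1 n l psi0) := sorry

/-- the T-Q relation for `U1` -/
theorem skelN_tq {n l : ℕ} (hl : 1 ≤ l) (hn : 1 ≤ n) {w : ℝ} (h0 : 0 ≤ w) (h1 : w < Real.pi / 8)
    (h2 : w ≠ Real.pi / 16) {psi : Sts (n + 1) l → ℝ} {t : ℂ → ℂ} (h : IsPsi (U1 n w) psi t) :
    TQ (n + 1) l (U1 n w) t (qf (U1 n w) psi) := sorry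

/-- one site more -/
theorem HB_succ {l : ℕ} (hl : l = 1 ∨ l = 2) {n : ℕ} (hn : l ≤ n)
    (ih : ∀ psi0 : Sts n l → ℝ, (∀ m, 0 ≤ psi0 m) → (∀ m, ¬ Cls m → psi0 m = 0) → ∑ m, psi0 m = 1 →
      (l < n → ∃ t, IsPsi (fun _ : Fin n => 0) psi0 t) → B.HB n (n - l) (qf (fun _ => 0) psi0))
    (psi : Sts (n + 1) l → ℝ) (h3 : ∃ t, IsPsi (fun _ : Fin (n + 1) => 0) psi t) :
    B.HB (n + 1) (n + 1 - l) (qf (fun _ => 0) psi) := by
  have hl1 : 1 ≤ l := by rcases hl with h | h <;> omega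
  obtain ⟨psi0, a0, a1, a2, a3⟩ : ∃ psi0 : Sts n l → ℝ, (∀ m, 0 ≤ psi0 m) ∧
      (∀ m, ¬ Cls m → psi0 m = 0) ∧ ∑ m, psi0 m = 1 ∧
      (l < n → ∃ t, IsPsi (fun _ : Fin n => 0) psi0 t) := by
    rcases hn.lt_or_eq with h | h
    · obtain ⟨psi0, t, h5, -⟩ := skel_hom hl h
      exact ⟨psi0, h5.nonneg, h5.supp, h5.sum, fun _ => ⟨t, h5⟩⟩
    · subst h
      obtain ⟨psi0, a0, a1, a2⟩ := exists_base hl
      exact ⟨psi0, a0, a1, a2, fun h => absurd h (lt_irrefl _)⟩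
  obtain ⟨F⟩ := skelN_family1 hl hn psi0 a0 a1 a2 a3
  obtain ⟨D, d1, d2, d3⟩ := exists_GData hl1 hn F
    (fun w h0 h1 h2 => skelN_tq hl1 (by omega) h0 h1 h2 (F.isPsi w h0 h1))
  have e1 : 1 + (n - 1) = n := by omega
  have e2 : 2 * 1 + (n - 1) = n + 1 := by omega
  have h5 := BG.main_BG D _ d3 le_rfl (n - l) (by omega) (by rw [e1]; exact ih psi0 a0 a1 a2 a3)
  rw [e2] at h5
  have hpi := Real.pi_pos
  have h6 := F.isPsi 0 le_rfl (by positivity)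
  have h7 : U1 n 0 = fun _ => 0 := by
    funext i
    simp [U1]
  rw [h7] at h6
  obtain ⟨t, ht⟩ := h3
  obtain ⟨h8, -⟩ := skel_hom_unique hl (by omega) h6 ht
  have h9 : D.q 0 = qf (fun _ => 0) psi := by
    funext u
    rw [d1 0 u, h7, h8]
  rwa [h9] at h5

/-- `H(L)` for every `L ≥ l`. -/
theorem HB_all (l : ℕ) (hl : l = 1 ∨ l = 2) (L : ℕ) (hL : l ≤ L) : ∀ psi : Sts L l → ℝ,
    (∀ m, 0 ≤ psi m) → (∀ m, ¬ Cls m → psi m = 0) → ∑ m, psi m = 1 →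
    (l < L → ∃ t, IsPsi (fun _ : Fin L => 0) psi t) →
    B.HB L (L - l) (qf (fun _ => 0) psi) := by
  induction L, hL using Nat.le_induction with
  | base =>
    intro psi h0 h1 h2 h3
    simpa using HB_base psi h1 h2
  | succ n hn ih =>
    intro psi h0 h1 h2 h3
    exact HB_succ hl hn ih psi (h3 (by omega))

/-- the limit along all `L` -/
theorem skelN_main (ZZ : ℕ → ℕ → ℕ → ℝ) {l : ℕ} (hl : l = 1 ∨ l = 2) :
    ∃ z : ℕ → ℝ, (∀ L, l < L → Tendsto (fun N : ℕ => Real.log (ZZ L l N) / N) atTop (𝓝 (z L))) ∧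
      Tendsto (fun L : ℕ => (L : ℝ) * z L) atTop
        (𝓝 (-(Real.sqrt 3 * Real.pi * (9 * (l : ℝ) ^ 2 - 4) / 48))) := by
  have hl1 : 1 ≤ l := by rcases hl with h | h <;> omega
  have key : ∀ L, l < L → ∃ r : Roots l, r.L = L ∧
      Tendsto (fun N : ℕ => Real.log (ZZ L l N) / N) atTop (𝓝 r.elog) ∧
      2 * (l : ℝ) * Real.log (1 / (2 * Real.cos (Real.pi / 8))) ≤ r.elog ∧ r.elog ≤ 0 := by
    intro L hL
    obtain ⟨psi, t, h, -⟩ := skel_hom hl hL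
    have h1 := HB_all l hl L hL.le psi h.nonneg h.supp h.sum (fun _ => ⟨t, h⟩)
    obtain ⟨r, r1, r2, r3⟩ := skel_bridge2 hl (by omega : L = (L - l) + l) (by omega) _ t h1
      (skel_tq0 hl1 h) (skel_cont h)
    obtain ⟨Lam, e1, e2, e3, e4, e5⟩ := skel_D ZZ hl hL h
    have hs : 0 < Real.sin (3 * Real.pi / 8) := by
      apply Real.sin_pos_of_pos_of_lt_pi <;> nlinarith [Real.pi_pos]
    have h2 : r.elog = Real.log Lam := by
      rw [e1, norm_mul, norm_pow, Complex.norm_real, Complex.norm_real, Real.norm_of_nonneg hs.le,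
        Real.norm_of_nonneg e3.le, mul_div_cancel_left₀ _ (by positivity)] at r3
      rw [← r3, Real.log_exp]
    exact ⟨r, r1, h2 ▸ e2, h2 ▸ e4, h2 ▸ e5⟩
  have : Nonempty (Roots l) := ⟨(key (l + 1) (by omega)).choose⟩
  choose! r hr using key
  refine ⟨fun L => (r L).elog, fun L hL => (hr L hL).2.1, ?_⟩
  have h1 := skel_C hl (fun k => r (k + (l + 1))) ?_ |2 * (l : ℝ) * Real.log (1 / (2 * Real.cos (Real.pi / 8)))| ?_
  · rw [← tendsto_add_atTop_iff_nat (l + 1)]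
    refine h1.congr fun k => ?_
    rw [(hr (k + (l + 1)) (by omega)).1]
  · have : (fun k => ((r (k + (l + 1))).L : ℝ)) = fun k : ℕ => ((k + (l + 1) : ℕ) : ℝ) := by
      funext k
      rw [(hr (k + (l + 1)) (by omega)).1]
    rw [this]
    exact tendsto_natCast_atTop_atTop.comp (tendsto_add_atTop_nat (l + 1))
  · intro k
    obtain ⟨-, -, h3, h4⟩ := hr (k + (l + 1)) (by omega)
    rw [abs_of_nonpos h4, abs_of_nonpos (h3.trans h4)]
    linarith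

end Pool.Agent.CYL
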