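import Pool.Agent.CYL.N.Def
import Pool.Agent.BEX.AYbe

/-!
# CYL for all L (note 3190): the triangle lemma

`R(λ - w) R(λ) R(w)` (lines of rapidities `λ`, `w`, `0`) has nonnegative coefficients for `0 ≤ w ≤ λ`.
(The 14 local states; generated by a program.)
-/

namespace Pool.Agent.CYL

open Complex Finset
open Pool.Agent.BEX Pool.Agent.BEX.AY
open scoped ComplexOrder

/-- The facts on the weights at `λ - w`, `λ`, `w` which are used below. -/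
structure WF (w : ℝ) : Prop where
  Ak : 0 ≤ kk (lam - (w : ℂ))
  A2 : 0 ≤ w2 (lam - (w : ℂ))
  A4 : 0 ≤ w4 (lam - (w : ℂ))
  A6 : 0 ≤ w6 (lam - (w : ℂ))
  A8 : 0 ≤ w8 (lam - (w : ℂ))
  Bk : 0 ≤ kk lam
  B2 : 0 ≤ w2 lam
  B4 : 0 ≤ w4 lam
  B6 : 0 ≤ w6 lam
  B8 : 0 ≤ w8 lam
  B9 : w9 lam = 0
  Ck : 0 ≤ kk (w : ℂ)
  C2 : 0 ≤ w2 (w : ℂ)
  C4 : 0 ≤ w4 (w : ℂ)
  C6 : 0 ≤ w6 (w : ℂ)
  C8 : 0 ≤ w8 (w : ℂ)
  E1 : w2 (lam - (w : ℂ)) * w4 lam * w9 (w : ℂ) + w6 (lam - (w : ℂ)) * w6 lam * w4 (w : ℂ) = 0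
  E1p : w2 (lam - (w : ℂ)) * w6 lam * w9 (w : ℂ) + w6 (lam - (w : ℂ)) * w4 lam * w4 (w : ℂ) = 0
  E2 : w4 (lam - (w : ℂ)) * w6 lam * w6 (w : ℂ) + w9 (lam - (w : ℂ)) * w4 lam * w2 (w : ℂ) = 0
  E2p : w4 (lam - (w : ℂ)) * w4 lam * w6 (w : ℂ) + w9 (lam - (w : ℂ)) * w6 lam * w2 (w : ℂ) = 0
  E4 : w4 (lam - (w : ℂ)) * w2 lam * w4 (w : ℂ) + w8 (lam - (w : ℂ)) * w8 lam * w9 (w : ℂ) + w9 (lam - (w : ℂ)) * w8 lam * w8 (w : ℂ) = 0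
  E8 : w4 (lam - (w : ℂ)) * kk lam * w4 (w : ℂ) + w8 (lam - (w : ℂ)) * w2 lam * w9 (w : ℂ) + w9 (lam - (w : ℂ)) * w2 lam * w8 (w : ℂ) = 0
  E3 : 0 ≤ w4 (lam - (w : ℂ)) * w6 lam * w2 (w : ℂ) + w9 (lam - (w : ℂ)) * w4 lam * w6 (w : ℂ)
  E3p : 0 ≤ w4 (lam - (w : ℂ)) * w4 lam * w2 (w : ℂ) + w9 (lam - (w : ℂ)) * w6 lam * w6 (w : ℂ)
  E5 : 0 ≤ w2 (lam - (w : ℂ)) * w6 lam * w4 (w : ℂ) + w6 (lam - (w : ℂ)) * w4 lam * w9 (w : ℂ)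
  E5p : 0 ≤ w2 (lam - (w : ℂ)) * w4 lam * w4 (w : ℂ) + w6 (lam - (w : ℂ)) * w6 lam * w9 (w : ℂ)

/-- strict positivity for `0 < w < λ` -/
structure WP (w : ℝ) : Prop extends WF w where
  pAk : 0 < kk (lam - (w : ℂ))
  pA6 : 0 < w6 (lam - (w : ℂ))
  pBk : 0 < kk lam
  pB6 : 0 < w6 lam
  pCk : 0 < kk (w : ℂ)
  pC2 : 0 < w2 (w : ℂ)
  pC8 : 0 < w8 (w : ℂ)

/-- The triangle at the state `m`. -/
def TriAt {ι : Type*} [DecidableEq ι] (w : ℝ) (p q r : ι) (m : St ι) : Prop :=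
  ∀ F : St ι → ℂ, (∀ n, 0 ≤ F n) →
    0 ≤ Rt p q (lam - (w : ℂ)) (Rt p r lam (Rt q r (w : ℂ) F)) m ∧
    (WP w → m p = p → 0 < F (m.sw q r) → 0 < Rt p q (lam - (w : ℂ)) (Rt p r lam (Rt q r (w : ℂ) F)) m)

theorem u3_012 {w : ℝ} (h : WF w) : TriAt w (0 : Fin 3) 1 2 s3_012 := by
  intro F hF
  have e : Rt 0 1 (lam - (w : ℂ)) (Rt 0 2 lam (Rt 1 2 (w : ℂ) F)) s3_012 =
      (kk (lam - (w : ℂ)) * kk lam * kk (w : ℂ)) * F s3_012 + (kk (lam - (w : ℂ)) * kk lam * w4 (w : ℂ) + w4 (lam - (w : ℂ)) * w2 lam * w8 (w : ℂ)) * F s3_021 + (kk (lam - (w : ℂ)) * w4 lam * w2 (w : ℂ) + w4 (lam - (w : ℂ)) * w6 lam * w6 (w : ℂ)) * F s3_102 + (kk (lam - (w : ℂ)) * w4 lam * w6 (w : ℂ) + w4 (lam - (w : ℂ)) * w6 lam * w2 (w : ℂ)) * F s3_210 := by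
    simp only [r3_01_012, r3_02_012, r3_02_102, r3_12_012, r3_12_021, r3_12_102, r3_12_210, h.B9, zero_mul]
    linear_combination 0
  refine ⟨?_, ?_⟩
  · rw [e]
    exact (add_nonneg (add_nonneg (add_nonneg (mul_nonneg (mul_nonneg (mul_nonneg h.Ak h.Bk) h.Ck) (hF s3_012)) (mul_nonneg (add_nonneg (mul_nonneg (mul_nonneg h.Ak h.Bk) h.C4) (mul_nonneg (mul_nonneg h.A4 h.B2) h.C8)) (hF s3_021))) (mul_nonneg (add_nonneg (mul_nonneg (mul_nonneg h.Ak h.B4) h.C2) (mul_nonneg (mul_nonneg h.A4 h.B6) h.C6)) (hF s3_102))) (mul_nonneg (add_nonneg (mul_nonneg (mul_nonneg h.Ak h.B4) h.C6) (mul_nonneg (mul_nonneg h.A4 h.B6) h.C2)) (hF s3_210)))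
  · intro h
    intro _ hs
    have hs2 : 0 < F s3_012 := by
      have h3 : (s3_012).sw 1 2 = s3_012 := St.ext' (by decide)
      rwa [h3] at hs
    rw [e]
    exact (add_pos_of_pos_of_nonneg (add_pos_of_pos_of_nonneg (add_pos_of_pos_of_nonneg (mul_pos (mul_pos (mul_pos (h.pAk) (h.pBk)) (h.pCk)) hs2) (mul_nonneg (add_nonneg (mul_nonneg (mul_nonneg h.Ak h.Bk) h.C4) (mul_nonneg (mul_nonneg h.A4 h.B2) h.C8)) (hF s3_021))) (mul_nonneg (add_nonneg (mul_nonneg (mul_nonneg h.Ak h.B4) h.C2) (mul_nonneg (mul_nonneg h.A4 h.B6) h.C6)) (hF s3_102))) (mul_nonneg (add_nonneg (mul_nonneg (mul_nonneg h.Ak h.B4) h.C6) (mul_nonneg (mul_nonneg h.A4 h.B6) h.C2)) (hF s3_210)))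

theorem u3_102 {w : ℝ} (h : WF w) : TriAt w (0 : Fin 3) 1 2 s3_102 := by
  intro F hF
  have e : Rt 0 1 (lam - (w : ℂ)) (Rt 0 2 lam (Rt 1 2 (w : ℂ) F)) s3_102 =
      (w8 (lam - (w : ℂ)) * w2 lam * w8 (w : ℂ)) * F s3_021 + (w8 (lam - (w : ℂ)) * w6 lam * w6 (w : ℂ)) * F s3_102 + (w8 (lam - (w : ℂ)) * w6 lam * w2 (w : ℂ)) * F s3_210 := by
    simp only [r3_01_102, r3_02_102, r3_12_021, r3_12_102, h.B9, zero_mul]
    linear_combination 0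
  refine ⟨?_, ?_⟩
  · rw [e]
    exact (add_nonneg (add_nonneg (mul_nonneg (mul_nonneg (mul_nonneg h.A8 h.B2) h.C8) (hF s3_021)) (mul_nonneg (mul_nonneg (mul_nonneg h.A8 h.B6) h.C6) (hF s3_102))) (mul_nonneg (mul_nonneg (mul_nonneg h.A8 h.B6) h.C2) (hF s3_210)))
  · intro _ h0
    exact absurd h0 (by decide)

theorem u3_210 {w : ℝ} (h : WF w) : TriAt w (0 : Fin 3) 1 2 s3_210 := by
  intro F hF
  have e : Rt 0 1 (lam - (w : ℂ)) (Rt 0 2 lam (Rt 1 2 (w : ℂ) F)) s3_210 =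
      (w2 (lam - (w : ℂ)) * w6 lam * w8 (w : ℂ)) * F s3_021 + (w6 (lam - (w : ℂ)) * w8 lam * w2 (w : ℂ) + w2 (lam - (w : ℂ)) * w2 lam * w6 (w : ℂ)) * F s3_102 + (w6 (lam - (w : ℂ)) * w8 lam * w6 (w : ℂ) + w2 (lam - (w : ℂ)) * w2 lam * w2 (w : ℂ)) * F s3_210 := by
    simp only [r3_01_210, r3_02_021, r3_02_210, r3_12_021, r3_12_102, r3_12_210, h.B9, zero_mul]
    linear_combination 0
  refine ⟨?_, ?_⟩
  · rw [e]
    exact (add_nonneg (add_nonneg (mul_nonneg (mul_nonneg (mul_nonneg h.A2 h.B6) h.C8) (hF s3_021)) (mul_nonneg (add_nonneg (mul_nonneg (mul_nonneg h.A6 h.B8) h.C2) (mul_nonneg (mul_nonneg h.A2 h.B2) h.C6)) (hF s3_102))) (mul_nonneg (add_nonneg (mul_nonneg (mul_nonneg h.A6 h.B8) h.C6) (mul_nonneg (mul_nonneg h.A2 h.B2) h.C2)) (hF s3_210)))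
  · intro _ h0
    exact absurd h0 (by decide)

theorem u3_021 {w : ℝ} (h : WF w) : TriAt w (0 : Fin 3) 1 2 s3_021 := by
  intro F hF
  have e : Rt 0 1 (lam - (w : ℂ)) (Rt 0 2 lam (Rt 1 2 (w : ℂ) F)) s3_021 =
      (w6 (lam - (w : ℂ)) * w6 lam * w8 (w : ℂ)) * F s3_021 + (w6 (lam - (w : ℂ)) * w2 lam * w6 (w : ℂ) + w2 (lam - (w : ℂ)) * w8 lam * w2 (w : ℂ)) * F s3_102 + (w6 (lam - (w : ℂ)) * w2 lam * w2 (w : ℂ) + w2 (lam - (w : ℂ)) * w8 lam * w6 (w : ℂ)) * F s3_210 := by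
    simp only [r3_01_021, r3_02_021, r3_02_210, r3_12_021, r3_12_102, r3_12_210, h.B9, zero_mul]
    linear_combination 0
  refine ⟨?_, ?_⟩
  · rw [e]
    exact (add_nonneg (add_nonneg (mul_nonneg (mul_nonneg (mul_nonneg h.A6 h.B6) h.C8) (hF s3_021)) (mul_nonneg (add_nonneg (mul_nonneg (mul_nonneg h.A6 h.B2) h.C6) (mul_nonneg (mul_nonneg h.A2 h.B8) h.C2)) (hF s3_102))) (mul_nonneg (add_nonneg (mul_nonneg (mul_nonneg h.A6 h.B2) h.C2) (mul_nonneg (mul_nonneg h.A2 h.B8) h.C6)) (hF s3_210)))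
  · intro h
    intro _ hs
    have hs2 : 0 < F s3_021 := by
      have h3 : (s3_021).sw 1 2 = s3_021 := St.ext' (by decide)
      rwa [h3] at hs
    rw [e]
    exact (add_pos_of_pos_of_nonneg (add_pos_of_pos_of_nonneg (mul_pos (mul_pos (mul_pos (h.pA6) (h.pB6)) (h.pC8)) hs2) (mul_nonneg (add_nonneg (mul_nonneg (mul_nonneg h.A6 h.B2) h.C6) (mul_nonneg (mul_nonneg h.A2 h.B8) h.C2)) (hF s3_102))) (mul_nonneg (add_nonneg (mul_nonneg (mul_nonneg h.A6 h.B2) h.C2) (mul_nonneg (mul_nonneg h.A2 h.B8) h.C6)) (hF s3_210)))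

theorem u4_3120 {w : ℝ} (h : WF w) : TriAt w (0 : Fin 4) 1 2 s4_3120 := by
  intro F hF
  have e : Rt 0 1 (lam - (w : ℂ)) (Rt 0 2 lam (Rt 1 2 (w : ℂ) F)) s4_3120 =
      (w6 (lam - (w : ℂ)) * w2 lam * w6 (w : ℂ) + w2 (lam - (w : ℂ)) * kk lam * w2 (w : ℂ)) * F s4_0132 + (w6 (lam - (w : ℂ)) * w2 lam * w2 (w : ℂ) + w2 (lam - (w : ℂ)) * kk lam * w6 (w : ℂ)) * F s4_0321 + (w2 (lam - (w : ℂ)) * w4 lam * w8 (w : ℂ)) * F s4_1032 + (w6 (lam - (w : ℂ)) * w6 lam * kk (w : ℂ) + w2 (lam - (w : ℂ)) * w4 lam * w4 (w : ℂ)) * F s4_3120 := by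
    simp only [r4_01_3120, r4_02_0321, r4_02_3120, r4_12_0132, r4_12_0321, r4_12_2301, r4_12_3120, h.B9, zero_mul]
    linear_combination F s4_3210 * h.E1
  refine ⟨?_, ?_⟩
  · rw [e]
    exact (add_nonneg (add_nonneg (add_nonneg (mul_nonneg (add_nonneg (mul_nonneg (mul_nonneg h.A6 h.B2) h.C6) (mul_nonneg (mul_nonneg h.A2 h.Bk) h.C2)) (hF s4_0132)) (mul_nonneg (add_nonneg (mul_nonneg (mul_nonneg h.A6 h.B2) h.C2) (mul_nonneg (mul_nonneg h.A2 h.Bk) h.C6)) (hF s4_0321))) (mul_nonneg (mul_nonneg (mul_nonneg h.A2 h.B4) h.C8) (hF s4_1032))) (mul_nonneg (add_nonneg (mul_nonneg (mul_nonneg h.A6 h.B6) h.Ck) (mul_nonneg (mul_nonneg h.A2 h.B4) h.C4)) (hF s4_3120)))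
  · intro _ h0
    exact absurd h0 (by decide)

theorem u4_3210 {w : ℝ} (h : WF w) : TriAt w (0 : Fin 4) 1 2 s4_3210 := by
  intro F hF
  have e : Rt 0 1 (lam - (w : ℂ)) (Rt 0 2 lam (Rt 1 2 (w : ℂ) F)) s4_3210 =
      (w4 (lam - (w : ℂ)) * w6 lam * w2 (w : ℂ) + w9 (lam - (w : ℂ)) * w4 lam * w6 (w : ℂ)) * F s4_0321 + (w8 (lam - (w : ℂ)) * w8 lam * w8 (w : ℂ)) * F s4_1032 + (w8 (lam - (w : ℂ)) * w8 lam * w4 (w : ℂ) + w4 (lam - (w : ℂ)) * w2 lam * kk (w : ℂ)) * F s4_3120 := by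
    simp only [r4_01_3210, r4_02_0132, r4_02_1032, r4_02_2301, r4_12_0132, r4_12_0321, r4_12_2301, r4_12_3120, r4_12_3210, h.B9, zero_mul]
    linear_combination F s4_0132 * h.E2 + F s4_3210 * h.E4
  refine ⟨?_, ?_⟩
  · rw [e]
    exact (add_nonneg (add_nonneg (mul_nonneg (h.E3) (hF s4_0321)) (mul_nonneg (mul_nonneg (mul_nonneg h.A8 h.B8) h.C8) (hF s4_1032))) (mul_nonneg (add_nonneg (mul_nonneg (mul_nonneg h.A8 h.B8) h.C4) (mul_nonneg (mul_nonneg h.A4 h.B2) h.Ck)) (hF s4_3120)))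
  · intro _ h0
    exact absurd h0 (by decide)

theorem u4_0321 {w : ℝ} (h : WF w) : TriAt w (0 : Fin 4) 1 2 s4_0321 := by
  intro F hF
  have e : Rt 0 1 (lam - (w : ℂ)) (Rt 0 2 lam (Rt 1 2 (w : ℂ) F)) s4_0321 =
      (w6 (lam - (w : ℂ)) * kk lam * w2 (w : ℂ) + w2 (lam - (w : ℂ)) * w2 lam * w6 (w : ℂ)) * F s4_0132 + (w6 (lam - (w : ℂ)) * kk lam * w6 (w : ℂ) + w2 (lam - (w : ℂ)) * w2 lam * w2 (w : ℂ)) * F s4_0321 + (w6 (lam - (w : ℂ)) * w4 lam * w8 (w : ℂ)) * F s4_1032 + (w6 (lam - (w : ℂ)) * w4 lam * w4 (w : ℂ) + w2 (lam - (w : ℂ)) * w6 lam * kk (w : ℂ)) * F s4_3120 + (w2 (lam - (w : ℂ)) * w6 lam * w4 (w : ℂ) + w6 (lam - (w : ℂ)) * w4 lam * w9 (w : ℂ)) * F s4_3210 := by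
    simp only [r4_01_0321, r4_02_0321, r4_02_3120, r4_12_0132, r4_12_0321, r4_12_2301, r4_12_3120, h.B9, zero_mul]
    linear_combination 0
  refine ⟨?_, ?_⟩
  · rw [e]
    exact (add_nonneg (add_nonneg (add_nonneg (add_nonneg (mul_nonneg (add_nonneg (mul_nonneg (mul_nonneg h.A6 h.Bk) h.C2) (mul_nonneg (mul_nonneg h.A2 h.B2) h.C6)) (hF s4_0132)) (mul_nonneg (add_nonneg (mul_nonneg (mul_nonneg h.A6 h.Bk) h.C6) (mul_nonneg (mul_nonneg h.A2 h.B2) h.C2)) (hF s4_0321))) (mul_nonneg (mul_nonneg (mul_nonneg h.A6 h.B4) h.C8) (hF s4_1032))) (mul_nonneg (add_nonneg (mul_nonneg (mul_nonneg h.A6 h.B4) h.C4) (mul_nonneg (mul_nonneg h.A2 h.B6) h.Ck)) (hF s4_3120))) (mul_nonneg (h.E5) (hF s4_3210)))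
  · intro h
    intro _ hs
    have hs2 : 0 < F s4_0132 := by
      have h3 : (s4_0321).sw 1 2 = s4_0132 := St.ext' (by decide)
      rwa [h3] at hs
    rw [e]
    exact (add_pos_of_pos_of_nonneg (add_pos_of_pos_of_nonneg (add_pos_of_pos_of_nonneg (add_pos_of_pos_of_nonneg (mul_pos (add_pos_of_pos_of_nonneg (mul_pos (mul_pos (h.pA6) (h.pBk)) (h.pC2)) (mul_nonneg (mul_nonneg h.A2 h.B2) h.C6)) hs2) (mul_nonneg (add_nonneg (mul_nonneg (mul_nonneg h.A6 h.Bk) h.C6) (mul_nonneg (mul_nonneg h.A2 h.B2) h.C2)) (hF s4_0321))) (mul_nonneg (mul_nonneg (mul_nonneg h.A6 h.B4) h.C8) (hF s4_1032))) (mul_nonneg (add_nonneg (mul_nonneg (mul_nonneg h.A6 h.B4) h.C4) (mul_nonneg (mul_nonneg h.A2 h.B6) h.Ck)) (hF s4_3120))) (mul_nonneg (h.E5) (hF s4_3210)))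

theorem u4_2301 {w : ℝ} (h : WF w) : TriAt w (0 : Fin 4) 1 2 s4_2301 := by
  intro F hF
  have e : Rt 0 1 (lam - (w : ℂ)) (Rt 0 2 lam (Rt 1 2 (w : ℂ) F)) s4_2301 =
      (w8 (lam - (w : ℂ)) * w4 lam * w2 (w : ℂ)) * F s4_0132 + (w4 (lam - (w : ℂ)) * w6 lam * w2 (w : ℂ) + w9 (lam - (w : ℂ)) * w4 lam * w6 (w : ℂ) + w8 (lam - (w : ℂ)) * w4 lam * w6 (w : ℂ)) * F s4_0321 + (w8 (lam - (w : ℂ)) * w8 lam * w8 (w : ℂ)) * F s4_2301 + (w8 (lam - (w : ℂ)) * w8 lam * w4 (w : ℂ) + w4 (lam - (w : ℂ)) * w2 lam * kk (w : ℂ)) * F s4_3120 := by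
    simp only [r4_01_2301, r4_02_0132, r4_02_1032, r4_02_3210, r4_12_0132, r4_12_0321, r4_12_1032, r4_12_2301, r4_12_3120, r4_12_3210, h.B9, zero_mul]
    linear_combination F s4_0132 * h.E2 + F s4_3210 * h.E4
  refine ⟨?_, ?_⟩
  · rw [e]
    exact (add_nonneg (add_nonneg (add_nonneg (mul_nonneg (mul_nonneg (mul_nonneg h.A8 h.B4) h.C2) (hF s4_0132)) (mul_nonneg (add_nonneg (h.E3) (mul_nonneg (mul_nonneg h.A8 h.B4) h.C6)) (hF s4_0321))) (mul_nonneg (mul_nonneg (mul_nonneg h.A8 h.B8) h.C8) (hF s4_2301))) (mul_nonneg (add_nonneg (mul_nonneg (mul_nonneg h.A8 h.B8) h.C4) (mul_nonneg (mul_nonneg h.A4 h.B2) h.Ck)) (hF s4_3120)))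
  · intro _ h0
    exact absurd h0 (by decide)

theorem u4_0132 {w : ℝ} (h : WF w) : TriAt w (0 : Fin 4) 1 2 s4_0132 := by
  intro F hF
  have e : Rt 0 1 (lam - (w : ℂ)) (Rt 0 2 lam (Rt 1 2 (w : ℂ) F)) s4_0132 =
      (kk (lam - (w : ℂ)) * w6 lam * w2 (w : ℂ) + w4 (lam - (w : ℂ)) * w4 lam * w6 (w : ℂ)) * F s4_0321 + (kk (lam - (w : ℂ)) * w6 lam * w6 (w : ℂ) + w4 (lam - (w : ℂ)) * w4 lam * w2 (w : ℂ)) * F s4_0132 + (kk (lam - (w : ℂ)) * w2 lam * kk (w : ℂ)) * F s4_3120 + (kk (lam - (w : ℂ)) * w2 lam * w4 (w : ℂ) + w4 (lam - (w : ℂ)) * w8 lam * w8 (w : ℂ)) * F s4_3210 := by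
    simp only [r4_01_0132, r4_02_0132, r4_02_1032, r4_12_0132, r4_12_0321, r4_12_2301, r4_12_3120, r4_12_3210, h.B9, zero_mul]
    linear_combination 0
  refine ⟨?_, ?_⟩
  · rw [e]
    exact (add_nonneg (add_nonneg (add_nonneg (mul_nonneg (add_nonneg (mul_nonneg (mul_nonneg h.Ak h.B6) h.C2) (mul_nonneg (mul_nonneg h.A4 h.B4) h.C6)) (hF s4_0321)) (mul_nonneg (add_nonneg (mul_nonneg (mul_nonneg h.Ak h.B6) h.C6) (mul_nonneg (mul_nonneg h.A4 h.B4) h.C2)) (hF s4_0132))) (mul_nonneg (mul_nonneg (mul_nonneg h.Ak h.B2) h.Ck) (hF s4_3120))) (mul_nonneg (add_nonneg (mul_nonneg (mul_nonneg h.Ak h.B2) h.C4) (mul_nonneg (mul_nonneg h.A4 h.B8) h.C8)) (hF s4_3210)))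
  · intro h
    intro _ hs
    have hs2 : 0 < F s4_0321 := by
      have h3 : (s4_0132).sw 1 2 = s4_0321 := St.ext' (by decide)
      rwa [h3] at hs
    rw [e]
    exact (add_pos_of_pos_of_nonneg (add_pos_of_pos_of_nonneg (add_pos_of_pos_of_nonneg (mul_pos (add_pos_of_pos_of_nonneg (mul_pos (mul_pos (h.pAk) (h.pB6)) (h.pC2)) (mul_nonneg (mul_nonneg h.A4 h.B4) h.C6)) hs2) (mul_nonneg (add_nonneg (mul_nonneg (mul_nonneg h.Ak h.B6) h.C6) (mul_nonneg (mul_nonneg h.A4 h.B4) h.C2)) (hF s4_0132))) (mul_nonneg (mul_nonneg (mul_nonneg h.Ak h.B2) h.Ck) (hF s4_3120))) (mul_nonneg (add_nonneg (mul_nonneg (mul_nonneg h.Ak h.B2) h.C4) (mul_nonneg (mul_nonneg h.A4 h.B8) h.C8)) (hF s4_3210)))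

theorem u4_1032 {w : ℝ} (h : WF w) : TriAt w (0 : Fin 4) 1 2 s4_1032 := by
  intro F hF
  have e : Rt 0 1 (lam - (w : ℂ)) (Rt 0 2 lam (Rt 1 2 (w : ℂ) F)) s4_1032 =
      (w8 (lam - (w : ℂ)) * w4 lam * w2 (w : ℂ)) * F s4_0132 + (w8 (lam - (w : ℂ)) * w4 lam * w6 (w : ℂ)) * F s4_0321 + (w8 (lam - (w : ℂ)) * w8 lam * w8 (w : ℂ)) * F s4_3210 := by
    simp only [r4_01_1032, r4_02_1032, r4_12_0321, r4_12_2301, r4_12_3210, h.B9, zero_mul]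
    linear_combination 0
  refine ⟨?_, ?_⟩
  · rw [e]
    exact (add_nonneg (add_nonneg (mul_nonneg (mul_nonneg (mul_nonneg h.A8 h.B4) h.C2) (hF s4_0132)) (mul_nonneg (mul_nonneg (mul_nonneg h.A8 h.B4) h.C6) (hF s4_0321))) (mul_nonneg (mul_nonneg (mul_nonneg h.A8 h.B8) h.C8) (hF s4_3210)))
  · intro _ h0
    exact absurd h0 (by decide)

theorem u5_34201 {w : ℝ} (h : WF w) : TriAt w (0 : Fin 5) 1 2 s5_34201 := by
  intro F hF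
  have e : Rt 0 1 (lam - (w : ℂ)) (Rt 0 2 lam (Rt 1 2 (w : ℂ) F)) s5_34201 =
      (w8 (lam - (w : ℂ)) * w2 lam * w4 (w : ℂ) + w4 (lam - (w : ℂ)) * kk lam * kk (w : ℂ)) * F s5_01243 + (w8 (lam - (w : ℂ)) * w2 lam * w8 (w : ℂ)) * F s5_04321 + (w4 (lam - (w : ℂ)) * w4 lam * w2 (w : ℂ) + w9 (lam - (w : ℂ)) * w6 lam * w6 (w : ℂ)) * F s5_10243 + (w8 (lam - (w : ℂ)) * w6 lam * w2 (w : ℂ)) * F s5_41320 + (w8 (lam - (w : ℂ)) * w6 lam * w6 (w : ℂ)) * F s5_43210 := by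
    simp only [r5_01_34201, r5_02_01243, r5_02_10243, r5_02_43210, r5_12_01243, r5_12_02143, r5_12_03412, r5_12_10243, r5_12_21043, r5_12_43210, h.B9, zero_mul]
    linear_combination F s5_02143 * h.E8 + F s5_21043 * h.E2p
  refine ⟨?_, ?_⟩
  · rw [e]
    exact (add_nonneg (add_nonneg (add_nonneg (add_nonneg (mul_nonneg (add_nonneg (mul_nonneg (mul_nonneg h.A8 h.B2) h.C4) (mul_nonneg (mul_nonneg h.A4 h.Bk) h.Ck)) (hF s5_01243)) (mul_nonneg (mul_nonneg (mul_nonneg h.A8 h.B2) h.C8) (hF s5_04321))) (mul_nonneg (h.E3p) (hF s5_10243))) (mul_nonneg (mul_nonneg (mul_nonneg h.A8 h.B6) h.C2) (hF s5_41320))) (mul_nonneg (mul_nonneg (mul_nonneg h.A8 h.B6) h.C6) (hF s5_43210)))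
  · intro _ h0
    exact absurd h0 (by decide)

theorem u5_31402 {w : ℝ} (h : WF w) : TriAt w (0 : Fin 5) 1 2 s5_31402 := by
  intro F hF
  have e : Rt 0 1 (lam - (w : ℂ)) (Rt 0 2 lam (Rt 1 2 (w : ℂ) F)) s5_31402 =
      (w6 (lam - (w : ℂ)) * w4 lam * kk (w : ℂ) + w2 (lam - (w : ℂ)) * w6 lam * w4 (w : ℂ)) * F s5_01243 + (w2 (lam - (w : ℂ)) * w6 lam * w8 (w : ℂ)) * F s5_04321 + (w6 (lam - (w : ℂ)) * w8 lam * w6 (w : ℂ) + w2 (lam - (w : ℂ)) * w2 lam * w2 (w : ℂ)) * F s5_41320 + (w6 (lam - (w : ℂ)) * w8 lam * w2 (w : ℂ) + w2 (lam - (w : ℂ)) * w2 lam * w6 (w : ℂ)) * F s5_43210 := by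
    simp only [r5_01_31402, r5_02_03412, r5_02_31402, r5_12_01243, r5_12_03412, r5_12_21043, r5_12_41320, r5_12_43210, h.B9, zero_mul]
    linear_combination F s5_02143 * h.E1p
  refine ⟨?_, ?_⟩
  · rw [e]
    exact (add_nonneg (add_nonneg (add_nonneg (mul_nonneg (add_nonneg (mul_nonneg (mul_nonneg h.A6 h.B4) h.Ck) (mul_nonneg (mul_nonneg h.A2 h.B6) h.C4)) (hF s5_01243)) (mul_nonneg (mul_nonneg (mul_nonneg h.A2 h.B6) h.C8) (hF s5_04321))) (mul_nonneg (add_nonneg (mul_nonneg (mul_nonneg h.A6 h.B8) h.C6) (mul_nonneg (mul_nonneg h.A2 h.B2) h.C2)) (hF s5_41320))) (mul_nonneg (add_nonneg (mul_nonneg (mul_nonneg h.A6 h.B8) h.C2) (mul_nonneg (mul_nonneg h.A2 h.B2) h.C6)) (hF s5_43210)))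
  · intro _ h0
    exact absurd h0 (by decide)

theorem u5_03412 {w : ℝ} (h : WF w) : TriAt w (0 : Fin 5) 1 2 s5_03412 := by
  intro F hF
  have e : Rt 0 1 (lam - (w : ℂ)) (Rt 0 2 lam (Rt 1 2 (w : ℂ) F)) s5_03412 =
      (w6 (lam - (w : ℂ)) * w6 lam * w8 (w : ℂ)) * F s5_04321 + (w6 (lam - (w : ℂ)) * w6 lam * w4 (w : ℂ) + w2 (lam - (w : ℂ)) * w4 lam * kk (w : ℂ)) * F s5_01243 + (w2 (lam - (w : ℂ)) * w4 lam * w4 (w : ℂ) + w6 (lam - (w : ℂ)) * w6 lam * w9 (w : ℂ)) * F s5_02143 + (w6 (lam - (w : ℂ)) * w2 lam * w2 (w : ℂ) + w2 (lam - (w : ℂ)) * w8 lam * w6 (w : ℂ)) * F s5_41320 + (w6 (lam - (w : ℂ)) * w2 lam * w6 (w : ℂ) + w2 (lam - (w : ℂ)) * w8 lam * w2 (w : ℂ)) * F s5_43210 := by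
    simp only [r5_01_03412, r5_02_03412, r5_02_31402, r5_12_01243, r5_12_03412, r5_12_21043, r5_12_41320, r5_12_43210, h.B9, zero_mul]
    linear_combination 0
  refine ⟨?_, ?_⟩
  · rw [e]
    exact (add_nonneg (add_nonneg (add_nonneg (add_nonneg (mul_nonneg (mul_nonneg (mul_nonneg h.A6 h.B6) h.C8) (hF s5_04321)) (mul_nonneg (add_nonneg (mul_nonneg (mul_nonneg h.A6 h.B6) h.C4) (mul_nonneg (mul_nonneg h.A2 h.B4) h.Ck)) (hF s5_01243))) (mul_nonneg (h.E5p) (hF s5_02143))) (mul_nonneg (add_nonneg (mul_nonneg (mul_nonneg h.A6 h.B2) h.C2) (mul_nonneg (mul_nonneg h.A2 h.B8) h.C6)) (hF s5_41320))) (mul_nonneg (add_nonneg (mul_nonneg (mul_nonneg h.A6 h.B2) h.C6) (mul_nonneg (mul_nonneg h.A2 h.B8) h.C2)) (hF s5_43210)))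
  · intro h
    intro _ hs
    have hs2 : 0 < F s5_04321 := by
      have h3 : (s5_03412).sw 1 2 = s5_04321 := St.ext' (by decide)
      rwa [h3] at hs
    rw [e]
    exact (add_pos_of_pos_of_nonneg (add_pos_of_pos_of_nonneg (add_pos_of_pos_of_nonneg (add_pos_of_pos_of_nonneg (mul_pos (mul_pos (mul_pos (h.pA6) (h.pB6)) (h.pC8)) hs2) (mul_nonneg (add_nonneg (mul_nonneg (mul_nonneg h.A6 h.B6) h.C4) (mul_nonneg (mul_nonneg h.A2 h.B4) h.Ck)) (hF s5_01243))) (mul_nonneg (h.E5p) (hF s5_02143))) (mul_nonneg (add_nonneg (mul_nonneg (mul_nonneg h.A6 h.B2) h.C2) (mul_nonneg (mul_nonneg h.A2 h.B8) h.C6)) (hF s5_41320))) (mul_nonneg (add_nonneg (mul_nonneg (mul_nonneg h.A6 h.B2) h.C6) (mul_nonneg (mul_nonneg h.A2 h.B8) h.C2)) (hF s5_43210)))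

theorem u6_345012 {w : ℝ} (h : WF w) : TriAt w (0 : Fin 6) 1 2 s6_345012 := by
  intro F hF
  have e : Rt 0 1 (lam - (w : ℂ)) (Rt 0 2 lam (Rt 1 2 (w : ℂ) F)) s6_345012 =
      (w8 (lam - (w : ℂ)) * w4 lam * w2 (w : ℂ)) * F s6_013254 + (w8 (lam - (w : ℂ)) * w4 lam * w6 (w : ℂ)) * F s6_032154 + (w4 (lam - (w : ℂ)) * w6 lam * w2 (w : ℂ) + w9 (lam - (w : ℂ)) * w4 lam * w6 (w : ℂ)) * F s6_052431 + (w8 (lam - (w : ℂ)) * w8 lam * w4 (w : ℂ) + w4 (lam - (w : ℂ)) * w2 lam * kk (w : ℂ)) * F s6_512430 + (w8 (lam - (w : ℂ)) * w8 lam * w8 (w : ℂ)) * F s6_543210 := by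
    simp only [r6_01_345012, r6_02_015432, r6_02_105432, r6_02_435102, r6_12_015432, r6_12_032154, r6_12_052431, r6_12_230154, r6_12_250431, r6_12_512430, r6_12_521430, r6_12_534120, h.B9, zero_mul]
    linear_combination F s6_015432 * h.E2 + F s6_521430 * h.E4
  refine ⟨?_, ?_⟩
  · rw [e]
    exact (add_nonneg (add_nonneg (add_nonneg (add_nonneg (mul_nonneg (mul_nonneg (mul_nonneg h.A8 h.B4) h.C2) (hF s6_013254)) (mul_nonneg (mul_nonneg (mul_nonneg h.A8 h.B4) h.C6) (hF s6_032154))) (mul_nonneg (h.E3) (hF s6_052431))) (mul_nonneg (add_nonneg (mul_nonneg (mul_nonneg h.A8 h.B8) h.C4) (mul_nonneg (mul_nonneg h.A4 h.B2) h.Ck)) (hF s6_512430))) (mul_nonneg (mul_nonneg (mul_nonneg h.A8 h.B8) h.C8) (hF s6_543210)))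
  · intro _ h0
    exact absurd h0 (by decide)

end Pool.Agent.CYL
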